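import Pool.Agent.V1142.XZ.Fam

/-!
# The index law for the products of a variety with the powers of another one: general systems
-/

open CategoryTheory AlgebraicGeometry Filter Topology

open scoped ENNReal

universe u v

set_option linter.unusedSectionVars false

namespace Pool.Agent.V1142.XZ

open Module
open Pool.Agent.H914 Pool.Agent.H914.VarClass Pool.Agent.H914.VarClass.Obj
  Pool.Agent.H914.WeilCohomology Pool.Agent.Y133.Half Pool.Agent.Y133.Half.Sys

variable {k : Type u} [Field k] {𝒱 : VarClass k} {ops : CycleOps 𝒱}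
  {W : WeilCohomology.{u, v} ops} {X Y Z Z' P Q M N : 𝒱.Obj} {S T : Sys W}

lemma nondeg_of_num (h : S.Num Z = ⊥) : Nondeg S Z := by
  intro c hc hc'
  have h1 : c ∈ S.Num Z := ⟨hc, hc'⟩
  rwa [h, Submodule.mem_bot] at h1

lemma a_le_a (hST : ∀ X, S.C X ≤ T.C X) (Z : 𝒱.Obj) : S.a Z ≤ T.a Z := by
  have e : S.F Z 1 = (T.F Z 1).compl₁₂ (Submodule.inclusion (hST Z))
      (Submodule.inclusion (hST Z)) := rfl
  rw [a, a, e]
  exact rk_comp_le _ _ _

lemma a_eq_zero (h : ∀ l ∈ S.C Z, W.tr Z l = 0) : S.a Z = 0 := by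
  have h1 : S.F Z 1 = 0 := by
    apply LinearMap.ext
    intro c
    apply LinearMap.ext
    intro d
    exact h _ (S.mul c.2 d.2)
  rw [a, h1, rk, LinearMap.range_zero, finrank_bot]

/-- No classes of degree one on products, if there are none on a factor. -/
lemma tr_prod_zero (h : ∀ l ∈ S.C X, W.tr X l = 0) : ∀ l ∈ S.C (Z.prod X), W.tr _ l = 0 := by
  intro l hl
  have h2 := W.tr_push (snd Z X) l 1
  rw [mul_one, map_one, mul_one] at h2
  rw [← h2]
  exact h _ (S.push _ hl)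

lemma tr_pw_zero (h : ∀ l ∈ S.C X, W.tr X l = 0) (n : ℕ) : ∀ l ∈ S.C (pw X n), W.tr _ l = 0 := by
  intro l hl
  have h2 := W.tr_push (prj X n 0) l 1
  rw [mul_one, map_one, mul_one] at h2
  rw [← h2]
  exact h _ (S.push _ hl)

lemma finrank_op (T : Sys W) (P Q : 𝒱.Obj) :
    finrank W.K (T.Op P Q) = finrank W.K (T.C (P.prod Q)) := by
  have h1 : Function.Injective (corrL W P Q) := by
    rw [← LinearMap.ker_eq_bot, LinearMap.ker_eq_bot']
    intro c hc
    exact corr_inj hc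
  exact (Submodule.equivMapOfInjective _ h1 _).finrank_eq.symm

lemma finrank_nop (T : Sys W) (P Q : 𝒱.Obj) :
    finrank W.K (T.NOp P Q) = finrank W.K (T.Num (P.prod Q)) := by
  have h1 : Function.Injective (corrL W P Q) := by
    rw [← LinearMap.ker_eq_bot, LinearMap.ker_eq_bot']
    intro c hc
    exact corr_inj hc
  exact (Submodule.equivMapOfInjective _ h1 _).finrank_eq.symm

lemma hstab_op (hST : ∀ X, S.C X ≤ T.C X) (Z X : 𝒱.Obj) :
    HStab S X (fun n => T.Op Z (pw X n)) :=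
  fun _ _ _ hf _ ha => Op.comp (Op.mono hST hf) ha

lemma hstab_nop (hST : ∀ X, S.C X ≤ T.C X) (Z X : 𝒱.Obj) :
    HStab S X (fun n => T.NOp Z (pw X n)) :=
  fun _ _ _ hf _ ha => NOp.comp_left (Op.mono hST hf) ha

lemma pw_le_prod (T : Sys W) (Z Q : 𝒱.Obj) [Nontrivial (W.H Z)] :
    finrank W.K (T.C Q) ≤ finrank W.K (T.C (Z.prod Q)) := by
  apply T.finrank_C_le (snd Z Q)
  intro x y hxy
  have h7 : xp W (1 : W.H Z) (x - y) = 0 := by
    rw [xp, map_one, one_mul, map_sub, hxy, sub_self]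
  exact sub_eq_zero.1 (xp_eq_zero_left one_ne_zero h7)

lemma posC (T : Sys W) (Z : 𝒱.Obj) [Nontrivial (W.H Z)] : 0 < finrank W.K (T.C Z) := by
  rw [Module.finrank_pos_iff]
  exact ⟨⟨⟨1, T.one Z⟩, 0, fun h => one_ne_zero (congrArg Subtype.val h)⟩⟩

/-- A system which is nondegenerate on the powers is regular. -/
theorem reg_pw (hT : ∀ n, Nondeg T (pw X n)) (hlam : ∃ l ∈ T.C X, W.tr X l = 1) : Reg T X := by
  refine ⟨hlam, ?_⟩
  obtain ⟨l, hl, hl1⟩ := hlam
  have hpos : ∀ n, 0 < T.al X n := by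
    intro n
    obtain ⟨m, hm, hm1⟩ := T.exists_lam hl hl1 n
    refine T.a_pos (xp_mem_C T hm hm) ?_
    rw [tr_xp, hm1, mul_one]
  have h := Pool.Agent.Y129.tendsto_quot (α := fun l => T.al X l)
    (q := finrank W.K (W.H X) ^ 2) (c := finrank W.K (W.H X) ^ 2) hpos
    (fun n => by rw [mul_comm]; exact T.al_convex X n) (fun n => T.al_succ_le X n)
    (fun n => by
      have h1 := T.growth X n
      rw [← pow_mul, mul_comm ((n + 2) ^ _)]
      have h2 : T.al X n = finrank W.K (T.C ((pw X n).prod (pw X n))) :=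
        a_eq (nondeg_pw hT n n)
      rw [h2]
      exact h1)
  push_cast at h
  exact h

lemma tendsto_top_of {t s : ℕ → ℕ} (ht : ∀ n, 0 < t n)
    (h : ∀ N : ℕ, ∃ n₀ : ℕ, ∀ n ≥ n₀, N * s n ≤ t n) :
    Tendsto (fun n => (t n : ℝ≥0∞) / s n) atTop (𝓝 ⊤) := by
  rw [ENNReal.tendsto_nhds_top_iff_nat]
  intro m
  obtain ⟨n₀, hn₀⟩ := h (m + 1)
  filter_upwards [eventually_ge_atTop n₀] with n hn
  rcases Nat.eq_zero_or_pos (s n) with h0 | h0
  · rw [h0, Nat.cast_zero, ENNReal.div_zero (by exact_mod_cast (ht n).ne')]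
    exact ENNReal.natCast_lt_top m
  · rw [ENNReal.lt_div_iff_mul_lt (Or.inl (by exact_mod_cast h0.ne'))
      (Or.inl (ENNReal.natCast_ne_top _))]
    have h1 := hn₀ n hn
    have h2 : m * s n < t n := by
      have : m * s n + s n ≤ t n := by rw [← Nat.succ_mul]; exact h1
      omega
    exact_mod_cast h2

lemma nat_of_tendsto_top {t s : ℕ → ℕ} (h : Tendsto (fun n => (t n : ℝ≥0∞) / s n) atTop (𝓝 ⊤))
    (hs : ∀ n, 0 < s n) (N : ℕ) : ∃ n₀ : ℕ, ∀ n ≥ n₀, N * s n ≤ t n := by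
  rw [ENNReal.tendsto_nhds_top_iff_nat] at h
  obtain ⟨n₀, hn₀⟩ := eventually_atTop.1 (h N)
  refine ⟨n₀, fun n hn => ?_⟩
  have h1 := hn₀ n hn
  rw [ENNReal.lt_div_iff_mul_lt (Or.inl (by exact_mod_cast (hs n).ne'))
    (Or.inl (ENNReal.natCast_ne_top _))] at h1
  exact_mod_cast h1.le

/-- **The index on the powers.** -/
theorem base_law (hST : ∀ X, S.C X ≤ T.C X) (X : 𝒱.Obj) [Nontrivial (W.H X)] :
    ∃ N : ℕ∞, 1 ≤ N ∧
      Tendsto (fun n => (finrank W.K (T.C (pw X n)) : ℝ≥0∞) / S.a (pw X n)) atTop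
        (𝓝 (N : ℝ≥0∞)) ∧
      (N ≠ ⊤ → ∀ n, S.Num (pw X n) = ⊥) ∧
      (N = 1 ↔ ∀ n, S.C (pw X n) = T.C (pw X n) ∧ S.Num (pw X n) = ⊥) := by
  by_cases hN : ∀ n, S.Num (pw X n) = ⊥
  · have hS : ∀ n, Nondeg S (pw X n) := fun n => nondeg_of_num (hN n)
    obtain ⟨N, h1, h2, -, h4⟩ := stab_index hS (stab_of_le (X := X) hST) fun n => hST _
    refine ⟨N, h1, h2.congr fun n => by rw [a_eq (hS n)], fun _ => hN, ?_⟩
    rw [h4]
    exact ⟨fun h n => ⟨(h n).symm, hN n⟩, fun h n => (h n).1.symm⟩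
  · have h1 := (S.num_or T hST X).resolve_left hN
    have hpos : ∀ n, 0 < finrank W.K (T.C (pw X n)) := fun n => by
      have := nontrivial_pw (W := W) X n
      exact posC T _
    refine ⟨⊤, le_top, tendsto_top_of hpos h1, fun h => absurd rfl h, ?_⟩
    constructor
    · intro h; exact absurd h (by simp)
    · intro h; exact absurd (fun n => (h n).2) hN

/-- The consequences of a finite index. -/
theorem reg_of_finite {l : W.H X} (hl : l ∈ S.C X) (hl1 : W.tr X l = 1)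
    {N : ℕ∞} (hN : Tendsto (fun n => (finrank W.K (T.C (pw X n)) : ℝ≥0∞) / S.a (pw X n)) atTop
      (𝓝 (N : ℝ≥0∞))) (hN' : N ≠ ⊤) : Reg S X := by
  have hnt : Nontrivial (W.H X) := ⟨⟨1, 0, one_ne_zero_of (ne_zero_of_tr hl1)⟩⟩
  refine ⟨⟨l, hl, hl1⟩, ?_⟩
  have hb : 0 < finrank W.K (W.H X) := Module.finrank_pos
  have hpos : ∀ n, 0 < S.al X n := by
    intro n
    obtain ⟨m, hm, hm1⟩ := S.exists_lam hl hl1 n
    refine S.a_pos (xp_mem_C S hm hm) ?_
    rw [tr_xp, hm1, mul_one]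
  have hposT : ∀ n, 0 < finrank W.K (T.C (pw X n)) := fun n => by
    have := nontrivial_pw (W := W) X n
    exact posC T _
  rcases ratio_dichotomy hpos (S.al_convex X) ((finrank W.K (W.H X) : ℝ) ^ 2) with
    ⟨c, hc, hcB, hle⟩ | hB
  · exfalso
    apply hN'
    have h1 : Tendsto (fun n => (finrank W.K (T.C (pw X n)) : ℝ≥0∞) / S.a (pw X n)) atTop
        (𝓝 ⊤) := by
      refine tendsto_top_of hposT fun m => ?_
      have hm0 : (0 : ℝ) < m + 1 := by positivity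
      obtain ⟨n₀, hn₀⟩ := small_of (T := T) hc hcB hle hb (ε := 1 / (m + 1)) (by positivity)
      refine ⟨n₀, fun n hn => ?_⟩
      have h3 := hn₀ n hn
      have h4 : ((m : ℝ) + 1) * S.a (pw X n) ≤ finrank W.K (T.C (pw X n)) := by
        calc ((m : ℝ) + 1) * S.a (pw X n) ≤ ((m : ℝ) + 1) *
              (1 / (m + 1) * finrank W.K (T.C (pw X n))) := mul_le_mul_of_nonneg_left h3 hm0.le
          _ = _ := by field_simp
      have h5 : (m + 1) * S.a (pw X n) ≤ finrank W.K (T.C (pw X n)) := by exact_mod_cast h4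
      have h6 : m * S.a (pw X n) ≤ (m + 1) * S.a (pw X n) :=
        Nat.mul_le_mul_right _ (Nat.le_succ m)
      exact h6.trans h5
    exact ENat.toENNReal_eq_top.1 (tendsto_nhds_unique hN h1)
  · rw [Metric.tendsto_atTop]
    intro δ hδ
    have hB2 : (0 : ℝ) < (finrank W.K (W.H X) : ℝ) ^ 2 := by positivity
    obtain ⟨c, hc0, hcB, hc⟩ := exists_close hB2 1 hδ
    rw [pow_one, pow_one] at hc
    obtain ⟨n₀, hn₀⟩ := hB c hc0 hcB
    refine ⟨n₀, fun n hn => ?_⟩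
    have h1 : (0 : ℝ) < S.al X n := by exact_mod_cast hpos n
    have h2 : c ≤ (S.al X (n + 1) : ℝ) / S.al X n := (le_div_iff₀ h1).2 (hn₀ n hn)
    have h3 : (S.al X (n + 1) : ℝ) / S.al X n ≤ (finrank W.K (W.H X) : ℝ) ^ 2 := by
      rw [div_le_iff₀ h1]
      exact_mod_cast S.al_succ_le X n
    rw [Real.dist_eq, abs_lt]
    constructor <;> linarith

/-- If the index is finite, the larger system is nondegenerate on the powers. -/
theorem num_of_finite (hST : ∀ X, S.C X ≤ T.C X) {l : W.H X} (hl : l ∈ S.C X)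
    (hl1 : W.tr X l = 1)
    {N : ℕ∞} (hN : Tendsto (fun n => (finrank W.K (T.C (pw X n)) : ℝ≥0∞) / S.a (pw X n)) atTop
      (𝓝 (N : ℝ≥0∞))) (hN' : N ≠ ⊤) (n : ℕ) : T.Num (pw X n) = ⊥ := by
  have hnt : Nontrivial (W.H X) := ⟨⟨1, 0, one_ne_zero_of (ne_zero_of_tr hl1)⟩⟩
  have hposT : ∀ n, 0 < finrank W.K (T.C (pw X n)) := fun n => by
    have := nontrivial_pw (W := W) X n
    exact posC T _
  by_contra hne
  have h1 := (T.num_or T (fun _ => le_rfl) X).resolve_left fun h => hne (h n)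
  apply hN'
  have h2 : Tendsto (fun n => (finrank W.K (T.C (pw X n)) : ℝ≥0∞) / S.a (pw X n)) atTop
      (𝓝 ⊤) := by
    refine tendsto_top_of hposT fun m => ?_
    obtain ⟨n₀, hn₀⟩ := h1 m
    exact ⟨n₀, fun n hn => (Nat.mul_le_mul_left m (a_le_a hST _)).trans (hn₀ n hn)⟩
  exact ENat.toENNReal_eq_top.1 (tendsto_nhds_unique hN h2)

lemma top_of_noLam (T : Sys W) (Z : 𝒱.Obj) [Nontrivial (W.H X)] [Nontrivial (W.H Z)]
    (h : ∀ l ∈ S.C X, W.tr X l = 0) : Tendsto (fun n =>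
      (finrank W.K (T.C (Z.prod (pw X n))) : ℝ≥0∞) / S.a (Z.prod (pw X n))) atTop (𝓝 ⊤) := by
  refine tendsto_top_of (fun n => ?_) fun m => ⟨0, fun n _ => ?_⟩
  · have := nontrivial_pw (W := W) X n
    have := nontrivial_prod (W := W) (pw X n) Z
    exact posC T _
  · rw [a_eq_zero (tr_prod_zero (tr_pw_zero h n)), mul_zero]
    exact Nat.zero_le _

end Pool.Agent.V1142.XZ
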