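import Pool.Agent.V1142.XZ.NdLaw
import Pool.Agent.Y121.AHS.Law

/-!
# The index law for the absolutely Hodge classes among the Hodge classes on `Z × X^n`
-/

open CategoryTheory AlgebraicGeometry Filter Topology

open scoped ENNReal

universe u

namespace Pool.Agent.V1142.XZ

open Module
open Pool.Agent.H914 Pool.Agent.H914.VarClass Pool.Agent.H914.VarClass.Obj
  Pool.Agent.H914.WeilCohomology
open Pool.Agent.Y121 Pool.Agent.Y121.AHS
open Pool.Agent.Y133.Half (pw HasIndex ClassPred dimBy)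

variable {k : Type u} [Field k] {𝒱 : VarClass k} {ops : CycleOps 𝒱}

/-- **The index law** for the Hodge classes and the absolutely Hodge classes on `Z × X^n`. -/
theorem ahs_times (T : HodgeTheory ops) (D : Full.Conjugates T) (X : 𝒱.Obj)
    [Nontrivial (T.W.H X)] : ∃ N : ℕ∞, 1 ≤ N ∧
      HasIndex (fun n => hodgeDim T (pw X n)) (fun n => Full.absDim D (pw X n)) N ∧
      (N = 1 ↔ ∀ n j c, IsHodge T (pw X n) j c → Full.IsAbsHodge D (pw X n) j c) ∧
      ∀ Z : 𝒱.Obj, Nontrivial (T.W.H Z) → ∃ p q : ℕ, 1 ≤ q ∧ q ≤ p ∧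
        p ≤ finrank T.W.K (T.W.H Z) ∧
        HasIndex (fun n => hodgeDim T (Z.prod (pw X n))) (fun n => hodgeDim T (pw X n)) p ∧
        HasIndex (fun n => Full.absDim D (Z.prod (pw X n)))
          (fun n => Full.absDim D (pw X n)) q ∧
        Tendsto (fun n => (hodgeDim T (Z.prod (pw X n)) : ℝ≥0∞) /
          Full.absDim D (Z.prod (pw X n))) atTop (𝓝 ((N : ℝ≥0∞) * ((p : ℝ≥0∞) / q))) ∧
        ((N = 1 ∧ p = q) ↔ ∀ n j c, IsHodge T (Z.prod (pw X n)) j c →
          Full.IsAbsHodge D (Z.prod (pw X n)) j c) := by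
  have hnt : Nontrivial ((toH T).W.H X) := ‹Nontrivial (T.W.H X)›
  have key := nd_times (Q := AH.absPred (Full.toD D)) (R := AH.hodgePred (toH T))
    (fun h => h.1) (fun Z => AH.abs_nondeg (Full.toD D) Z)
    (fun Z x hx h => AH.hodge_nondeg hx h) X
  simp only [Full.dimBy_abs] at key
  obtain ⟨N, h1, h2, h3, h4⟩ := key
  refine ⟨N, h1, h2, ?_, fun Z hZ => ?_⟩
  · rw [h3]
    exact forall_congr' fun n => forall_congr' fun j => forall_congr' fun c =>
      imp_congr_right fun _ => Full.isAbsHodge_iff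
  · obtain ⟨p, q, hq, hqp, hp, k1, k2, k3, k4⟩ := h4 Z hZ
    refine ⟨p, q, hq, hqp, hp, k1, k2, k3, ?_⟩
    rw [k4]
    exact forall_congr' fun n => forall_congr' fun j => forall_congr' fun c =>
      imp_congr_right fun _ => Full.isAbsHodge_iff

end Pool.Agent.V1142.XZ
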