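import Mathlib

/-!
# A bound for shares: definition
-/

namespace Pool.Agent.V1142.XZ

/-- For every `ε > 0` we have `a n ≤ (1 - 1 / (2 p) + ε) t n` for all sufficiently large `n`. -/
def AtMostShare (p : ℕ) (a t : ℕ → ℕ) : Prop :=
  ∀ ε : ℝ, 0 < ε → ∃ n₀ : ℕ, ∀ n ≥ n₀, (a n : ℝ) ≤ (1 - 1 / (2 * p) + ε) * t n

end Pool.Agent.V1142.XZ
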