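import Pool.Agent.V1142.XZ.Deg

/-!
# The index law for the products of a variety with the powers of another one: general systems
-/

open CategoryTheory AlgebraicGeometry Filter Topology

open scoped ENNReal

universe u v

set_option linter.unusedSectionVars false

namespace Pool.Agent.V1142.XZ

open Module
open Pool.Agent.H914 Pool.Agent.H914.VarClass Pool.Agent.H914.VarClass.Obj
  Pool.Agent.H914.WeilCohomology Pool.Agent.Y133.Half Pool.Agent.Y133.Half.Sys

variable {k : Type u} [Field k] {𝒱 : VarClass k} {ops : CycleOps 𝒱}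
  {W : WeilCohomology.{u, v} ops} {X Y Z Z' P Q M N : 𝒱.Obj} {S T : Sys W}

lemma ratio_one (hST : ∀ X, S.C X ≤ T.C X) (Z : 𝒱.Obj) [Nontrivial (W.H Z)]
    (h : S.C Z = T.C Z ∧ S.Num Z = ⊥) : (finrank W.K (T.C Z) : ℝ≥0∞) / S.a Z = 1 := by
  have h2 := S.a_add_num Z
  rw [h.2, finrank_bot, add_zero, h.1] at h2
  rw [h2]
  exact ENNReal.div_self (by exact_mod_cast (posC T Z).ne') (ENNReal.natCast_ne_top _)

lemma div_div_same {a b c : ℝ≥0∞} (h0 : c ≠ 0) (h1 : c ≠ ⊤) : (a / c) / (b / c) = a / b := by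
  rw [div_eq_mul_inv a c, div_eq_mul_inv b c]
  exact ENNReal.mul_div_mul_right a b (ENNReal.inv_ne_zero.2 h1) (ENNReal.inv_ne_top.2 h0)

lemma tendsto_quot_E {f g h : ℕ → ℕ} {a b : ℝ≥0∞} (hg : ∀ n, 0 < g n) (ha : a ≠ 0) (hb : b ≠ ⊤)
    (h1 : Tendsto (fun n => (f n : ℝ≥0∞) / g n) atTop (𝓝 a))
    (h2 : Tendsto (fun n => (h n : ℝ≥0∞) / g n) atTop (𝓝 b)) :
    Tendsto (fun n => (f n : ℝ≥0∞) / h n) atTop (𝓝 (a / b)) := by
  refine (ENNReal.Tendsto.div h1 (Or.inl ha) h2 (Or.inl hb)).congr fun n => ?_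
  exact div_div_same (by exact_mod_cast (hg n).ne') (ENNReal.natCast_ne_top _)

/-- The case of an infinite index. -/
theorem prod_top (hST : ∀ X, S.C X ≤ T.C X) (X Z : 𝒱.Obj) [hX : Nontrivial (W.H X)]
    [hZ : Nontrivial (W.H Z)]
    (hN : Tendsto (fun n => (finrank W.K (T.C (pw X n)) : ℝ≥0∞) / S.a (pw X n)) atTop (𝓝 ⊤)) :
    Tendsto (fun n => (finrank W.K (T.C (Z.prod (pw X n))) : ℝ≥0∞) / S.a (pw X n)) atTop
        (𝓝 ⊤) ∧
      Tendsto (fun n => (finrank W.K (T.C (Z.prod (pw X n))) : ℝ≥0∞) /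
        S.a (Z.prod (pw X n))) atTop (𝓝 ⊤) := by
  constructor
  · refine tendsto_nhds_top_mono' hN fun n => ?_
    apply ENNReal.div_le_div_right
    exact_mod_cast pw_le_prod T Z (pw X n)
  · by_cases hlam : ∀ l ∈ S.C X, W.tr X l = 0
    · exact top_of_noLam T Z hlam
    · push Not at hlam
      obtain ⟨l₀, hl₀, hne⟩ := hlam
      have hl : (W.tr X l₀)⁻¹ • l₀ ∈ S.C X := Submodule.smul_mem _ _ hl₀
      have hl1 : W.tr X ((W.tr X l₀)⁻¹ • l₀) = 1 := by
        rw [map_smul, smul_eq_mul, inv_mul_cancel₀ hne]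
      have hpos : ∀ n, 0 < S.a (pw X n) := by
        intro n
        obtain ⟨m, hm, hm1⟩ := S.exists_lam hl hl1 n
        exact S.a_pos hm hm1
      refine tendsto_top_of (fun n => ?_) fun m => ?_
      · have := nontrivial_pw (W := W) X n
        have := nontrivial_prod (W := W) (pw X n) Z
        exact posC T _
      · set C := finrank W.K (W.H Z) * finrank W.K (W.H X) ^ 2 with hC
        obtain ⟨n₀, hn₀⟩ := nat_of_tendsto_top hN hpos (m * C)
        refine ⟨max n₀ 2, fun n hn => ?_⟩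
        have h4 := hn₀ n ((le_max_left _ _).trans hn)
        have h5 := a_bound hl hl1 Z ((le_max_right _ _).trans hn)
        calc m * S.a (Z.prod (pw X n)) ≤ m * (C * S.a (pw X n)) := Nat.mul_le_mul_left _ h5
          _ = m * C * S.a (pw X n) := by ring
          _ ≤ _ := h4
          _ ≤ _ := pw_le_prod T Z (pw X n)

/-- **The index law on the products `Z × X^n`.** -/
theorem prod_law (hST : ∀ X, S.C X ≤ T.C X) (X Z : 𝒱.Obj) [hX : Nontrivial (W.H X)]
    [hZ : Nontrivial (W.H Z)] {N : ℕ∞} (hN1 : 1 ≤ N)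
    (hN : Tendsto (fun n => (finrank W.K (T.C (pw X n)) : ℝ≥0∞) / S.a (pw X n)) atTop
      (𝓝 (N : ℝ≥0∞))) (hnum : N ≠ ⊤ → ∀ n, S.Num (pw X n) = ⊥)
    (hone : N = 1 → ∀ n, S.C (pw X n) = T.C (pw X n)) :
    ∃ (P : ℕ∞) (q : ℕ), N ≤ P ∧ N * q ≤ P ∧ q ≤ finrank W.K (W.H Z) ∧
      Tendsto (fun n => (finrank W.K (T.C (Z.prod (pw X n))) : ℝ≥0∞) / S.a (pw X n)) atTop
        (𝓝 (P : ℝ≥0∞)) ∧
      (N ≠ ⊤ → Tendsto (fun n => (S.a (Z.prod (pw X n)) : ℝ≥0∞) / S.a (pw X n)) atTop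
        (𝓝 (q : ℝ≥0∞))) ∧
      Tendsto (fun n => (finrank W.K (T.C (Z.prod (pw X n))) : ℝ≥0∞) / S.a (Z.prod (pw X n)))
        atTop (𝓝 ((P : ℝ≥0∞) / q)) ∧
      (P = q ↔ ∀ n, S.C (Z.prod (pw X n)) = T.C (Z.prod (pw X n)) ∧
        S.Num (Z.prod (pw X n)) = ⊥) := by
  have hpw := fun n => nontrivial_pw (W := W) X n
  have hzpw := fun n => (have := hpw n; nontrivial_prod (W := W) (pw X n) Z)
  have hall : ∀ {L : ℝ≥0∞}, Tendsto (fun n => (finrank W.K (T.C (Z.prod (pw X n))) : ℝ≥0∞) /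
      S.a (Z.prod (pw X n))) atTop (𝓝 L) → (∀ n, S.C (Z.prod (pw X n)) =
        T.C (Z.prod (pw X n)) ∧ S.Num (Z.prod (pw X n)) = ⊥) → L = 1 := by
    intro L hL h0
    have h5 : ∀ n, (finrank W.K (T.C (Z.prod (pw X n))) : ℝ≥0∞) / S.a (Z.prod (pw X n)) = 1 := by
      intro n
      have := hzpw n
      exact ratio_one hST _ (h0 n)
    simp only [h5] at hL
    exact (tendsto_nhds_unique tendsto_const_nhds hL).symm
  rcases eq_or_ne N ⊤ with rfl | hNt
  · -- the infinite case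
    obtain ⟨h1, h2⟩ := prod_top hST X Z (by rw [ENat.toENNReal_top] at hN; exact hN)
    refine ⟨⊤, 0, le_rfl, le_top, Nat.zero_le _, ?_, fun h0 => absurd rfl h0, ?_, ?_, ?_⟩
    · rw [ENat.toENNReal_top]; exact h1
    · have e : ((⊤ : ℕ∞) : ℝ≥0∞) / ((0 : ℕ) : ℝ≥0∞) = ⊤ := by
        rw [ENat.toENNReal_top, Nat.cast_zero, ENNReal.div_zero ENNReal.top_ne_zero]
      rw [e]; exact h2
    · intro h; exact absurd h (by simp)
    · intro h; exact absurd (hall h2 h) ENNReal.top_ne_one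
  · -- the finite case
    obtain ⟨M, rfl⟩ := ENat.ne_top_iff_exists.1 hNt
    have hM1 : 1 ≤ M := by exact_mod_cast hN1
    -- a class of degree one
    obtain ⟨l, hl, hl1⟩ : ∃ l ∈ S.C X, W.tr X l = 1 := by
      by_contra hcon
      push Not at hcon
      have hz : ∀ l ∈ S.C X, W.tr X l = 0 := by
        intro l hl
        by_contra hne
        apply hcon ((W.tr X l)⁻¹ • l) (Submodule.smul_mem _ _ hl)
        rw [map_smul, smul_eq_mul, inv_mul_cancel₀ hne]
      apply hNt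
      have h1 : ∀ n, (finrank W.K (T.C (pw X n)) : ℝ≥0∞) / S.a (pw X n) = ⊤ := by
        intro n
        have := hpw n
        rw [a_eq_zero (tr_pw_zero hz n), Nat.cast_zero,
          ENNReal.div_zero (by exact_mod_cast (posC T (pw X n)).ne')]
      simp only [h1] at hN
      exact ENat.toENNReal_eq_top.1 (tendsto_nhds_unique tendsto_const_nhds hN).symm
    have hSnum := hnum hNt
    have hSn : ∀ n, Nondeg S (pw X n) := fun n => nondeg_of_num (hSnum n)
    have hS := reg_of_finite hl hl1 hN hNt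
    have hTn : ∀ n, Nondeg T (pw X n) := fun n =>
      nondeg_of_num (num_of_finite hST hl hl1 hN hNt n)
    have hT : Reg T X := reg_pw hTn ⟨l, hST _ hl, hl1⟩
    have haS : ∀ n, 0 < S.a (pw X n) := by
      intro n
      obtain ⟨m, hm, hm1⟩ := S.exists_lam hl hl1 n
      exact S.a_pos hm hm1
    have haT : ∀ n, 0 < T.a (pw X n) := fun n => (haS n).trans_le (a_le_a hST _)
    obtain ⟨e, he, hmax⟩ := exists_max S X Z
    obtain ⟨f, hf, hmaxf⟩ := exists_max T X Z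
    have heT : Fac T X Z e := he.mono hST
    set q := finrank W.K (LinearMap.range e) with hq
    set p := finrank W.K (LinearMap.range f) with hp
    have hqp : q ≤ p := hmaxf e heT
    obtain ⟨P, hP, -⟩ := hstab_lim hSn (hstab_op hST Z X)
    obtain ⟨R, hR, hR0⟩ := hstab_lim hSn (hstab_nop hST Z X)
    have hP' : Tendsto (fun n => (finrank W.K (T.C (Z.prod (pw X n))) : ℝ≥0∞) / S.a (pw X n))
        atTop (𝓝 (P : ℝ≥0∞)) := by
      refine hP.congr fun n => ?_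
      rw [finrank_op, a_eq (hSn n)]
    have hR' : Tendsto (fun n => (finrank W.K (T.Num (Z.prod (pw X n))) : ℝ≥0∞) / S.a (pw X n))
        atTop (𝓝 (R : ℝ≥0∞)) := by
      refine hR.congr fun n => ?_
      rw [finrank_nop, a_eq (hSn n)]
    have h1 : Tendsto (fun n => (S.a (Z.prod (pw X n)) : ℝ≥0∞) / S.a (pw X n)) atTop
        (𝓝 (q : ℝ≥0∞)) := tendsto_ofReal haS (hS.max_tendsto he hmax)
    have h2 : Tendsto (fun n => (T.a (Z.prod (pw X n)) : ℝ≥0∞) / T.a (pw X n)) atTop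
        (𝓝 (p : ℝ≥0∞)) := tendsto_ofReal haT (hT.max_tendsto hf hmaxf)
    have h3 : Tendsto (fun n => (T.a (Z.prod (pw X n)) : ℝ≥0∞) / S.a (pw X n)) atTop
        (𝓝 ((p : ℝ≥0∞) * (M : ℝ≥0∞))) := by
      have hN' : Tendsto (fun n => (T.a (pw X n) : ℝ≥0∞) / S.a (pw X n)) atTop
          (𝓝 (M : ℝ≥0∞)) := by
        rw [ENat.toENNReal_coe] at hN
        refine hN.congr fun n => ?_
        rw [a_eq (hTn n)]
      refine (ENNReal.Tendsto.mul h2 (Or.inr (ENNReal.natCast_ne_top _)) hN'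
        (Or.inr (ENNReal.natCast_ne_top _))).congr fun n => ?_
      have e1 : (T.a (pw X n) : ℝ≥0∞) ≠ 0 := by exact_mod_cast (haT n).ne'
      have e2 : (T.a (pw X n) : ℝ≥0∞) ≠ ⊤ := ENNReal.natCast_ne_top _
      rw [div_eq_mul_inv, div_eq_mul_inv, div_eq_mul_inv, mul_assoc,
        ← mul_assoc ((T.a (pw X n) : ℝ≥0∞)⁻¹), ENNReal.inv_mul_cancel e1 e2, one_mul]
    have hsum : (P : ℝ≥0∞) = (p : ℝ≥0∞) * (M : ℝ≥0∞) + R := by
      refine tendsto_nhds_unique hP' ((h3.add hR').congr fun n => ?_)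
      rw [← ENNReal.add_div, ← Nat.cast_add, T.a_add_num]
    have hNP : (M : ℕ∞) ≤ P := by
      have h4 : ((M : ℕ∞) : ℝ≥0∞) ≤ (P : ℝ≥0∞) := by
        refine le_of_tendsto_of_tendsto' hN hP' fun n => ?_
        apply ENNReal.div_le_div_right
        exact_mod_cast pw_le_prod T Z (pw X n)
      exact ENat.toENNReal_le.1 h4
    have hMp : ((M * p : ℕ) : ℕ∞) ≤ P := by
      have h4 : (((M * p : ℕ) : ℕ∞) : ℝ≥0∞) ≤ (P : ℝ≥0∞) := by
        rw [hsum, ENat.toENNReal_coe, Nat.cast_mul, mul_comm (M : ℝ≥0∞)]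
        exact le_self_add
      exact ENat.toENNReal_le.1 h4
    have hP0 : (P : ℝ≥0∞) ≠ 0 := by
      intro h0
      have h4 : ((1 : ℕ∞) : ℝ≥0∞) ≤ (P : ℝ≥0∞) := ENat.toENNReal_le.2 (hN1.trans hNP)
      rw [h0, ENat.toENNReal_one] at h4
      exact absurd h4 (by simp)
    have hlim := tendsto_quot_E haS hP0 (ENNReal.natCast_ne_top _) hP' h1
    refine ⟨P, q, hNP, ?_, Submodule.finrank_le _, hP', fun _ => h1, hlim, ?_, ?_⟩
    · refine le_trans ?_ hMp
      exact_mod_cast Nat.mul_le_mul_left M hqp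
    · -- equality of the indices
      intro hPq
      have h4 : M * p ≤ q := by
        have h5 : ((M * p : ℕ) : ℕ∞) ≤ (q : ℕ∞) := hMp.trans hPq.le
        exact_mod_cast h5
      have h5 : 1 ≤ q := by
        have h6 : (1 : ℕ∞) ≤ (q : ℕ∞) := (hN1.trans hNP).trans hPq.le
        exact_mod_cast h6
      have h6 : p = q := by
        have : 1 * p ≤ M * p := Nat.mul_le_mul_right _ hM1
        omega
      have hM : M = 1 := by
        by_contra hne
        have h7 : 2 ≤ M := by omega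
        have h8 : 2 * p ≤ M * p := Nat.mul_le_mul_right _ h7
        omega
      have hC := hone (by rw [hM]; rfl)
      have hRz : R = 0 := by
        have h7 := hsum
        rw [hPq, hM, Nat.cast_one, mul_one, ENat.toENNReal_coe, h6] at h7
        have h8 : (q : ℝ≥0∞) + 0 = (q : ℝ≥0∞) + R := by rw [add_zero]; exact h7
        have h9 : (0 : ℝ≥0∞) = R := (ENNReal.add_right_inj (ENNReal.natCast_ne_top q)).1 h8
        have h10 : ((0 : ℕ∞) : ℝ≥0∞) = (R : ℝ≥0∞) := by rw [ENat.toENNReal_zero]; exact h9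
        exact (ENat.toENNReal_inj.1 h10).symm
      intro n
      have h7 : T.Num (Z.prod (pw X n)) = ⊥ := by
        rw [← Submodule.finrank_eq_zero (R := W.K), ← finrank_nop, hR0 hRz n, finrank_bot]
      have h8 := eq_of_r_eq_zero hST he (fun m => op_le hC n m) (nondeg_of_num h7)
        (r_compl_eq_zero T heT (fun h' hh' => (hmaxf h' hh').trans h6.le) n)
      refine ⟨h8, ?_⟩
      rw [eq_bot_iff]
      rintro x ⟨hx, hx'⟩
      rw [← h7]
      rw [h8] at hx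
      exact ⟨hx, fun d hd => hx' d (by rw [h8]; exact hd)⟩
    · intro h0
      have h4 := hall hlim h0
      have h5 : (q : ℝ≥0∞) ≠ 0 := by
        intro h6
        rw [h6, ENNReal.div_zero hP0] at h4
        exact ENNReal.top_ne_one h4
      have h6 : (P : ℝ≥0∞) = q := by
        have h7 := (ENNReal.div_eq_one_iff h5 (ENNReal.natCast_ne_top q)).1 h4
        exact h7
      have h8 : (P : ℝ≥0∞) = ((q : ℕ∞) : ℝ≥0∞) := by rw [ENat.toENNReal_coe]; exact h6
      exact ENat.toENNReal_inj.1 h8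

/-- **The index law**, for all varieties `Z`. -/
theorem full_law (hST : ∀ X, S.C X ≤ T.C X) (X : 𝒱.Obj) [Nontrivial (W.H X)] :
    ∃ N : ℕ∞, 1 ≤ N ∧
      Tendsto (fun n => (finrank W.K (T.C (pw X n)) : ℝ≥0∞) / S.a (pw X n)) atTop
        (𝓝 (N : ℝ≥0∞)) ∧
      (N = 1 ↔ ∀ n, S.C (pw X n) = T.C (pw X n) ∧ S.Num (pw X n) = ⊥) ∧
      ∀ Z : 𝒱.Obj, Nontrivial (W.H Z) → ∃ (P : ℕ∞) (q : ℕ), N ≤ P ∧ N * q ≤ P ∧
        q ≤ finrank W.K (W.H Z) ∧
        Tendsto (fun n => (finrank W.K (T.C (Z.prod (pw X n))) : ℝ≥0∞) / S.a (pw X n)) atTop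
          (𝓝 (P : ℝ≥0∞)) ∧
        (N ≠ ⊤ → Tendsto (fun n => (S.a (Z.prod (pw X n)) : ℝ≥0∞) / S.a (pw X n)) atTop
          (𝓝 (q : ℝ≥0∞))) ∧
        Tendsto (fun n => (finrank W.K (T.C (Z.prod (pw X n))) : ℝ≥0∞) /
          S.a (Z.prod (pw X n))) atTop (𝓝 ((P : ℝ≥0∞) / q)) ∧
        (P = q ↔ ∀ n, S.C (Z.prod (pw X n)) = T.C (Z.prod (pw X n)) ∧
          S.Num (Z.prod (pw X n)) = ⊥) := by
  obtain ⟨N, h1, h2, h3, h4⟩ := base_law hST X
  exact ⟨N, h1, h2, h4, fun Z _ => prod_law hST X Z h1 h2 h3 fun hN n => (h4.1 hN n).1⟩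

end Pool.Agent.V1142.XZ
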