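import Pool.Agent.V1142.XZ.Times
import Pool.Agent.Y133.Half.Per

/-!
# The index law for the de Rham-Betti classes on the products `Z × X^n`
-/

open CategoryTheory AlgebraicGeometry Filter Topology

open scoped ENNReal

universe u v

namespace Pool.Agent.V1142.XZ

open Module
open Pool.Agent.H914 Pool.Agent.H914.VarClass Pool.Agent.H914.VarClass.Obj
  Pool.Agent.H914.WeilCohomology Pool.Agent.Y133.Half Pool.Agent.Y133.Per

variable {k : Type u} [Field k] {𝒱 : VarClass k} {ops : CycleOps 𝒱}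
  {W : WeilCohomology.{u, v} ops} [Algebra W.K ℂ] {F : Subfield ℂ}

lemma gpc_iff (D : DeRham W F) (Z : 𝒱.Obj) :
    (∀ j c, (drbPred D).P Z j c → c ∈ spanCycles W Z j) ↔ ∀ j, GPC D Z j := Iff.rfl

/-- **The index law for the de Rham-Betti classes on the products `Z × X^n`.** -/
theorem drb_times (D : DeRham W F) (X : 𝒱.Obj) [Nontrivial (W.H X)] :
    ∃ N : ℕ∞, 1 ≤ N ∧
      HasIndex (fun n => drbDim D (pw X n)) (fun n => cycRank ops (pw X n)) N ∧
      (N = 1 ↔ ∀ n, (∀ j, GPC D (pw X n) j) ∧ HomEqNum W (pw X n)) ∧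
      ∀ Z : 𝒱.Obj, Nontrivial (W.H Z) → ∃ (P : ℕ∞) (q : ℕ), N ≤ P ∧ N * q ≤ P ∧
        q ≤ finrank W.K (W.H Z) ∧
        HasIndex (fun n => drbDim D (Z.prod (pw X n))) (fun n => cycRank ops (pw X n)) P ∧
        (N ≠ ⊤ → HasIndex (fun n => cycRank ops (Z.prod (pw X n)))
          (fun n => cycRank ops (pw X n)) q) ∧
        Tendsto (fun n => (drbDim D (Z.prod (pw X n)) : ℝ≥0∞) /
          cycRank ops (Z.prod (pw X n))) atTop (𝓝 ((P : ℝ≥0∞) / q)) ∧
        (P = q ↔ ∀ n, (∀ j, GPC D (Z.prod (pw X n)) j) ∧ HomEqNum W (Z.prod (pw X n))) ∧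
        (P ≠ q → AtMost (finrank W.K (W.H Z) / (finrank W.K (W.H Z) + 1))
          (fun n => cycRank ops (Z.prod (pw X n))) (fun n => drbDim D (Z.prod (pw X n)))) :=
  times (drbPred D) X

end Pool.Agent.V1142.XZ
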