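import Pool.Agent.Y133.Half.Main2
import Pool.Agent.Y129.Asym

/-!
# Idempotents which factor through the powers of a variety
-/

open CategoryTheory AlgebraicGeometry

universe u v

set_option linter.unusedSectionVars false

namespace Pool.Agent.V1142.XZ

open Module Polynomial
open Pool.Agent.H914 Pool.Agent.H914.VarClass Pool.Agent.H914.VarClass.Obj
  Pool.Agent.H914.WeilCohomology Pool.Agent.Y133.Half Pool.Agent.Y133.Half.Sys

variable {k : Type u} [Field k] {𝒱 : VarClass k} {ops : CycleOps 𝒱}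
  {W : WeilCohomology.{u, v} ops} {X Z Z' P Q M N : 𝒱.Obj} (S : Sys W)

/-- Composition on the left. -/
noncomputable def postS (Z : 𝒱.Obj) {w : W.H Q →ₗ[W.K] W.H P} (hw : w ∈ S.Op Q P) :
    S.Op Z Q →ₗ[W.K] S.Op Z P where
  toFun x := ⟨w ∘ₗ (x : W.H Z →ₗ[W.K] W.H Q), Op.comp hw x.2⟩
  map_add' _ _ := Subtype.ext (LinearMap.comp_add _ _ _)
  map_smul' _ _ := Subtype.ext (LinearMap.comp_smul _ _ _)

/-- Composition on the right. -/
noncomputable def preS (Z : 𝒱.Obj) {w : W.H P →ₗ[W.K] W.H Q} (hw : w ∈ S.Op P Q) :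
    S.Op Q Z →ₗ[W.K] S.Op P Z where
  toFun x := ⟨(x : W.H Q →ₗ[W.K] W.H Z) ∘ₗ w, Op.comp x.2 hw⟩
  map_add' _ _ := Subtype.ext (LinearMap.add_comp _ _ _)
  map_smul' _ _ := Subtype.ext (LinearMap.smul_comp _ _ _)

section LinAlg

variable {K V V' V'' : Type*} [Field K] [AddCommGroup V] [Module K V] [AddCommGroup V']
  [Module K V'] [AddCommGroup V''] [Module K V''] [FiniteDimensional K V]
  [FiniteDimensional K V']

lemma tr_factor (p : V →ₗ[K] V) (p' : V' →ₗ[K] V') (u : V →ₗ[K] V') (w : V' →ₗ[K] V)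
    (x : V'' →ₗ[K] V') (y : V' →ₗ[K] V'') (hp : p' ∘ₗ u = u ∘ₗ p) (h : u ∘ₗ w ∘ₗ u = u) :
    LinearMap.trace K V' (p' ∘ₗ (u ∘ₗ w) ∘ₗ x ∘ₗ y) =
      LinearMap.trace K V (p ∘ₗ (w ∘ₗ u) ∘ₗ (w ∘ₗ x) ∘ₗ (y ∘ₗ u)) := by
  have h1 : p' ∘ₗ (u ∘ₗ w) ∘ₗ x ∘ₗ y = u ∘ₗ (p ∘ₗ (w ∘ₗ u) ∘ₗ (w ∘ₗ x) ∘ₗ y) := by
    have h2 : u ∘ₗ (p ∘ₗ (w ∘ₗ u) ∘ₗ (w ∘ₗ x) ∘ₗ y) =
        (u ∘ₗ p) ∘ₗ (w ∘ₗ u) ∘ₗ (w ∘ₗ x) ∘ₗ y := rfl
    have h3 : (p' ∘ₗ u) ∘ₗ (w ∘ₗ u) ∘ₗ (w ∘ₗ x) ∘ₗ y =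
        p' ∘ₗ ((u ∘ₗ w ∘ₗ u) ∘ₗ w) ∘ₗ x ∘ₗ y := rfl
    rw [h2, ← hp, h3, h]
  rw [h1, LinearMap.trace_comp_comm']
  rfl

lemma tr_sandwich (p e : V →ₗ[K] V) (x : V'' →ₗ[K] V) (y : V →ₗ[K] V'') (hp : p ∘ₗ e = e ∘ₗ p)
    (h : e ∘ₗ e = e) : LinearMap.trace K V (p ∘ₗ (e ∘ₗ x) ∘ₗ (y ∘ₗ e)) =
      LinearMap.trace K V (p ∘ₗ e ∘ₗ x ∘ₗ y) := by
  have h1 : p ∘ₗ (e ∘ₗ x) ∘ₗ (y ∘ₗ e) = (p ∘ₗ e ∘ₗ x ∘ₗ y) ∘ₗ e := rfl
  have h2 : e ∘ₗ (p ∘ₗ e ∘ₗ x ∘ₗ y) = (e ∘ₗ p) ∘ₗ e ∘ₗ x ∘ₗ y := rfl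
  have h3 : (p ∘ₗ e) ∘ₗ e ∘ₗ x ∘ₗ y = p ∘ₗ (e ∘ₗ e) ∘ₗ x ∘ₗ y := rfl
  rw [h1, LinearMap.trace_comp_comm', h2, ← hp, h3, h]

end LinAlg

lemma BO_factor {u : W.H P →ₗ[W.K] W.H Q} {w : W.H Q →ₗ[W.K] W.H P} (hu : u ∈ S.Op P Q)
    (hw : w ∈ S.Op Q P) (h : u ∘ₗ w ∘ₗ u = u) (Z : 𝒱.Obj) :
    S.BO Q Z (u ∘ₗ w) LinearMap.id =
      (S.BO P Z (w ∘ₗ u) LinearMap.id).compl₁₂ (postS S Z hw) (preS S Z hu) := by
    apply LinearMap.ext
    intro x
    apply LinearMap.ext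
    intro y
    exact tr_factor (par (W.isInternal P)) (par (W.isInternal Q)) u w x.1 y.1
      (Op.ev hu).par_comm h

lemma BO_factor_le {u : W.H P →ₗ[W.K] W.H Q} {w : W.H Q →ₗ[W.K] W.H P} (hu : u ∈ S.Op P Q)
    (hw : w ∈ S.Op Q P) (h : u ∘ₗ w ∘ₗ u = u) (Z : 𝒱.Obj) :
    rk (A := S.Op Z Q) (B := S.Op Q Z) (S.BO Q Z (u ∘ₗ w) LinearMap.id) ≤
    rk (A := S.Op Z P) (B := S.Op P Z) (S.BO P Z (w ∘ₗ u) LinearMap.id) := by
  have h1 := rk_comp_le (A := S.Op Z P) (B := S.Op P Z) (A' := S.Op Z Q) (B' := S.Op Q Z)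
    (S.BO P Z (w ∘ₗ u) LinearMap.id) (postS S Z hw) (preS S Z hu)
  rw [← BO_factor S hu hw h Z] at h1
  exact h1

/-- Idempotents which factor through each other: the ranks of the forms. -/
theorem r_factor {u : W.H P →ₗ[W.K] W.H Q} {w : W.H Q →ₗ[W.K] W.H P} (hu : u ∈ S.Op P Q)
    (hw : w ∈ S.Op Q P) (h : u ∘ₗ w ∘ₗ u = u) (Z : 𝒱.Obj) :
    S.r Q (u ∘ₗ w) Z ≤ S.r P (w ∘ₗ u) Z := by
  have h1 := BO_factor_le S hu hw h Z
  rwa [S.rk_BO_r (Op.ev (Op.comp hu hw)), S.rk_BO_r (Op.ev (Op.comp hw hu))] at h1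

/-- Idempotents which factor through each other have the same invariants. -/
theorem r_factor_eq {u : W.H P →ₗ[W.K] W.H Q} {w : W.H Q →ₗ[W.K] W.H P} (hu : u ∈ S.Op P Q)
    (hw : w ∈ S.Op Q P) (h : u ∘ₗ w ∘ₗ u = u) (h' : w ∘ₗ u ∘ₗ w = w) (Z : 𝒱.Obj) :
    S.r Q (u ∘ₗ w) Z = S.r P (w ∘ₗ u) Z :=
  le_antisymm (r_factor S hu hw h Z) (r_factor S hw hu h' Z)

lemma finrank_factor {K V V' : Type*} [Field K] [AddCommGroup V] [Module K V]
    [AddCommGroup V'] [Module K V'] [FiniteDimensional K V] [FiniteDimensional K V']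
    [CharZero K] {u : V →ₗ[K] V'} {w : V' →ₗ[K] V} (h : u ∘ₗ w ∘ₗ u = u) :
    finrank K (LinearMap.range (u ∘ₗ w)) = finrank K (LinearMap.range (w ∘ₗ u)) := by
  have h1 : (u ∘ₗ w) ∘ₗ (u ∘ₗ w) = u ∘ₗ w := by
    have : (u ∘ₗ w) ∘ₗ (u ∘ₗ w) = (u ∘ₗ w ∘ₗ u) ∘ₗ w := rfl
    rw [this, h]
  have h2 : (w ∘ₗ u) ∘ₗ (w ∘ₗ u) = w ∘ₗ u := by
    have : (w ∘ₗ u) ∘ₗ (w ∘ₗ u) = w ∘ₗ (u ∘ₗ w ∘ₗ u) := rfl
    rw [this, h]
  have e1 := Pool.Agent.Y133.Half.trace_idem h1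
  have e2 := Pool.Agent.Y133.Half.trace_idem h2
  rw [LinearMap.trace_comp_comm', e2] at e1
  exact_mod_cast e1.symm

/-- Forms of orthogonal idempotents. -/
theorem rk_F_add {G G' : Module.End W.K (W.H Z)} (hG : G ∈ S.Op Z Z) (hG' : G' ∈ S.Op Z Z)
    (h1 : G * G = G) (h2 : G' * G' = G') (h3 : G * G' = 0) (h4 : G' * G = 0) :
    rk (S.F Z G) + rk (S.F Z G') ≤ rk (S.F Z (G + G')) := by
  obtain ⟨A, hA, hadj⟩ := Op.exists_adj hG
  have hC : ∀ {u : Module.End W.K (W.H Z)}, u ∈ S.Op Z Z → ∀ c ∈ S.C Z, u c ∈ S.C Z :=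
    fun hu c hc => Op.apply (T := S) (fun _ => le_rfl) hu hc
  have hle1 : LinearMap.range (S.F Z G) ≤ LinearMap.range (S.F Z (G + G')) := by
    rintro _ ⟨c, rfl⟩
    refine ⟨⟨G c, hC hG c c.2⟩, ?_⟩
    apply LinearMap.ext
    intro d
    rw [F_apply, F_apply]
    have e : (G + G') (G (c : W.H Z)) = G (c : W.H Z) := by
      have : (G + G') * G = G := by rw [add_mul, h1, h4, add_zero]
      exact congrArg (fun f : Module.End W.K (W.H Z) => f (c : W.H Z)) this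
    exact congrArg (fun y => W.tr Z (y * (d : W.H Z))) e
  have hle2 : LinearMap.range (S.F Z G') ≤ LinearMap.range (S.F Z (G + G')) := by
    rintro _ ⟨c, rfl⟩
    refine ⟨⟨G' c, hC hG' c c.2⟩, ?_⟩
    apply LinearMap.ext
    intro d
    rw [F_apply, F_apply]
    have e : (G + G') (G' (c : W.H Z)) = G' (c : W.H Z) := by
      have : (G + G') * G' = G' := by rw [add_mul, h2, h3, zero_add]
      exact congrArg (fun f : Module.End W.K (W.H Z) => f (c : W.H Z)) this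
    exact congrArg (fun y => W.tr Z (y * (d : W.H Z))) e
  have hdisj : LinearMap.range (S.F Z G) ⊓ LinearMap.range (S.F Z G') = ⊥ := by
    rw [eq_bot_iff]
    rintro f ⟨⟨c, rfl⟩, ⟨d, hd⟩⟩
    rw [Submodule.mem_bot]
    apply LinearMap.ext
    intro x
    have e1 : W.tr Z (G (c : W.H Z) * (x : W.H Z)) =
        W.tr Z (G (c : W.H Z) * A (x : W.H Z)) := by
      rw [← hadj]
      have : G (G (c : W.H Z)) = G (c : W.H Z) :=
        congrArg (fun f : Module.End W.K (W.H Z) => f (c : W.H Z)) h1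
      rw [this]
    have e2 : W.tr Z (G' (d : W.H Z) * A (x : W.H Z)) = 0 := by
      rw [← hadj]
      have : G (G' (d : W.H Z)) = 0 :=
        congrArg (fun f : Module.End W.K (W.H Z) => f (d : W.H Z)) h3
      rw [this, zero_mul, map_zero]
    have e3 := congrArg (fun f : S.C Z →ₗ[W.K] W.K => f ⟨A x, hC hA x x.2⟩) hd
    simp only [F_apply] at e3
    rw [F_apply, LinearMap.zero_apply, e1, ← e3, e2]
  have h5 := Submodule.finrank_sup_add_finrank_inf_eq (LinearMap.range (S.F Z G))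
    (LinearMap.range (S.F Z G'))
  rw [hdisj, finrank_bot, add_zero] at h5
  rw [rk, rk, ← h5]
  exact Submodule.finrank_mono (sup_le hle1 hle2)

/-- Superadditivity of the ranks for orthogonal idempotents. -/
theorem r_add_ge {g g' : Module.End W.K (W.H P)} (hg : g ∈ S.Op P P) (hg' : g' ∈ S.Op P P)
    (h1 : g * g = g) (h2 : g' * g' = g') (h3 : g * g' = 0) (h4 : g' * g = 0) (Z : 𝒱.Obj) :
    S.r P g Z + S.r P g' Z ≤ S.r P (g + g') Z := by
  have e : ∀ {a b : Module.End W.K (W.H P)}, extOp W a (1 : Module.End W.K (W.H Z)) *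
      extOp W b (1 : Module.End W.K (W.H Z)) = extOp W (a * b) 1 := by
    intro a b
    rw [extOp_mul, mul_one]
  have h0 : extOp W (0 : Module.End W.K (W.H P)) (1 : Module.End W.K (W.H Z)) = 0 := by
    have := extOp_add_left (W := W) (0 : Module.End W.K (W.H P)) 0
      (1 : Module.End W.K (W.H Z))
    rw [add_zero] at this
    exact left_eq_add.1 this
  have key := rk_F_add S (Z := P.prod Z) (Op.ext hg Op.id) (Op.ext hg' Op.id)
    (G := extOp W g 1) (G' := extOp W g' 1) (by rw [e, h1]) (by rw [e, h2])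
    (by rw [e, h3, h0]) (by rw [e, h4, h0])
  rw [← extOp_add_left] at key
  exact key

/-- Additivity for complementary idempotents. -/
theorem r_compl {g : Module.End W.K (W.H P)} (hg : g ∈ S.Op P P) (h1 : g * g = g) (Z : 𝒱.Obj) :
    S.r P g Z + S.r P (1 - g) Z = S.a (P.prod Z) := by
  apply le_antisymm
  · have h := r_add_ge S hg (Submodule.sub_mem _ Op.id hg : 1 - g ∈ S.Op P P) h1
      (by rw [mul_sub, sub_mul, sub_mul, h1]; simp) (by rw [mul_sub, h1]; simp)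
      (by rw [sub_mul, h1]; simp) Z
    rwa [add_sub_cancel, r_one] at h
  · have h := S.r_add_le (Z := Z) g (1 - g)
    rwa [add_sub_cancel, r_one] at h

/-- The idempotents which are sums of orthogonal idempotents factoring through the powers
of `X`. -/
inductive Fac (S : Sys W) (X Z : 𝒱.Obj) : Module.End W.K (W.H Z) → Prop
  | zero : Fac S X Z 0
  | add {h : Module.End W.K (W.H Z)} (hh : Fac S X Z h) {m : ℕ}
      {u : W.H (pw X m) →ₗ[W.K] W.H Z} {w : W.H Z →ₗ[W.K] W.H (pw X m)}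
      (hu : u ∈ S.Op (pw X m) Z) (hw : w ∈ S.Op Z (pw X m)) (h1 : u ∘ₗ w ∘ₗ u = u)
      (h2 : w ∘ₗ u ∘ₗ w = w) (h3 : h ∘ₗ u = 0) (h4 : w ∘ₗ h = 0) : Fac S X Z (h + u ∘ₗ w)

variable {S}

lemma Fac.mem {h : Module.End W.K (W.H Z)} (hh : Fac S X Z h) : h ∈ S.Op Z Z := by
  induction hh with
  | zero => exact Submodule.zero_mem _
  | add _ hu hw _ _ _ _ ih => exact Submodule.add_mem _ ih (Op.comp hu hw)

lemma Fac.idem {h : Module.End W.K (W.H Z)} (hh : Fac S X Z h) : h * h = h := by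
  induction hh with
  | zero => exact mul_zero _
  | @add h hh m u w hu hw h1 h2 h3 h4 ih =>
    have e1 : h * (u ∘ₗ w) = 0 := by
      have : h * (u ∘ₗ w) = (h ∘ₗ u) ∘ₗ w := rfl
      rw [this, h3, LinearMap.zero_comp]
    have e2 : (u ∘ₗ w : Module.End W.K (W.H Z)) * h = 0 := by
      have : (u ∘ₗ w : Module.End W.K (W.H Z)) * h = u ∘ₗ (w ∘ₗ h) := rfl
      rw [this, h4, LinearMap.comp_zero]
    have e3 : (u ∘ₗ w : Module.End W.K (W.H Z)) * (u ∘ₗ w) = u ∘ₗ w := by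
      have : (u ∘ₗ w : Module.End W.K (W.H Z)) * (u ∘ₗ w) = (u ∘ₗ w ∘ₗ u) ∘ₗ w := rfl
      rw [this, h1]
    rw [add_mul, mul_add, mul_add, ih, e1, e2, e3, zero_add, add_zero]

lemma Op.mono {T : Sys W} (hST : ∀ X, S.C X ≤ T.C X) {u : W.H P →ₗ[W.K] W.H Q}
    (hu : u ∈ S.Op P Q) : u ∈ T.Op P Q := by
  obtain ⟨c, hc, rfl⟩ := mem_Op.1 hu
  exact Op.corr (hST _ hc)

lemma Fac.mono {T : Sys W} (hST : ∀ X, S.C X ≤ T.C X) {h : Module.End W.K (W.H Z)}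
    (hh : Fac S X Z h) : Fac T X Z h := by
  induction hh with
  | zero => exact Fac.zero
  | add _ hu hw h1 h2 h3 h4 ih => exact Fac.add ih (Op.mono hST hu) (Op.mono hST hw) h1 h2 h3 h4

/-- Composition with such an idempotent. -/
lemma Fac.comp_mem {T : Sys W} (hST : ∀ X, S.C X ≤ T.C X) {h : Module.End W.K (W.H Z)}
    (hh : Fac S X Z h) (hP : ∀ m, T.Op P (pw X m) ≤ S.Op P (pw X m))
    {t : W.H P →ₗ[W.K] W.H Z} (ht : t ∈ T.Op P Z) : h ∘ₗ t ∈ S.Op P Z := by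
  induction hh with
  | zero => rw [LinearMap.zero_comp]; exact Submodule.zero_mem _
  | @add h _ m u w hu hw _ _ _ _ ih =>
    have e : (h + u ∘ₗ w) ∘ₗ t = h ∘ₗ t + u ∘ₗ (w ∘ₗ t) := rfl
    rw [e]
    exact Submodule.add_mem _ ih (Op.comp hu (hP m (Op.comp (Op.mono hST hw) ht)))

/-- Composition of a numerically trivial operator with such an idempotent. -/
lemma Fac.comp_eq_zero {h : Module.End W.K (W.H Z)} (hh : Fac S X Z h)
    (hP : ∀ m, S.NOp P (pw X m) = ⊥) {t : W.H P →ₗ[W.K] W.H Z} (ht : t ∈ S.NOp P Z) :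
    h ∘ₗ t = 0 := by
  induction hh with
  | zero => rw [LinearMap.zero_comp]
  | @add h _ m u w hu hw _ _ _ _ ih =>
    have e : (h + u ∘ₗ w) ∘ₗ t = h ∘ₗ t + u ∘ₗ (w ∘ₗ t) := rfl
    have e2 := NOp.comp_left hw ht
    rw [hP m, Submodule.mem_bot] at e2
    rw [e, ih, e2, LinearMap.comp_zero, add_zero]

lemma finrank_add_idem {g g' : Module.End W.K (W.H P)}
    (h1 : g * g = g) (h2 : g' * g' = g') (h3 : g * g' = 0) (h4 : g' * g = 0) :
    finrank W.K (LinearMap.range (g + g')) =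
      finrank W.K (LinearMap.range g) + finrank W.K (LinearMap.range g') := by
  have h5 : (g + g') ∘ₗ (g + g') = g + g' := by
    change (g + g') * (g + g') = g + g'
    rw [add_mul, mul_add, mul_add, h1, h2, h3, h4, add_zero, zero_add]
  have e1 := Pool.Agent.Y133.Half.trace_idem h5
  have e2 := Pool.Agent.Y133.Half.trace_idem (K := W.K) (f := g) h1
  have e3 := Pool.Agent.Y133.Half.trace_idem (K := W.K) (f := g') h2
  rw [map_add, e2, e3] at e1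
  exact_mod_cast e1.symm

variable (S)

/-- There is an idempotent of maximal rank. -/
lemma exists_max (X Z : 𝒱.Obj) : ∃ h, Fac S X Z h ∧ ∀ h', Fac S X Z h' →
    finrank W.K (LinearMap.range h') ≤ finrank W.K (LinearMap.range h) := by
  classical
  let p : ℕ → Prop := fun n => ∃ h, Fac S X Z h ∧ finrank W.K (LinearMap.range h) = n
  have hb : ∀ n, p n → n ≤ finrank W.K (W.H Z) := by
    rintro n ⟨h, _, rfl⟩
    exact Submodule.finrank_le _
  have h0 : p 0 := ⟨0, Fac.zero, by rw [LinearMap.range_zero, finrank_bot]⟩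
  have h1 : p (Nat.findGreatest p (finrank W.K (W.H Z))) :=
    Nat.findGreatest_spec (Nat.zero_le _) h0
  obtain ⟨h, hh, hr⟩ := h1
  refine ⟨h, hh, fun h' hh' => ?_⟩
  rw [hr]
  exact Nat.le_findGreatest (hb _ ⟨h', hh', rfl⟩) ⟨h', hh', rfl⟩

lemma trace_par_nil {x : Module.End W.K (W.H P)} (hx : Ev W x) (hn : IsNilpotent x) :
    LinearMap.trace W.K (W.H P) (par (W.isInternal P) ∘ₗ x) = 0 := by
  have h2 : IsNilpotent ((par (W.isInternal P) : Module.End W.K (W.H P)) * x) := by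
    obtain ⟨n, hn⟩ := hn
    refine ⟨n, ?_⟩
    have hc : Commute (par (W.isInternal P) : Module.End W.K (W.H P)) x := hx.par_comm
    rw [hc.mul_pow, hn, mul_zero]
  exact (LinearMap.isNilpotent_trace_of_isNilpotent h2).eq_zero

lemma aeval_mem {y : Module.End W.K (W.H P)} (hy : y ∈ S.Op P P) (q : W.K[X]) :
    aeval y q ∈ S.Op P P := by
  induction q using Polynomial.induction_on' with
  | add p q hp hq => rw [map_add]; exact Submodule.add_mem _ hp hq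
  | monomial n a =>
    rw [aeval_monomial]
    have h1 : y ^ n ∈ S.Op P P := by
      induction n with
      | zero => rw [pow_zero]; exact Op.id
      | succ n ih => rw [pow_succ]; exact Op.comp ih hy
    have h2 : algebraMap W.K (Module.End W.K (W.H P)) a * y ^ n = a • y ^ n := by
      rw [Algebra.smul_def]
    rw [h2]
    exact Submodule.smul_mem _ _ h1

/-- If `h` has maximal rank, the complementary part is orthogonal to the powers of `X`. -/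
theorem r_compl_eq_zero {h : Module.End W.K (W.H Z)} (hh : Fac S X Z h)
    (hmax : ∀ h', Fac S X Z h' →
      finrank W.K (LinearMap.range h') ≤ finrank W.K (LinearMap.range h)) (m : ℕ) :
    S.r Z (1 - h) (pw X m) = 0 := by
  have hhm := hh.mem
  have hhi := hh.idem
  have hcm : (1 - h) ∈ S.Op Z Z := Submodule.sub_mem _ Op.id hhm
  have hci : (1 - h) * (1 - h) = 1 - h := by
    rw [mul_sub, sub_mul, sub_mul, hhi]; simp
  -- the key property
  have key : ∀ u₀ ∈ S.Op (pw X m) Z, ∀ v₀ ∈ S.Op Z (pw X m),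
      IsNilpotent (((1 - h) ∘ₗ u₀) ∘ₗ (v₀ ∘ₗ (1 - h)) : Module.End W.K (W.H Z)) := by
    intro u₀ hu₀ v₀ hv₀
    set A : W.H (pw X m) →ₗ[W.K] W.H Z := (1 - h) ∘ₗ u₀ with hA
    set B : W.H Z →ₗ[W.K] W.H (pw X m) := v₀ ∘ₗ (1 - h) with hB
    have hAm : A ∈ S.Op (pw X m) Z := Op.comp hcm hu₀
    have hBm : B ∈ S.Op Z (pw X m) := Op.comp hv₀ hcm
    set x : Module.End W.K (W.H Z) := A ∘ₗ B with hx
    have hxm : x ∈ S.Op Z Z := Op.comp hAm hBm
    have hhA : h ∘ₗ A = 0 := by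
      have : h ∘ₗ A = (h * (1 - h)) ∘ₗ u₀ := rfl
      rw [this, mul_sub, mul_one, hhi, sub_self, LinearMap.zero_comp]
    have hBh : B ∘ₗ h = 0 := by
      have : B ∘ₗ h = v₀ ∘ₗ ((1 - h) * h) := rfl
      rw [this, sub_mul, one_mul, hhi, sub_self, LinearMap.comp_zero]
    have hhx : h * x = 0 := by
      have : h * x = (h ∘ₗ A) ∘ₗ B := rfl
      rw [this, hhA, LinearMap.zero_comp]
    have hxh : x * h = 0 := by
      have : x * h = A ∘ₗ (B ∘ₗ h) := rfl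
      rw [this, hBh, LinearMap.comp_zero]
    obtain ⟨q, hq1, hq2⟩ := exists_fit x
    apply hq2
    by_contra hne
    set s := aeval x q with hs
    have hsm : s ∈ S.Op Z Z := aeval_mem S hxm q
    have hcomm : s * x = x * s := by
      have : Commute (aeval x q) (aeval x (Polynomial.X : W.K[X])) := by
        rw [Commute, SemiconjBy, ← map_mul, ← map_mul, mul_comm]
      rw [aeval_X] at this
      exact this
    set π := s * x with hπ
    have hπm : π ∈ S.Op Z Z := Op.comp hsm hxm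
    have hhπ : h * π = 0 := by rw [hcomm, ← mul_assoc, hhx, zero_mul]
    have hπh : π * h = 0 := by rw [hπ, mul_assoc, hxh, mul_zero]
    let u : W.H (pw X m) →ₗ[W.K] W.H Z := (π * s) ∘ₗ A
    let w : W.H Z →ₗ[W.K] W.H (pw X m) := B ∘ₗ π
    have huw : u ∘ₗ w = π := by
      have e1 : u ∘ₗ w = π * (s * (x * π)) := rfl
      rw [e1, ← mul_assoc s, ← hπ, hq1, hq1]
    have hu : u ∈ S.Op (pw X m) Z := Op.comp (Op.comp hπm hsm) hAm
    have hw : w ∈ S.Op Z (pw X m) := Op.comp hBm hπm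
    have h1 : u ∘ₗ w ∘ₗ u = u := by
      have e1 : u ∘ₗ w ∘ₗ u = (u ∘ₗ w) ∘ₗ u := rfl
      have e2 : π ∘ₗ u = ((π * π) * s) ∘ₗ A := rfl
      rw [e1, huw, e2, hq1]
    have h2 : w ∘ₗ u ∘ₗ w = w := by
      have e1 : w ∘ₗ (π : Module.End W.K (W.H Z)) = B ∘ₗ (π * π) := rfl
      rw [huw, e1, hq1]
    have h3 : h ∘ₗ u = 0 := by
      have e1 : h ∘ₗ u = ((h * π) * s) ∘ₗ A := rfl
      rw [e1, hhπ, zero_mul, LinearMap.zero_comp]
    have h4 : w ∘ₗ h = 0 := by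
      have e1 : w ∘ₗ h = B ∘ₗ (π * h) := rfl
      rw [e1, hπh, LinearMap.comp_zero]
    have h5 := hmax _ (Fac.add hh hu hw h1 h2 h3 h4)
    rw [huw, finrank_add_idem hhi hq1 hhπ hπh] at h5
    have h6 := finrank_range_pos hne
    omega
  rw [← S.rk_BO_r (Op.ev hcm)]
  have e : S.BO Z (pw X m) (1 - h) LinearMap.id = 0 := by
    apply LinearMap.ext
    intro x
    apply LinearMap.ext
    intro y
    rw [BO_apply, LinearMap.zero_apply, LinearMap.zero_apply]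
    have h1 := key x x.2 y y.2
    have h2 := trace_par_nil (Op.ev (Op.comp (Op.comp hcm x.2) (Op.comp y.2 hcm))) h1
    have h3 := tr_sandwich (par (W.isInternal Z)) (1 - h) x.1 y.1 (Op.ev hcm).par_comm hci
    exact h3.symm.trans h2
  rw [e, rk]
  simp

end Pool.Agent.V1142.XZ
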