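import Pool.Agent.V1142.XZ.Law
import Pool.Agent.Y133.Half.PairLaw

/-!
# The growth of stable families of linear maps
-/

open CategoryTheory AlgebraicGeometry Filter Topology

open scoped ENNReal

universe u v

set_option linter.unusedSectionVars false

namespace Pool.Agent.V1142.XZ

open Module
open Pool.Agent.H914 Pool.Agent.H914.VarClass Pool.Agent.H914.VarClass.Obj
  Pool.Agent.H914.WeilCohomology Pool.Agent.Y133.Half Pool.Agent.Y133.Half.Sys

section Lin

variable {K V H : Type*} [Field K] [AddCommGroup V] [Module K V] [AddCommGroup H] [Module K H]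
  [FiniteDimensional K V] [FiniteDimensional K H]

/-- The members of `F` which vanish on the first vectors. -/
def van (v : ℕ → V) (F : Submodule K (V →ₗ[K] H)) (i : ℕ) : Submodule K (V →ₗ[K] H) where
  carrier := {f | f ∈ F ∧ ∀ j < i, f (v j) = 0}
  add_mem' := fun {a b} ha hb => ⟨F.add_mem ha.1 hb.1, fun j hj => by
    rw [LinearMap.add_apply, ha.2 j hj, hb.2 j hj, add_zero]⟩
  zero_mem' := ⟨F.zero_mem, fun _ _ => rfl⟩
  smul_mem' := fun c a ha => ⟨F.smul_mem c ha.1, fun j hj => by
    rw [LinearMap.smul_apply, ha.2 j hj, smul_zero]⟩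

lemma mem_van {v : ℕ → V} {F : Submodule K (V →ₗ[K] H)} {i : ℕ} {f : V →ₗ[K] H} :
    f ∈ van v F i ↔ f ∈ F ∧ ∀ j < i, f (v j) = 0 := Iff.rfl

/-- The values at the next vector. -/
def val (v : ℕ → V) (F : Submodule K (V →ₗ[K] H)) (i : ℕ) : Submodule K H :=
  (van v F i).map (LinearMap.applyₗ (v i))

lemma mem_val {v : ℕ → V} {F : Submodule K (V →ₗ[K] H)} {i : ℕ} {x : H} :
    x ∈ val v F i ↔ ∃ f ∈ van v F i, f (v i) = x := Submodule.mem_map

lemma finrank_van (v : ℕ → V) (F : Submodule K (V →ₗ[K] H)) (i : ℕ) :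
    finrank K (val v F i) + finrank K (van v F (i + 1)) = finrank K (van v F i) := by
  have h1 := LinearMap.finrank_range_add_finrank_ker
    ((LinearMap.applyₗ (v i) : (V →ₗ[K] H) →ₗ[K] H).domRestrict (van v F i))
  rw [LinearMap.range_domRestrict] at h1
  rw [← h1]
  congr 1
  have h2 : (LinearMap.ker ((LinearMap.applyₗ (v i) :
      (V →ₗ[K] H) →ₗ[K] H).domRestrict (van v F i))).map (van v F i).subtype =
        van v F (i + 1) := by
    ext f
    rw [Submodule.mem_map]
    constructor
    · rintro ⟨g, hg, rfl⟩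
      have hg' : (g : V →ₗ[K] H) (v i) = 0 := hg
      refine ⟨g.2.1, fun j hj => ?_⟩
      rcases Nat.lt_succ_iff_lt_or_eq.1 hj with h | rfl
      · exact g.2.2 j h
      · exact hg'
    · rintro ⟨hf, hf'⟩
      refine ⟨⟨f, hf, fun j hj => hf' j (by omega)⟩, ?_, rfl⟩
      exact hf' i (by omega)
  rw [← h2]
  exact (Submodule.finrank_map_subtype_eq _ _)

lemma finrank_eq_sum (v : ℕ → V) (F : Submodule K (V →ₗ[K] H)) (s : ℕ) :
    finrank K F = ∑ i ∈ Finset.range s, finrank K (val v F i) + finrank K (van v F s) := by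
  induction s with
  | zero =>
    have : van v F 0 = F := by
      ext f
      rw [mem_van]
      exact ⟨fun h => h.1, fun h => ⟨h, fun j hj => absurd hj (Nat.not_lt_zero j)⟩⟩
    rw [this]; simp
  | succ s ih =>
    rw [ih, Finset.sum_range_succ, add_assoc, finrank_van]

lemma exists_seq (K V : Type*) [Field K] [AddCommGroup V] [Module K V]
    [FiniteDimensional K V] : ∃ (v : ℕ → V) (s : ℕ), ∀ (H : Type*) [AddCommGroup H]
      [Module K H] (F : Submodule K (V →ₗ[K] H)), van v F s = ⊥ := by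
  let e := Module.finBasis K V
  refine ⟨fun i => if h : i < finrank K V then e ⟨i, h⟩ else 0, finrank K V, ?_⟩
  intro H _ _ F
  rw [eq_bot_iff]
  rintro f ⟨_, hf⟩
  rw [Submodule.mem_bot]
  apply e.ext
  intro i
  have := hf i i.2
  simp only [i.2, dif_pos] at this
  exact this

end Lin

variable {k : Type u} [Field k] {𝒱 : VarClass k} {ops : CycleOps 𝒱}
  {W : WeilCohomology.{u, v} ops} {X Y Z Z' P Q M N : 𝒱.Obj} {S T : Sys W}

/-- The limit of the quotients for a stable family. -/
theorem stab_lim [Nontrivial (W.H X)] (hS : ∀ n, Nondeg S (pw X n))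
    {G : ∀ n, Submodule W.K (W.H (pw X n))} (hG : S.Stab X G) :
    ∃ N : ℕ∞, S.IsInd X G N ∧ (N = 0 → ∀ n, G n = ⊥) := by
  have hpos : ∀ n, 0 < finrank W.K (S.C (pw X n)) := S.finrank_pos_pw
  have hdiv : ∀ n, ENNReal.ofReal ((finrank W.K (G n) : ℝ) / finrank W.K (S.C (pw X n))) =
      (finrank W.K (G n) : ℝ≥0∞) / finrank W.K (S.C (pw X n)) := by
    intro n
    rw [ENNReal.ofReal_div_of_pos (by exact_mod_cast hpos n), ENNReal.ofReal_natCast,
      ENNReal.ofReal_natCast]
  rcases stab_law hS hG with ⟨N, h1, h2⟩ | h1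
  · refine ⟨N, ?_, fun h0 m => ?_⟩
    · have h3 := ENNReal.tendsto_ofReal h2
      simp only [hdiv, ENNReal.ofReal_natCast] at h3
      simpa [IsInd] using h3
    · by_contra hne
      have hN0 : N = 0 := by exact_mod_cast h0
      have h4 : Tendsto (fun n => (finrank W.K ((⊥ : Submodule W.K (W.H (pw X n)))) : ℝ) /
          finrank W.K (S.C (pw X n))) atTop (𝓝 0) := by
        simp only [finrank_bot, Nat.cast_zero, zero_div]
        exact tendsto_const_nhds
      have h5 : S.Stab X (fun n => (⊥ : Submodule W.K (W.H (pw X n)))) := by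
        intro m n f _ a ha
        rw [(Submodule.mem_bot _).1 ha, map_zero]
        exact Submodule.zero_mem _
      have h6 := stab_gap hS h5 hG (fun n => bot_le) (m := m) (Ne.symm hne) h4 h2
      rw [hN0] at h6
      norm_num at h6
  · refine ⟨⊤, ?_, fun h0 => absurd h0 (by simp)⟩
    have h3 := ENNReal.tendsto_ofReal_atTop.comp h1
    have h4 : (ENNReal.ofReal ∘ fun n => (finrank W.K (G n) : ℝ) /
        finrank W.K (S.C (pw X n))) =
        fun n => (finrank W.K (G n) : ℝ≥0∞) / finrank W.K (S.C (pw X n)) := by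
      funext n
      exact hdiv n
    rw [h4] at h3
    simpa [IsInd] using h3

/-- A family of spaces of linear maps which is stable under composition with the operators. -/
def HStab (S : Sys W) (X : 𝒱.Obj) {V : Type*} [AddCommGroup V] [Module W.K V]
    (F : ∀ n, Submodule W.K (V →ₗ[W.K] W.H (pw X n))) : Prop :=
  ∀ m n, ∀ f ∈ S.Op (pw X m) (pw X n), ∀ a ∈ F m, f ∘ₗ a ∈ F n

/-- **The growth of stable families of linear maps.** -/
theorem hstab_lim [Nontrivial (W.H X)] (hS : ∀ n, Nondeg S (pw X n)) {V : Type v}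
    [AddCommGroup V] [Module W.K V] [FiniteDimensional W.K V]
    {F : ∀ n, Submodule W.K (V →ₗ[W.K] W.H (pw X n))} (hF : HStab S X F) :
    ∃ N : ℕ∞, Tendsto (fun n => (finrank W.K (F n) : ℝ≥0∞) / finrank W.K (S.C (pw X n))) atTop
      (𝓝 (N : ℝ≥0∞)) ∧ (N = 0 → ∀ n, F n = ⊥) := by
  obtain ⟨v, s, hv⟩ := exists_seq W.K V
  have hG : ∀ i, S.Stab X fun n => val v (F n) i := by
    intro i m n f hf a ha
    obtain ⟨u, hu, rfl⟩ := mem_val.1 ha
    refine mem_val.2 ⟨f ∘ₗ u, ⟨hF m n f hf u hu.1, fun j hj => ?_⟩, rfl⟩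
    rw [LinearMap.comp_apply, hu.2 j hj, map_zero]
  choose N hN hN0 using fun i => stab_lim hS (hG i)
  have hsum : ∀ n, finrank W.K (F n) = ∑ i ∈ Finset.range s, finrank W.K (val v (F n) i) := by
    intro n
    rw [finrank_eq_sum v (F n) s, hv, finrank_bot, add_zero]
  refine ⟨∑ i ∈ Finset.range s, N i, ?_, fun h0 n => ?_⟩
  · have key : ∀ t, Tendsto (fun n => ((∑ i ∈ Finset.range t, finrank W.K (val v (F n) i) :
        ℕ) : ℝ≥0∞) / finrank W.K (S.C (pw X n))) atTop
        (𝓝 ((∑ i ∈ Finset.range t, N i : ℕ∞) : ℝ≥0∞)) := by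
      intro t
      induction t with
      | zero => simp
      | succ t ih =>
        have h1 := ih.add (hN t)
        rw [Finset.sum_range_succ, ENat.toENNReal_add]
        refine h1.congr fun n => ?_
        rw [Finset.sum_range_succ, Nat.cast_add, ENNReal.add_div]
    refine (key s).congr fun n => ?_
    rw [← hsum]
  · rw [← Submodule.finrank_eq_zero (R := W.K), hsum]
    apply Finset.sum_eq_zero
    intro i hi
    have h1 : N i = 0 := by
      have := (Finset.sum_eq_zero_iff (s := Finset.range s) (f := N)).1 h0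
      exact this i hi
    rw [hN0 i h1 n, finrank_bot]

end Pool.Agent.V1142.XZ
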