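import Pool.Agent.V1142.XZ.Law

/-!
# The index law for the products of a variety with the powers of another one: final form
-/

open CategoryTheory AlgebraicGeometry Filter Topology

open scoped ENNReal

universe u v

set_option linter.unusedSectionVars false

namespace Pool.Agent.V1142.XZ

open Module
open Pool.Agent.H914 Pool.Agent.H914.VarClass Pool.Agent.H914.VarClass.Obj
  Pool.Agent.H914.WeilCohomology Pool.Agent.Y133.Half Pool.Agent.Y133.Half.Sys

variable {k : Type u} [Field k] {𝒱 : VarClass k} {ops : CycleOps 𝒱}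
  {W : WeilCohomology.{u, v} ops} {X Y Z Z' P Q M N : 𝒱.Obj} {S T : Sys W}

/-- **The index law for the products `Z × X^n`.** -/
theorem Pair.law (h : Pair S T) (X Z : 𝒱.Obj) [hX : Nontrivial (W.H X)]
    [hZ : Nontrivial (W.H Z)] {N : ℕ∞} (hN1 : 1 ≤ N)
    (hN : Tendsto (fun n => (finrank W.K (T.C (pw X n)) : ℝ≥0∞) / S.a (pw X n)) atTop
      (𝓝 (N : ℝ≥0∞))) (hnum : N ≠ ⊤ → ∀ n, S.Num (pw X n) = ⊥)
    (hone : N = 1 → ∀ n, S.C (pw X n) = T.C (pw X n)) :
    ∃ p q : ℕ, 1 ≤ q ∧ q ≤ p ∧ p ≤ finrank W.K (W.H Z) ∧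
      Tendsto (fun n => (finrank W.K (T.C (Z.prod (pw X n))) : ℝ≥0∞) /
        finrank W.K (T.C (pw X n))) atTop (𝓝 (p : ℝ≥0∞)) ∧
      (N ≠ ⊤ → Tendsto (fun n => (S.a (Z.prod (pw X n)) : ℝ≥0∞) / S.a (pw X n)) atTop
        (𝓝 (q : ℝ≥0∞))) ∧
      Tendsto (fun n => (finrank W.K (T.C (Z.prod (pw X n))) : ℝ≥0∞) / S.a (Z.prod (pw X n)))
        atTop (𝓝 ((N : ℝ≥0∞) * ((p : ℝ≥0∞) / q))) ∧
      ((N = 1 ∧ p = q) ↔ ∀ n, S.C (Z.prod (pw X n)) = T.C (Z.prod (pw X n))) ∧
      (N ≠ 1 → ∀ ε : ℝ, 0 < ε → ∃ n₀ : ℕ, ∀ n ≥ n₀,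
        (finrank W.K (S.C (Z.prod (pw X n))) : ℝ) ≤
          (1 / 2 + ε) * finrank W.K (T.C (Z.prod (pw X n)))) ∧
      (p ≠ q → ∀ ε : ℝ, 0 < ε → ∃ n₀ : ℕ, ∀ n ≥ n₀,
        (finrank W.K (S.C (Z.prod (pw X n))) : ℝ) ≤
          (1 - 1 / (2 * p) + ε) * finrank W.K (T.C (Z.prod (pw X n)))) := by
  have hpw := fun n => nontrivial_pw (W := W) X n
  have hzpw := fun n => (have := hpw n; nontrivial_prod (W := W) (pw X n) Z)
  rcases eq_or_ne N ⊤ with rfl | hNt
  · -- the infinite case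
    obtain ⟨f, hf, hmaxf⟩ := exists_max T X Z
    have hT := h.reg X
    obtain ⟨l, hl, hl1⟩ := h.lam X hX
    obtain ⟨l', hl', hl1'⟩ := h.lam Z hZ
    obtain ⟨g, hg, hg1⟩ := exists_fac_one (h.le _ hl) hl1 (h.le _ hl') hl1'
    have hp1 : 1 ≤ finrank W.K (LinearMap.range f) := hg1.trans (hmaxf g hg)
    have hlim := h.top X Z hN
    have hhalf := h.half_of_top hzpw hlim
    refine ⟨finrank W.K (LinearMap.range f), 1, le_rfl, hp1, Submodule.finrank_le _, ?_,
      fun h0 => absurd rfl h0, ?_, ?_, fun _ => hhalf, ?_⟩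
    · refine tendsto_ofReal (fun n => (have := hpw n; h.posT (pw X n))) ?_
      refine (hT.max_tendsto hf hmaxf).congr fun n => ?_
      rw [a_eq (h.nondeg _), a_eq (h.nondeg _)]
    · have e : ((⊤ : ℕ∞) : ℝ≥0∞) * ((finrank W.K (LinearMap.range f) : ℝ≥0∞) / (1 : ℕ)) = ⊤ := by
        rw [ENat.toENNReal_top, Nat.cast_one, div_one]
        exact ENNReal.top_mul (by exact_mod_cast (show finrank W.K (LinearMap.range f) ≠ 0 by
          omega))
      rw [e]
      exact hlim
    · constructor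
      · rintro ⟨h0, _⟩
        exact absurd h0 (by simp)
      · intro h0
        exfalso
        have h1 : ∀ n, (finrank W.K (T.C (Z.prod (pw X n))) : ℝ≥0∞) /
            S.a (Z.prod (pw X n)) = 1 := by
          intro n
          have := hzpw n
          exact h.eq_of_ratio _ (h0 n)
        simp only [h1] at hlim
        exact ENNReal.one_ne_top (tendsto_nhds_unique tendsto_const_nhds hlim)
    · intro _ ε hε
      obtain ⟨n₀, hn₀⟩ := hhalf ε hε
      refine ⟨n₀, fun n hn => (hn₀ n hn).trans ?_⟩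
      apply mul_le_mul_of_nonneg_right _ (Nat.cast_nonneg _)
      have hp0 : (1 : ℝ) ≤ finrank W.K (LinearMap.range f) := by exact_mod_cast hp1
      have h2 : 1 / (2 * (finrank W.K (LinearMap.range f) : ℝ)) ≤ 1 / 2 := by
        apply one_div_le_one_div_of_le two_pos
        linarith
      linarith
  · -- the finite case
    obtain ⟨M, rfl⟩ := ENat.ne_top_iff_exists.1 hNt
    have hM1 : 1 ≤ M := by exact_mod_cast hN1
    have hS := h.reg_of_ne_top X hN hNt
    have hNr : Tendsto (fun n => (finrank W.K (T.C (pw X n)) : ℝ) / S.a (pw X n)) atTop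
        (𝓝 (M : ℝ)) := by
      apply tendsto_toReal
      rw [← ENat.toENNReal_coe]
      exact hN
    obtain ⟨p, q, hq, hqp, hp, h1, h2, h3, h4⟩ := h.finite X Z hM1 hNr hS (hnum hNt)
      (fun hM => hone (by rw [hM]; rfl))
    have hp0 : (0 : ℝ) < p := by exact_mod_cast (hq.trans hqp)
    have hq0 : (0 : ℝ) < q := by exact_mod_cast hq
    have hM0 : (0 : ℝ) < M := by exact_mod_cast hM1
    have ht' : ∀ n, 0 < finrank W.K (T.C (pw X n)) := fun n => by
      have := hpw n
      exact h.posT (pw X n)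
    have ha : ∀ n, 0 < S.a (pw X n) := fun n => by
      have := hpw n
      exact h.pos (pw X n)
    have haz : ∀ n, 0 < S.a (Z.prod (pw X n)) := fun n => by
      have := hzpw n
      exact h.pos (Z.prod (pw X n))
    have ht : ∀ n, 0 < finrank W.K (T.C (Z.prod (pw X n))) := fun n => by
      have := hzpw n
      exact h.posT (Z.prod (pw X n))
    have hr : Tendsto (fun n => (finrank W.K (T.C (Z.prod (pw X n))) : ℝ) /
        S.a (Z.prod (pw X n))) atTop (𝓝 ((M : ℝ) * (p / q))) := by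
      have k1 := (hNr.mul h1).div h2 hq0.ne'
      rw [mul_div_assoc] at k1
      refine k1.congr fun n => ?_
      have e1 : (finrank W.K (T.C (pw X n)) : ℝ) ≠ 0 := by exact_mod_cast (ht' n).ne'
      have e2 : (S.a (pw X n) : ℝ) ≠ 0 := by exact_mod_cast (ha n).ne'
      have e3 : (S.a (Z.prod (pw X n)) : ℝ) ≠ 0 := by exact_mod_cast (haz n).ne'
      simp only [Pi.div_apply]
      field_simp
    have hrE : Tendsto (fun n => (finrank W.K (T.C (Z.prod (pw X n))) : ℝ≥0∞) /
        S.a (Z.prod (pw X n))) atTop (𝓝 (((M : ℕ∞) : ℝ≥0∞) * ((p : ℝ≥0∞) / q))) := by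
      have k1 := ENNReal.tendsto_ofReal hr
      rw [ENNReal.ofReal_mul hM0.le, ENNReal.ofReal_div_of_pos hq0, ENNReal.ofReal_natCast,
        ENNReal.ofReal_natCast, ENNReal.ofReal_natCast] at k1
      rw [ENat.toENNReal_coe]
      refine k1.congr fun n => ?_
      rw [ENNReal.ofReal_div_of_pos (by exact_mod_cast haz n), ENNReal.ofReal_natCast,
        ENNReal.ofReal_natCast]
    have hqp' : (q : ℝ) / p ≤ 1 := by
      rw [div_le_one hp0]
      exact_mod_cast hqp
    have hqp0 : (0 : ℝ) ≤ (q : ℝ) / p := by positivity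
    refine ⟨p, q, hq, hqp, hp, tendsto_ofReal ht' h1, fun _ => tendsto_ofReal ha h2, hrE,
      ⟨?_, ?_⟩, ?_, ?_⟩
    · rintro ⟨hM, hpq⟩
      exact h3 ⟨by exact_mod_cast hM, hpq⟩
    · intro h0
      have h5 : ∀ n, (finrank W.K (T.C (Z.prod (pw X n))) : ℝ≥0∞) /
          S.a (Z.prod (pw X n)) = 1 := by
        intro n
        have := hzpw n
        exact h.eq_of_ratio _ (h0 n)
      have h6 : ∀ n, (finrank W.K (T.C (Z.prod (pw X n))) : ℝ) /
          S.a (Z.prod (pw X n)) = 1 := by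
        intro n
        have := congrArg ENNReal.toReal (h5 n)
        rw [ENNReal.toReal_div, ENNReal.toReal_natCast, ENNReal.toReal_natCast,
          ENNReal.toReal_one] at this
        exact this
      simp only [h6] at hr
      have h7 : (1 : ℝ) = (M : ℝ) * (p / q) := tendsto_nhds_unique tendsto_const_nhds hr
      have h8 : (q : ℝ) = M * p := by
        field_simp at h7
        linarith
      have h9 : q = M * p := by exact_mod_cast h8
      have h10 : 0 < p := hq.trans hqp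
      have h11 : M = 1 := by
        by_contra hne
        have : 2 ≤ M := by omega
        have : 2 * p ≤ M * p := Nat.mul_le_mul_right _ this
        omega
      refine ⟨by rw [h11]; rfl, ?_⟩
      rw [h9, h11, one_mul]
    · intro hM ε hε
      have hM2 : 2 ≤ M := by
        have : M ≠ 1 := fun h0 => hM (by rw [h0]; rfl)
        omega
      obtain ⟨n₀, hn₀⟩ := h4 ε hε
      refine ⟨n₀, fun n hn => (hn₀ n hn).trans ?_⟩
      apply mul_le_mul_of_nonneg_right _ (Nat.cast_nonneg _)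
      have h5 : (1 : ℝ) / M - 1 / 2 ≤ 0 := by
        have h6 : (2 : ℝ) ≤ M := by exact_mod_cast hM2
        have h7 : (1 : ℝ) / M ≤ 1 / 2 := one_div_le_one_div_of_le two_pos h6
        linarith
      have h8 := mul_nonpos_of_nonneg_of_nonpos hqp0 h5
      linarith
    · intro hpq ε hε
      obtain ⟨n₀, hn₀⟩ := h4 ε hε
      refine ⟨n₀, fun n hn => (hn₀ n hn).trans ?_⟩
      apply mul_le_mul_of_nonneg_right _ (Nat.cast_nonneg _)
      have h5 : (q : ℝ) + 1 ≤ p := by exact_mod_cast (show q + 1 ≤ p by omega)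
      have h6 : (q : ℝ) / p ≤ 1 - 1 / p := by
        rw [div_le_iff₀ hp0, sub_mul, div_mul_cancel₀ _ hp0.ne']
        linarith
      have h7 : (1 : ℝ) / M - 1 / 2 ≤ 1 / 2 := by
        have h8 : (1 : ℝ) ≤ M := by exact_mod_cast hM1
        have h9 : (1 : ℝ) / M ≤ 1 := by
          rw [div_le_one hM0]
          exact h8
        linarith
      have h8 : (q : ℝ) / p * (1 / M - 1 / 2) ≤ (q : ℝ) / p * (1 / 2) :=
        mul_le_mul_of_nonneg_left h7 hqp0
      have h9 : (1 : ℝ) / (2 * p) = 1 / 2 * (1 / p) := by field_simp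
      rw [h9]
      linarith

end Pool.Agent.V1142.XZ
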