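import Pool.Agent.H914R2.KDefs
import Pool.Agent.H914R2.HodgeDefs
import Pool.Agent.Y133.Half.HalfDefs

/-!
# Galois actions on a Weil cohomology theory and Tate classes, bundled
-/

open CategoryTheory AlgebraicGeometry

universe u v w

namespace Pool.Agent.V1142.XZ

section Alg

variable {K : Type*} [Field K] {A : Type*} [Ring A] [Algebra K A] {Γ : Type*} [Group Γ]

/-- The maps `act g` are an action of `Γ` by automorphisms of the `K`-algebra `A`. -/
structure IsAlgAction (K : Type*) [Field K] {A : Type*} [Ring A] [Algebra K A] {Γ : Type*}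
    [Group Γ] (act : Γ → A → A) : Prop where
  act_one : ∀ a, act 1 a = a
  act_mul : ∀ g h a, act (g * h) a = act g (act h a)
  add : ∀ g a b, act g (a + b) = act g a + act g b
  smul : ∀ g (r : K) a, act g (r • a) = r • act g a
  mul : ∀ g a b, act g (a * b) = act g a * act g b

/-- The function `chi` is a character of `Γ` with values in `K`. -/
structure IsCharacter (chi : Γ → K) : Prop where
  one : chi 1 = 1
  mul : ∀ g h, chi (g * h) = chi g * chi h

/-- The formal properties of the action `act` of the Galois group on the cohomology algebra of a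
variety of dimension `n` with grading `gr` and orientation `tr`, where `C j` is the set of the
classes of the cycles of codimension `j`: the grading is preserved, and `g` multiplies the
orientation by `chi g ^ n` and the elements of `C j` by `chi g ^ j`. -/
structure IsGaloisLike (chi : Γ → K) (n : ℕ) (gr : ℕ → Submodule K A) (tr : A →ₗ[K] K)
    (C : ℕ → Set A) (act : Γ → A → A) : Prop where
  gr : ∀ g i, ∀ a ∈ gr i, act g a ∈ gr i
  tr : ∀ g a, tr (act g a) = chi g ^ n * tr a
  cl : ∀ g j, ∀ c ∈ C j, act g c = chi g ^ j • c

end Alg

open Pool.Agent.H914 Pool.Agent.H914.VarClass Pool.Agent.H914.VarClass.Obj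
  Pool.Agent.H914.WeilCohomology
open Pool.Agent.Y133.Half (dimOf)

variable {k : Type u} [Field k] {𝒱 : VarClass k} {ops : CycleOps 𝒱}

/-- An action of the group `Γ` on the cohomology algebras of all varieties, compatibly with degrees
and pull-backs, and a character `chi` such that `g` multiplies the orientation of `Y` by
`chi g ^ dim Y` and the classes of cycles of codimension `j` by `chi g ^ j`. In the intended use `Γ`
is the absolute Galois group of `k`, `W` is the `ℓ`-adic cohomology (of the varieties over the
separable closure), the cycles are those defined over `k` and `chi` is the inverse of the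
cyclotomic character. -/
structure GalTheory (W : WeilCohomology.{u, v} ops) (Γ : Type w) [Group Γ] where
  /-- the action -/
  act : ∀ Y : 𝒱.Obj, Γ → W.H Y → W.H Y
  /-- the character -/
  chi : Γ → W.K
  isAction : ∀ Y : 𝒱.Obj, IsAlgAction W.K (act Y)
  isChar : IsCharacter chi
  isGal : ∀ Y : 𝒱.Obj, IsGaloisLike chi Y.dim (W.gr Y) (W.tr Y) (algClasses W Y) (act Y)
  map : ∀ {X Y : 𝒱.Obj} (f : X ⟶ Y) (g : Γ) (a : W.H Y), act X g (W.map f a) =
    W.map f (act Y g a)

variable {W : WeilCohomology.{u, v} ops} {Γ : Type w} [Group Γ]

/-- The Tate classes of codimension `j` on `Y`: the classes in `H^(2j)(Y)` which are multiplied by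
`chi g ^ j` by all `g`, in other words the invariants in `H^(2j)(Y)(j)`. -/
def GalTheory.Tate (G : GalTheory W Γ) (Y : 𝒱.Obj) (j : ℕ) (c : W.H Y) : Prop :=
  c ∈ W.gr Y (2 * j) ∧ ∀ g, G.act Y g c = G.chi g ^ j • c

/-- The number of linearly independent Tate classes of all codimensions on `Y`. -/
noncomputable def GalTheory.tateNum (G : GalTheory W Γ) (Y : 𝒱.Obj) : ℕ :=
  dimOf W {c | ∃ j, G.Tate Y j c}

end Pool.Agent.V1142.XZ
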