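import Pool.Agent.H914R2.KDefs
import Pool.Agent.Y133.Half.HalfDefs
import Pool.Agent.Y133.Half.DDefs

/-!
# Galois actions on a Weil cohomology theory and Tate classes: definitions

In the intended use `k` is a field with absolute Galois group `Γ`, `W` is the `ℓ`-adic cohomology
(of the varieties over the separable closure), the cycles are those defined over `k` and `χ` is the
inverse of the cyclotomic character.
-/

open CategoryTheory AlgebraicGeometry

universe u v w

namespace Pool.Agent.V1142.XZ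

section Alg

variable {K : Type*} [Field K] {A : Type*} [Ring A] [Algebra K A] {B : Type*} [Ring B]
  [Algebra K B] {Γ : Type*} [Group Γ]

/-- The formal properties of the action `ρ` of the Galois group on the cohomology algebra of a
variety of dimension `n` with orientation `tr`, where `C j` is the set of the classes of the
cycles of codimension `j`: an element `g` multiplies the orientation by `χ g ^ n` and the elements
of `C j` by `χ g ^ j`. -/
structure IsGalois (χ : Γ →* Kˣ) (n : ℕ) (tr : A →ₗ[K] K) (C : ℕ → Set A)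
    (ρ : Γ →* (A ≃ₐ[K] A)) : Prop where
  tr_act : ∀ g a, tr (ρ g a) = (χ g : K) ^ n * tr a
  cl_act : ∀ g j, ∀ c ∈ C j, ρ g c = (χ g : K) ^ j • c

/-- The homomorphism `f` is equivariant. -/
def Equivar (f : A →ₐ[K] B) (ρ : Γ →* (A ≃ₐ[K] A)) (υ : Γ →* (B ≃ₐ[K] B)) : Prop :=
  ∀ g a, υ g (f a) = f (ρ g a)

/-- The element `c` of `U` is multiplied by `χ g ^ j` by all `g`. -/
def IsEigen (χ : Γ →* Kˣ) (U : Submodule K A) (ρ : Γ →* (A ≃ₐ[K] A)) (j : ℕ) (c : A) : Prop :=
  c ∈ U ∧ ∀ g, ρ g c = (χ g : K) ^ j • c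

end Alg

open Pool.Agent.H914 Pool.Agent.H914.VarClass Pool.Agent.H914.VarClass.Obj
  Pool.Agent.H914.WeilCohomology
open Pool.Agent.Y133.Half (dimOf)

variable {k : Type u} [Field k] {𝒱 : VarClass k} {ops : CycleOps 𝒱}

/-- The group `Γ` acts on the cohomology algebras of all varieties, compatibly with pull-backs,
like the Galois group. -/
structure GaloisTheory (W : WeilCohomology.{u, v} ops) {Γ : Type w} [Group Γ] (χ : Γ →* W.Kˣ)
    (ρ : ∀ Y : 𝒱.Obj, Γ →* (W.H Y ≃ₐ[W.K] W.H Y)) : Prop where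
  galois : ∀ Y : 𝒱.Obj, IsGalois χ Y.dim (W.tr Y) (algClasses W Y) (ρ Y)
  map : ∀ {X Y : 𝒱.Obj} (f : X ⟶ Y), Equivar (W.map f) (ρ Y) (ρ X)

/-- The Tate classes of codimension `j` on `Y`: the classes in `H^(2j)(Y)` which are multiplied by
`χ g ^ j` by all `g`, in other words the invariants in `H^(2j)(Y)(j)`. -/
def TateClass (W : WeilCohomology.{u, v} ops) {Γ : Type w} [Group Γ] (χ : Γ →* W.Kˣ)
    (ρ : ∀ Y : 𝒱.Obj, Γ →* (W.H Y ≃ₐ[W.K] W.H Y)) (Y : 𝒱.Obj) (j : ℕ) (c : W.H Y) : Prop :=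
  IsEigen χ (W.gr Y (2 * j)) (ρ Y) j c

/-- The Tate conjecture for the cycles of all codimensions on `Y`: all Tate classes are linear
combinations of classes of algebraic cycles. -/
def TateConj (W : WeilCohomology.{u, v} ops) {Γ : Type w} [Group Γ] (χ : Γ →* W.Kˣ)
    (ρ : ∀ Y : 𝒱.Obj, Γ →* (W.H Y ≃ₐ[W.K] W.H Y)) (Y : 𝒱.Obj) : Prop :=
  ∀ j c, TateClass W χ ρ Y j c → c ∈ spanCycles W Y j

/-- The dimension of the space spanned by the Tate classes of all codimensions on `Y`. -/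
noncomputable def tateDim (W : WeilCohomology.{u, v} ops) {Γ : Type w} [Group Γ] (χ : Γ →* W.Kˣ)
    (ρ : ∀ Y : 𝒱.Obj, Γ →* (W.H Y ≃ₐ[W.K] W.H Y)) (Y : 𝒱.Obj) : ℕ :=
  dimOf W {c | ∃ j, TateClass W χ ρ Y j c}

end Pool.Agent.V1142.XZ
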