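import Pool.Agent.V1142.XZ.GalTimes
import Pool.Agent.V1142.XZ.GalBundle

/-!
# From the bundled to the unbundled form of the Galois actions
-/

open CategoryTheory AlgebraicGeometry Filter Topology

universe u v w

set_option linter.unusedSectionVars false

namespace Pool.Agent.V1142.XZ

open Module
open Pool.Agent.H914 Pool.Agent.H914.VarClass Pool.Agent.H914.VarClass.Obj
  Pool.Agent.H914.WeilCohomology Pool.Agent.Y133.Half Pool.Agent.Y133.Half.Sys
  Pool.Agent.H281R3.HT Pool.Agent.H447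

variable {k : Type u} [Field k] {𝒱 : VarClass k} {ops : CycleOps 𝒱}
  {W : WeilCohomology.{u, v} ops} {X Y Z : 𝒱.Obj} {Γ : Type w} [Group Γ]

namespace GalTheory

variable (G : GalTheory W Γ)

/-- The character with values in the units. -/
def chiU : Γ →* W.Kˣ where
  toFun g := ⟨G.chi g, G.chi g⁻¹, by rw [← G.isChar.mul, mul_inv_cancel, G.isChar.one],
    by rw [← G.isChar.mul, inv_mul_cancel, G.isChar.one]⟩
  map_one' := Units.ext G.isChar.one
  map_mul' g h := Units.ext (G.isChar.mul g h)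

lemma chiU_val (g : Γ) : ((G.chiU g : W.Kˣ) : W.K) = G.chi g := rfl

lemma act_cl (Y : 𝒱.Obj) (g : Γ) (j : ℕ) (z : Y.Cycles) (hz : Y.IsCyc j z) :
    G.act Y g (W.cl Y z) = G.chi g ^ j • W.cl Y z := (G.isGal Y).cl g j _ ⟨z, hz, rfl⟩

lemma act_map_one (Y : 𝒱.Obj) (g : Γ) : G.act Y g 1 = 1 := by
  have h := G.act_cl Y g 0 Y.V.fundCycle Y.V.fundCycle_mem
  rwa [W.cl_fund, pow_zero, one_smul] at h

lemma act_inv (Y : 𝒱.Obj) (g : Γ) (a : W.H Y) : G.act Y g⁻¹ (G.act Y g a) = a := by
  rw [← (G.isAction Y).act_mul, inv_mul_cancel, (G.isAction Y).act_one]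

lemma act_inv' (Y : 𝒱.Obj) (g : Γ) (a : W.H Y) : G.act Y g (G.act Y g⁻¹ a) = a := by
  rw [← (G.isAction Y).act_mul, mul_inv_cancel, (G.isAction Y).act_one]

/-- The action of one element. -/
def actE (Y : 𝒱.Obj) (g : Γ) : W.H Y ≃ₐ[W.K] W.H Y where
  toFun := G.act Y g
  invFun := G.act Y g⁻¹
  left_inv := G.act_inv Y g
  right_inv := G.act_inv' Y g
  map_mul' := (G.isAction Y).mul g
  map_add' := (G.isAction Y).add g
  commutes' r := by
    rw [Algebra.algebraMap_eq_smul_one, (G.isAction Y).smul, G.act_map_one]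

/-- The action. -/
def actU (Y : 𝒱.Obj) : Γ →* (W.H Y ≃ₐ[W.K] W.H Y) where
  toFun := G.actE Y
  map_one' := AlgEquiv.ext (G.isAction Y).act_one
  map_mul' g h := AlgEquiv.ext ((G.isAction Y).act_mul g h)

lemma old : GaloisTheory W G.chiU G.actU where
  galois Y := ⟨fun g a => (G.isGal Y).tr g a, by
    rintro g j _ ⟨z, hz, rfl⟩
    exact G.act_cl Y g j z hz⟩
  map f := fun g a => G.map f g a

/-- The Tate classes. -/
noncomputable def pred : ClassPred W := galPred G.old

lemma pred_P : G.pred.P = G.Tate := rfl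

end GalTheory

end Pool.Agent.V1142.XZ
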