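import Pool.Agent.V1142.XZ.Times
import Pool.Agent.V1142.XZ.GalDefs

/-!
# The index law for the Tate classes on the products `Z × X^n`
-/

open CategoryTheory AlgebraicGeometry Filter Topology

open scoped ENNReal

universe u v w

namespace Pool.Agent.V1142.XZ

open Module
open Pool.Agent.H914 Pool.Agent.H914.VarClass Pool.Agent.H914.VarClass.Obj
  Pool.Agent.H914.WeilCohomology Pool.Agent.Y133.Half Pool.Agent.Y133.Half.Sys

variable {k : Type u} [Field k] {𝒱 : VarClass k} {ops : CycleOps 𝒱}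
  {W : WeilCohomology.{u, v} ops} {Γ : Type w} [Group Γ] {χ : Γ →* W.Kˣ}
  {ρ : ∀ Y : 𝒱.Obj, Γ →* (W.H Y ≃ₐ[W.K] W.H Y)} {X Y Z : 𝒱.Obj}

lemma gal_push (h : GaloisTheory W χ ρ) (f : X ⟶ Y) (g : Γ) (c : W.H X) :
    ((χ g : W.K) ^ X.dim) • ρ Y g (W.push f c) =
      ((χ g : W.K) ^ Y.dim) • W.push f (ρ X g c) := by
  apply W.tr_ext
  intro y'
  obtain ⟨y, rfl⟩ := (ρ Y g).surjective y'
  rw [smul_mul_assoc, smul_mul_assoc, map_smul, map_smul, ← map_mul, (h.galois Y).tr_act,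
    W.tr_push, W.tr_push, ← h.map f, ← map_mul, (h.galois X).tr_act, smul_eq_mul, smul_eq_mul]
  ring

/-- The Tate classes. -/
noncomputable def galPred (h : GaloisTheory W χ ρ) : ClassPred W where
  P := TateClass W χ ρ
  gr h := h.1
  zero := ⟨Submodule.zero_mem _, fun g => by rw [map_zero, smul_zero]⟩
  add ha hb := ⟨Submodule.add_mem _ ha.1 hb.1, fun g => by
    rw [map_add, ha.2 g, hb.2 g, smul_add]⟩
  smul r a ha := ⟨Submodule.smul_mem _ _ ha.1, fun g => by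
    rw [map_smul, ha.2 g, smul_comm]⟩
  cl {X j z} hz := ⟨W.cl_mem hz, fun g => (h.galois X).cl_act g j _ ⟨z, hz, rfl⟩⟩
  mul {X i j a b} ha hb := ⟨by
      have := W.mul_mem ha.1 hb.1
      rwa [show 2 * i + 2 * j = 2 * (i + j) by ring] at this, fun g => by
    rw [map_mul, ha.2 g, hb.2 g, smul_mul_smul_comm, ← pow_add]⟩
  map {X Y} f j a ha := ⟨W.map_mem f ha.1, fun g => by
    rw [h.map f, ha.2 g, map_smul]⟩
  push {X Y} f j l hl a ha := ⟨by
      have h2 := W.push_mem f ha.1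
      have e1 : ((2 * j : ℕ) : ℤ) + 2 * ((Y.dim : ℤ) - X.dim) = ((2 * l : ℕ) : ℤ) := by
        push_cast; omega
      rw [e1, grZ_natCast] at h2
      exact h2, fun g => by
    have h4 := gal_push h f g a
    rw [ha.2 g, map_smul, smul_smul, ← pow_add] at h4
    have h5 : ((χ g : W.K) ^ X.dim) ≠ 0 := pow_ne_zero _ (Units.ne_zero _)
    have h6 : ((χ g : W.K) ^ X.dim) • ρ Y g (W.push f a) =
        ((χ g : W.K) ^ X.dim) • (((χ g : W.K) ^ l) • W.push f a) := by
      rw [h4, smul_smul, ← pow_add]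
      congr 2
      omega
    have h7 := congrArg (fun x => ((χ g : W.K) ^ X.dim)⁻¹ • x) h6
    simp only [smul_smul] at h7
    rw [inv_mul_cancel₀ h5, one_smul, ← mul_assoc, inv_mul_cancel₀ h5, one_mul] at h7
    exact h7⟩

/-- **The index law for the Tate classes on the products `Z × X^n`.** -/
theorem gal_times (h : GaloisTheory W χ ρ) (X : 𝒱.Obj) [Nontrivial (W.H X)] :
    ∃ N : ℕ∞, 1 ≤ N ∧
      HasIndex (fun n => tateDim W χ ρ (pw X n)) (fun n => cycRank ops (pw X n)) N ∧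
      (N = 1 ↔ ∀ n, TateConj W χ ρ (pw X n) ∧ HomEqNum W (pw X n)) ∧
      ∀ Z : 𝒱.Obj, Nontrivial (W.H Z) → ∃ (P : ℕ∞) (q : ℕ), N ≤ P ∧ N * q ≤ P ∧
        q ≤ finrank W.K (W.H Z) ∧
        HasIndex (fun n => tateDim W χ ρ (Z.prod (pw X n))) (fun n => cycRank ops (pw X n)) P ∧
        (N ≠ ⊤ → HasIndex (fun n => cycRank ops (Z.prod (pw X n)))
          (fun n => cycRank ops (pw X n)) q) ∧
        Tendsto (fun n => (tateDim W χ ρ (Z.prod (pw X n)) : ℝ≥0∞) /
          cycRank ops (Z.prod (pw X n))) atTop (𝓝 ((P : ℝ≥0∞) / q)) ∧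
        (P = q ↔ ∀ n, TateConj W χ ρ (Z.prod (pw X n)) ∧ HomEqNum W (Z.prod (pw X n))) ∧
        (P ≠ q → AtMost (finrank W.K (W.H Z) / (finrank W.K (W.H Z) + 1))
          (fun n => cycRank ops (Z.prod (pw X n)))
          (fun n => tateDim W χ ρ (Z.prod (pw X n)))) :=
  times (galPred h) X

end Pool.Agent.V1142.XZ
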