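import Pool.Agent.V1142.XZ.Final
import Pool.Agent.V1142.XZ.Defs
import Pool.Agent.Y133.Half.Hdg

/-!
# The index law for the Hodge classes on the products `Z × X^n`
-/

open CategoryTheory AlgebraicGeometry Filter Topology

open scoped ENNReal TensorProduct

universe u v

set_option linter.unusedSectionVars false

namespace Pool.Agent.V1142.XZ

open Module
open Pool.Agent.H914 Pool.Agent.H914.VarClass Pool.Agent.H914.VarClass.Obj
  Pool.Agent.H914.WeilCohomology Pool.Agent.W536.RR Pool.Agent.H281R3.HT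
open Pool.Agent.Y133.Half (cycRank dimOf pwIso129 homEqNum_iff homEqNum_iso algSys hodgeSpan
  eq_alg_iff algDim AtMostHalf Sys prodCongr)
open Pool.Agent.Y133.Hdg (HodgeStr hodgeDim HodgeIn HodgeGenerated hodgeIn_iff)
open Pool.Agent.Y129 (pw)

variable {k : Type u} [Field k] {𝒱 : VarClass k} {ops : CycleOps 𝒱}
  {W : WeilCohomology.{u, v} ops}

/-- The space of the algebraic classes and numerical ranks. -/
lemma a_alg (Z : 𝒱.Obj) : (algSys W).a Z = cycRank ops Z :=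
  Pool.Agent.Y133.Half.numDim_eq_cycRank W Z

/-- `Z × X^n` for the two definitions of powers. -/
noncomputable def zIso (Z X : 𝒱.Obj) (n : ℕ) :
    Z.prod (pw X n) ≅ Z.prod (Pool.Agent.Y133.Half.pw X n) :=
  prodCongr (Iso.refl Z) (pwIso129 X n)

lemma cyc_z (W : WeilCohomology.{u, v} ops) (Z X : 𝒱.Obj) (n : ℕ) :
    cycRank ops (Z.prod (pw X n)) = (algSys W).a (Z.prod (Pool.Agent.Y133.Half.pw X n)) := by
  rw [← a_alg (W := W)]
  exact (algSys W).a_iso (zIso Z X n)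

lemma cyc_pw (W : WeilCohomology.{u, v} ops) (X : 𝒱.Obj) (n : ℕ) :
    cycRank ops (pw X n) = (algSys W).a (Pool.Agent.Y133.Half.pw X n) := by
  rw [← a_alg (W := W)]
  exact (algSys W).a_iso (pwIso129 X n)

lemma alg_z (Z X : 𝒱.Obj) (n : ℕ) : algDim W (Z.prod (pw X n)) =
    finrank W.K ((algSys W).C (Z.prod (Pool.Agent.Y133.Half.pw X n))) := by
  rw [Pool.Agent.Y133.Half.algDim_eq]
  exact (algSys W).finrank_C_iso (zIso Z X n)

variable [Algebra W.K ℝ] (Ψ : HodgeStr W)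

include Ψ in
/-- A class of degree one. -/
lemma exists_lam_hodge (Z : 𝒱.Obj) (hZ : Nontrivial (W.H Z)) :
    ∃ l ∈ (algSys W).C Z, W.tr Z l = 1 := by
  obtain ⟨D, hD, _, hpos⟩ := Ψ.sys.polar Z
  have h0 : W.cl Z D ^ (Z.dim + 1) = 0 := by
    have h1 := ((Pool.Agent.Y133.Half.IsHodge.cl (Ψ := Ψ.sys) hD).pow (Z.dim + 1)).1
    rw [W.gr_eq_bot Z _ (by omega)] at h1
    exact (Submodule.mem_bot _).1 h1
  have h1 := hpos 0 (Nat.zero_le _) 1 (W.one_mem Z)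
    (Pool.Agent.Y133.Half.IsHodge.one (Ψ := Ψ.sys)).2
    (by rw [mul_one, mul_zero, Nat.sub_zero]; exact h0) one_ne_zero
  rw [pow_zero, one_mul, mul_one, mul_one, mul_zero, Nat.sub_zero] at h1
  have h2 : W.tr Z (W.cl Z D ^ Z.dim) ≠ 0 := by
    intro h
    rw [h, map_zero] at h1
    exact lt_irrefl _ h1
  have h3 : ∀ n : ℕ, W.cl Z D ^ n ∈ (algSys W).C Z := by
    intro n
    induction n with
    | zero => rw [pow_zero]; exact (algSys W).one Z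
    | succ n ih =>
      rw [pow_succ]
      refine (algSys W).mul ih (Submodule.subset_span (Set.mem_iUnion.2 ⟨1, D, hD, rfl⟩))
  exact ⟨(W.tr Z (W.cl Z D ^ Z.dim))⁻¹ • W.cl Z D ^ Z.dim, Submodule.smul_mem _ _ (h3 _), by
    rw [map_smul, smul_eq_mul, inv_mul_cancel₀ h2]⟩

/-- The algebraic classes and the Hodge classes. -/
lemma hodge_pair : Pair (algSys W) (Pool.Agent.Y133.Half.hodgeSys Ψ.sys) where
  le := Pool.Agent.Y133.Half.alg_le_hodge Ψ.sys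
  nondeg _ _ hx h := hodgeSpan.nondeg hx h
  lam := exists_lam_hodge Ψ

lemma hodge_z (Z X : 𝒱.Obj) (n : ℕ) : hodgeDim Ψ (Z.prod (pw X n)) =
    finrank W.K ((Pool.Agent.Y133.Half.hodgeSys Ψ.sys).C
      (Z.prod (Pool.Agent.Y133.Half.pw X n))) :=
  (Pool.Agent.Y133.Half.hodgeSys Ψ.sys).finrank_C_iso (zIso Z X n)

lemma hodge_pw (X : 𝒱.Obj) (n : ℕ) : hodgeDim Ψ (pw X n) =
    finrank W.K ((Pool.Agent.Y133.Half.hodgeSys Ψ.sys).C (Pool.Agent.Y133.Half.pw X n)) :=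
  (Pool.Agent.Y133.Half.hodgeSys Ψ.sys).finrank_C_iso (pwIso129 X n)

lemma hodgeIn_iso {A B : 𝒱.Obj} (θ : A ≅ B) :
    (∀ j, HodgeIn Ψ A j) ↔ ∀ j, HodgeIn Ψ B j := by
  rw [hodgeIn_iff, hodgeIn_iff,
    eq_alg_iff (T := Pool.Agent.Y133.Half.hodgeSys Ψ.sys)
      (fun Z => Pool.Agent.Y133.Half.alg_le_hodge Ψ.sys Z),
    eq_alg_iff (T := Pool.Agent.Y133.Half.hodgeSys Ψ.sys)
      (fun Z => Pool.Agent.Y133.Half.alg_le_hodge Ψ.sys Z),
    (Pool.Agent.Y133.Half.hodgeSys Ψ.sys).finrank_C_iso θ]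
  have h : finrank W.K (algSpan W A) = finrank W.K (algSpan W B) :=
    (algSys W).finrank_C_iso θ
  rw [h]

/-- **The index law for the Hodge classes on the products of `Z` with powers of `X`.** -/
theorem hodge_times (X : 𝒱.Obj) [Nontrivial (W.H X)] : ∃ N : ℕ∞, 1 ≤ N ∧
      Tendsto (fun n => (hodgeDim Ψ (pw X n) : ℝ≥0∞) / cycRank ops (pw X n)) atTop
        (𝓝 (N : ℝ≥0∞)) ∧
      (N = 1 ↔ ∀ n j, HodgeIn Ψ (pw X n) j) ∧
      ∀ Z : 𝒱.Obj, Nontrivial (W.H Z) → ∃ p q : ℕ, 1 ≤ q ∧ q ≤ p ∧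
        p ≤ finrank W.K (W.H Z) ∧
        Tendsto (fun n => (hodgeDim Ψ (Z.prod (pw X n)) : ℝ≥0∞) / hodgeDim Ψ (pw X n)) atTop
          (𝓝 (p : ℝ≥0∞)) ∧
        (N ≠ ⊤ → Tendsto (fun n => (cycRank ops (Z.prod (pw X n)) : ℝ≥0∞) /
          cycRank ops (pw X n)) atTop (𝓝 (q : ℝ≥0∞))) ∧
        Tendsto (fun n => (hodgeDim Ψ (Z.prod (pw X n)) : ℝ≥0∞) /
          cycRank ops (Z.prod (pw X n))) atTop (𝓝 ((N : ℝ≥0∞) * ((p : ℝ≥0∞) / q))) ∧
        ((N = 1 ∧ p = q) ↔ ∀ n j, HodgeIn Ψ (Z.prod (pw X n)) j) ∧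
        (N ≠ 1 → AtMostHalf (fun n => algDim W (Z.prod (pw X n)))
          (fun n => hodgeDim Ψ (Z.prod (pw X n)))) ∧
        (p ≠ q → AtMostShare p (fun n => algDim W (Z.prod (pw X n)))
          (fun n => hodgeDim Ψ (Z.prod (pw X n)))) := by
  obtain ⟨N, h1, h2, -, h4, -, h6⟩ := Pool.Agent.Y133.Hdg.hodge_index Ψ X
  refine ⟨N, h1, h2, h4, fun Z hZ => ?_⟩
  have hN : Tendsto (fun n => (finrank W.K ((Pool.Agent.Y133.Half.hodgeSys Ψ.sys).C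
      (Pool.Agent.Y133.Half.pw X n)) : ℝ≥0∞) /
      (algSys W).a (Pool.Agent.Y133.Half.pw X n)) atTop (𝓝 (N : ℝ≥0∞)) := by
    refine h2.congr fun n => ?_
    rw [hodge_pw, cyc_pw W]
  have hnum : N ≠ ⊤ → ∀ n, (algSys W).Num (Pool.Agent.Y133.Half.pw X n) = ⊥ := by
    intro hN' n
    rw [← homEqNum_iff]
    exact (homEqNum_iso (pwIso129 X n)).1 ((h6 hN').1 n)
  have hone : N = 1 → ∀ n, (algSys W).C (Pool.Agent.Y133.Half.pw X n) =
      (Pool.Agent.Y133.Half.hodgeSys Ψ.sys).C (Pool.Agent.Y133.Half.pw X n) := by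
    intro hN' n
    have h7 := (hodgeIn_iso Ψ (pwIso129 X n)).1 (h4.1 hN' n)
    exact ((hodgeIn_iff Ψ).1 h7).symm
  obtain ⟨p, q, hq, hqp, hp, k1, k2, k3, k4, k5, k6⟩ := (hodge_pair Ψ).law X Z h1 hN hnum hone
  refine ⟨p, q, hq, hqp, hp, ?_, ?_, ?_, ?_, ?_, ?_⟩
  · refine k1.congr fun n => ?_
    rw [hodge_z, hodge_pw]
  · intro hN'
    refine (k2 hN').congr fun n => ?_
    rw [cyc_z W, cyc_pw W]
  · refine k3.congr fun n => ?_
    rw [hodge_z, cyc_z W]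
  · rw [k4]
    refine forall_congr' fun n => ?_
    rw [hodgeIn_iso Ψ (zIso Z X n), hodgeIn_iff]
    exact eq_comm
  · intro hN' ε hε
    obtain ⟨n₀, hn₀⟩ := k5 hN' ε hε
    refine ⟨n₀, fun n hn => ?_⟩
    change (algDim W (Z.prod (pw X n)) : ℝ) ≤ (1 / 2 + ε) * (hodgeDim Ψ (Z.prod (pw X n)) : ℝ)
    rw [alg_z, hodge_z]
    exact hn₀ n hn
  · intro hpq ε hε
    obtain ⟨n₀, hn₀⟩ := k6 hpq ε hε
    refine ⟨n₀, fun n hn => ?_⟩
    change (algDim W (Z.prod (pw X n)) : ℝ) ≤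
      (1 - 1 / (2 * p) + ε) * (hodgeDim Ψ (Z.prod (pw X n)) : ℝ)
    rw [alg_z, hodge_z]
    exact hn₀ n hn

end Pool.Agent.V1142.XZ
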