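import Pool.Agent.V1142.XZ.Times
import Pool.Agent.Y133.Half.HRPred

/-!
# The index law for a class of cohomology classes with Hodge-Riemann relations
-/

open CategoryTheory AlgebraicGeometry Filter Topology

open scoped ENNReal

universe u v

set_option linter.unusedSectionVars false

namespace Pool.Agent.V1142.XZ

open Module
open Pool.Agent.H914 Pool.Agent.H914.VarClass Pool.Agent.H914.VarClass.Obj
  Pool.Agent.H914.WeilCohomology Pool.Agent.Y133.Half Pool.Agent.Y133.Half.Sys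

variable {k : Type u} [Field k] {𝒱 : VarClass k} {ops : CycleOps 𝒱}
  {W : WeilCohomology.{u, v} ops} [Algebra W.K ℝ] {X Y Z : 𝒱.Obj}

/-- A class of degree one. -/
lemma exists_lam_hr {Q : ClassPred W} (h : ∀ Z : 𝒱.Obj, ∃ D, Q.HR Z D) (Z : 𝒱.Obj)
    (hZ : Nontrivial (W.H Z)) : ∃ l ∈ (algSys W).C Z, W.tr Z l = 1 := by
  obtain ⟨D, hD⟩ := h Z
  have h0 : W.cl Z D ^ (Z.dim + 1) = 0 := by
    have h1 := Q.gr (ClassPred.pow (Q.cl hD.cyc) (Z.dim + 1))
    rw [W.gr_eq_bot Z _ (by omega)] at h1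
    exact (Submodule.mem_bot _).1 h1
  have h1 := hD.pos 0 (Nat.zero_le _) 1 (ClassPred.one Z)
    (by rw [mul_one, mul_zero, Nat.sub_zero]; exact h0) one_ne_zero
  rw [pow_zero, one_mul, mul_one, mul_one, mul_zero, Nat.sub_zero] at h1
  have h2 : W.tr Z (W.cl Z D ^ Z.dim) ≠ 0 := by
    intro h
    rw [h, map_zero] at h1
    exact lt_irrefl _ h1
  have h3 : ∀ n : ℕ, W.cl Z D ^ n ∈ (algSys W).C Z := by
    intro n
    induction n with
    | zero => rw [pow_zero]; exact (algSys W).one Z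
    | succ n ih =>
      rw [pow_succ]
      refine (algSys W).mul ih (Submodule.subset_span (Set.mem_iUnion.2 ⟨1, D, hD.cyc, rfl⟩))
  exact ⟨(W.tr Z (W.cl Z D ^ Z.dim))⁻¹ • W.cl Z D ^ Z.dim, Submodule.smul_mem _ _ (h3 _), by
    rw [map_smul, smul_eq_mul, inv_mul_cancel₀ h2]⟩

lemma hr_pair {Q : ClassPred W} (h : ∀ Z : 𝒱.Obj, ∃ D, Q.HR Z D) : Pair (algSys W) Q.sys where
  le _ := ClassPred.alg_le
  nondeg Z := by
    obtain ⟨D, hD⟩ := h Z
    exact hD.nondeg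
  lam := exists_lam_hr h

lemma alg_iff' {Q : ClassPred W} (Z : 𝒱.Obj) : (algSys W).C Z = Q.sys.C Z ↔
    ∀ j c, Q.P Z j c → c ∈ spanCycles W Z j := by
  rw [← ClassPred.sp_eq_iff (Q := Q) Z]
  exact eq_comm

/-- **The index law on the products `Z × X^n`, nondegenerate case.** -/
theorem hr_times {Q : ClassPred W} (h : ∀ Z : 𝒱.Obj, ∃ D, Q.HR Z D) (X : 𝒱.Obj)
    [Nontrivial (W.H X)] : ∃ N : ℕ∞, 1 ≤ N ∧
      HasIndex (fun n => dimBy W Q.P (pw X n)) (fun n => cycRank ops (pw X n)) N ∧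
      (N = 1 ↔ ∀ n j c, Q.P (pw X n) j c → c ∈ spanCycles W (pw X n) j) ∧
      ∀ Z : 𝒱.Obj, Nontrivial (W.H Z) → ∃ p q : ℕ, 1 ≤ q ∧ q ≤ p ∧
        p ≤ finrank W.K (W.H Z) ∧
        HasIndex (fun n => dimBy W Q.P (Z.prod (pw X n))) (fun n => dimBy W Q.P (pw X n)) p ∧
        (N ≠ ⊤ → HasIndex (fun n => cycRank ops (Z.prod (pw X n)))
          (fun n => cycRank ops (pw X n)) q) ∧
        Tendsto (fun n => (dimBy W Q.P (Z.prod (pw X n)) : ℝ≥0∞) /
          cycRank ops (Z.prod (pw X n))) atTop (𝓝 ((N : ℝ≥0∞) * ((p : ℝ≥0∞) / q))) ∧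
        ((N = 1 ∧ p = q) ↔ ∀ n j c, Q.P (Z.prod (pw X n)) j c →
          c ∈ spanCycles W (Z.prod (pw X n)) j) ∧
        (N ≠ 1 → AtMostHalf (fun n => algDim W (Z.prod (pw X n)))
          (fun n => dimBy W Q.P (Z.prod (pw X n)))) ∧
        (p ≠ q → AtMostShare p (fun n => algDim W (Z.prod (pw X n)))
          (fun n => dimBy W Q.P (Z.prod (pw X n)))) := by
  obtain ⟨N, h1, h2, h3, h4⟩ := base_law (S := algSys W) (T := Q.sys)
    (fun _ => ClassPred.alg_le) X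
  have h4' : N = 1 ↔ ∀ n j c, Q.P (pw X n) j c → c ∈ spanCycles W (pw X n) j := by
    rw [h4]
    constructor
    · intro h0 n
      exact (alg_iff' _).1 (h0 n).1
    · intro h0 n
      have h5 := (alg_iff' (Q := Q) _).2 (h0 n)
      refine ⟨h5, ?_⟩
      rw [eq_bot_iff]
      intro x hx
      refine (hr_pair h).nondeg _ x ((hr_pair h).le _ hx.1) fun y hy => ?_
      rw [← h5] at hy
      exact hx.2 y hy
  refine ⟨N, h1, ?_, h4', fun Z hZ => ?_⟩
  · refine h2.congr fun n => ?_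
    rw [a_alg]; rfl
  · obtain ⟨p, q, hq, hqp, hp, k1, k2, k3, k4, k5, k6⟩ := (hr_pair h).law X Z h1 h2 h3
      fun hN n => (h4.1 hN n).1
    refine ⟨p, q, hq, hqp, hp, ?_, ?_, ?_, ?_, ?_, ?_⟩
    · unfold HasIndex
      rw [ENat.toENNReal_coe]
      exact k1
    · intro hN
      unfold HasIndex
      rw [ENat.toENNReal_coe]
      refine (k2 hN).congr fun n => ?_
      rw [a_alg, a_alg]
    · refine k3.congr fun n => ?_
      rw [a_alg]; rfl
    · rw [k4]
      exact forall_congr' fun n => alg_iff' _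
    · intro hN ε hε
      obtain ⟨n₀, hn₀⟩ := k5 hN ε hε
      refine ⟨n₀, fun n hn => ?_⟩
      have h5 := hn₀ n hn
      change (algDim W (Z.prod (pw X n)) : ℝ) ≤
        (1 / 2 + ε) * (dimBy W Q.P (Z.prod (pw X n)) : ℝ)
      rw [Pool.Agent.Y133.Half.algDim_eq]
      exact h5
    · intro hpq ε hε
      obtain ⟨n₀, hn₀⟩ := k6 hpq ε hε
      refine ⟨n₀, fun n hn => ?_⟩
      have h5 := hn₀ n hn
      change (algDim W (Z.prod (pw X n)) : ℝ) ≤
        (1 - 1 / (2 * p) + ε) * (dimBy W Q.P (Z.prod (pw X n)) : ℝ)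
      rw [Pool.Agent.Y133.Half.algDim_eq]
      exact h5

end Pool.Agent.V1142.XZ
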