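import Pool.Agent.V1142.XZ.Main

/-!
# The index law for the products of a variety with the powers of another one
-/

open CategoryTheory AlgebraicGeometry Filter Topology

open scoped ENNReal

universe u v

set_option linter.unusedSectionVars false

namespace Pool.Agent.V1142.XZ

open Module
open Pool.Agent.H914 Pool.Agent.H914.VarClass Pool.Agent.H914.VarClass.Obj
  Pool.Agent.H914.WeilCohomology Pool.Agent.Y133.Half Pool.Agent.Y133.Half.Sys

variable {k : Type u} [Field k] {𝒱 : VarClass k} {ops : CycleOps 𝒱}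
  {W : WeilCohomology.{u, v} ops} {X Y Z Z' P Q M N : 𝒱.Obj} {S T : Sys W}

lemma num_bot (hT : Nondeg T Z) : T.Num Z = ⊥ := by
  rw [eq_bot_iff]
  intro x hx
  exact hT x hx.1 hx.2

lemma a_eq (hT : Nondeg T Z) : T.a Z = finrank W.K (T.C Z) := by
  rw [← T.a_add_num Z, num_bot hT, finrank_bot, add_zero]

/-- A nondegenerate system is regular. -/
theorem reg_of_nondeg (hT : ∀ Z, Nondeg T Z) (hlam : ∃ l ∈ T.C X, W.tr X l = 1) : Reg T X := by
  refine ⟨hlam, ?_⟩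
  obtain ⟨l, hl, hl1⟩ := hlam
  have hpos : ∀ n, 0 < T.al X n := by
    intro n
    obtain ⟨m, hm, hm1⟩ := T.exists_lam hl hl1 n
    refine T.a_pos (xp_mem_C T hm hm) ?_
    rw [tr_xp, hm1, mul_one]
  have h := Pool.Agent.Y129.tendsto_quot (α := fun l => T.al X l)
    (q := finrank W.K (W.H X) ^ 2) (c := finrank W.K (W.H X) ^ 2) hpos
    (fun n => by rw [mul_comm]; exact T.al_convex X n) (fun n => T.al_succ_le X n)
    (fun n => by
      have h1 := T.growth X n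
      rw [← pow_mul, mul_comm ((n + 2) ^ _)]
      have h2 : T.al X n = finrank W.K (T.C ((pw X n).prod (pw X n))) := a_eq (hT _)
      rw [h2]
      exact h1)
  push_cast at h
  exact h

/-- The multiplication of a pulled back class with a fixed class on the other factor. -/
lemma a_le_prod {l : W.H P} (hl : l ∈ S.C P) (hl1 : W.tr P l = 1) (N : 𝒱.Obj) :
    S.a N ≤ S.a (P.prod N) := by
  let m : S.C N →ₗ[W.K] S.C (P.prod N) :=
    (LinearMap.mulLeft W.K (W.map (fst P N) l) ∘ₗ (W.map (snd P N)).toLinearMap).restrict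
      fun c hc => S.mul (S.map _ hl) (S.map _ hc)
  have e : S.F N 1 = (S.F (P.prod N) 1).compl₁₂ (S.mapS (snd P N)) m := by
    apply LinearMap.ext
    intro c
    apply LinearMap.ext
    intro d
    rw [LinearMap.compl₁₂_apply, F_apply, F_apply, Module.End.one_apply, Module.End.one_apply]
    change W.tr N ((c : W.H N) * (d : W.H N)) = W.tr (P.prod N) (W.map (snd P N) (c : W.H N) *
      (W.map (fst P N) l * W.map (snd P N) (d : W.H N)))
    rw [← mul_assoc, ← PH.even_comm (PH.map _ (S.even hl)), mul_assoc, ← map_mul, W.tr_prod,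
      hl1, one_mul]
  rw [a, a, e]
  exact rk_comp_le _ _ _

lemma al_le_BB {l : W.H X} (hl : l ∈ S.C X) (hl1 : W.tr X l = 1) (q n : ℕ) :
    S.al X n ≤ S.a (BB X q n) := by
  obtain ⟨m, hm, hm1⟩ := S.exists_lam hl hl1 q
  exact a_le_prod hm hm1 _

/-- The ranks on `Z × X^n` are bounded by a multiple of those on `X^n`. -/
lemma a_bound {l : W.H X} (hl : l ∈ S.C X) (hl1 : W.tr X l = 1) (Z : 𝒱.Obj) {n : ℕ}
    (hn : 2 ≤ n) : S.a (Z.prod (pw X n)) ≤
      finrank W.K (W.H Z) * finrank W.K (W.H X) ^ 2 * S.a (pw X n) := by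
  have hb : 0 < finrank W.K (W.H X) := by
    have : Nontrivial (W.H X) := ⟨⟨1, 0, one_ne_zero_of (ne_zero_of_tr hl1)⟩⟩
    exact Module.finrank_pos
  obtain ⟨q, m, hq, hm⟩ : ∃ q m, q ≤ 1 ∧ q + (m + m + 1) + 1 = n :=
    ⟨n % 2, (n - n % 2 - 2) / 2, by omega, by omega⟩
  rw [← r_one, ← S.r_iso 1 (BBiso X hm), ← S.a_iso (BBiso X hm)]
  have h1 := r_up (S := S) (Z := Z) (g := 1) Op.id rfl X q m
  rw [rank_one] at h1
  refine h1.trans (Nat.mul_le_mul ?_ (al_le_BB hl hl1 q m))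
  exact Nat.mul_le_mul_left _ (Nat.pow_le_pow_right hb (by omega))

/-- The rank one idempotent factors through `X`. -/
lemma exists_fac_one {l : W.H X} (hl : l ∈ S.C X) (hl1 : W.tr X l = 1) {l' : W.H Z}
    (hl' : l' ∈ S.C Z) (hl1' : W.tr Z l' = 1) :
    ∃ e, Fac S X Z e ∧ 1 ≤ finrank W.K (LinearMap.range e) := by
  have h1 : rk1 W l Z ∘ₗ rk1 W l' X ∘ₗ rk1 W l Z = rk1 W l Z := by
    rw [rk1_comp hl1', rk1_comp hl1]
  have h2 : rk1 W l' X ∘ₗ rk1 W l Z ∘ₗ rk1 W l' X = rk1 W l' X := by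
    rw [rk1_comp hl1, rk1_comp hl1']
  have h3 : Fac S X Z ((0 : Module.End W.K (W.H Z)) + rk1 W l Z ∘ₗ rk1 W l' X) :=
    Fac.add (m := 0) Fac.zero (rk1_mem hl) (rk1_mem hl') h1 h2 (LinearMap.zero_comp _)
      (LinearMap.comp_zero _)
  refine ⟨_, h3, ?_⟩
  have e : (0 : Module.End W.K (W.H Z)) + rk1 W l Z ∘ₗ rk1 W l' X = rk1 W l' Z := by
    rw [zero_add]
    exact rk1_comp hl1
  rw [e]
  exact finrank_range_pos (rk1_ne hl1' (one_ne_zero_of (ne_zero_of_tr hl1')))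

lemma nop_bot (h : ∀ n, S.Num (pw X n) = ⊥) (m n : ℕ) : S.NOp (pw X m) (pw X n) = ⊥ := by
  have h1 : S.Num ((pw X m).prod (pw X n)) = ⊥ := by
    rw [eq_bot_iff]
    intro x hx
    have h2 : W.map (pwAdd X m n).inv x ∈ S.Num (pw X (m + n + 1)) := Num.map _ hx
    rw [h, Submodule.mem_bot] at h2
    rw [Submodule.mem_bot]
    apply map_inj_of_iso (pwAdd X m n).symm
    rw [map_zero]
    exact h2
  rw [NOp, h1, Submodule.map_bot]

lemma op_le (hP : ∀ n, S.C (pw X n) = T.C (pw X n)) (m n : ℕ) :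
    T.Op (pw X m) (pw X n) ≤ S.Op (pw X m) (pw X n) := by
  have h1 : T.C ((pw X m).prod (pw X n)) ≤ S.C ((pw X m).prod (pw X n)) := by
    intro x hx
    have h2 : W.map (pwAdd X m n).inv x ∈ T.C (pw X (m + n + 1)) := T.map _ hx
    rw [← hP] at h2
    have h3 := S.map (pwAdd X m n).hom h2
    rwa [← W.map_comp, Iso.hom_inv_id, W.map_id] at h3
  rintro u hu
  obtain ⟨c, hc, rfl⟩ := mem_Op.1 hu
  exact Op.corr (h1 hc)

lemma tendsto_ofReal {f g : ℕ → ℕ} {c : ℕ} (hg : ∀ n, 0 < g n)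
    (h : Tendsto (fun n => (f n : ℝ) / g n) atTop (𝓝 (c : ℝ))) :
    Tendsto (fun n => (f n : ℝ≥0∞) / g n) atTop (𝓝 (c : ℝ≥0∞)) := by
  have h1 := ENNReal.tendsto_ofReal h
  rw [ENNReal.ofReal_natCast] at h1
  refine h1.congr fun n => ?_
  rw [ENNReal.ofReal_div_of_pos (by exact_mod_cast hg n), ENNReal.ofReal_natCast,
    ENNReal.ofReal_natCast]

lemma tendsto_toReal {f g : ℕ → ℕ} {c : ℕ}
    (h : Tendsto (fun n => (f n : ℝ≥0∞) / g n) atTop (𝓝 (c : ℝ≥0∞))) :
    Tendsto (fun n => (f n : ℝ) / g n) atTop (𝓝 (c : ℝ)) := by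
  have h1 := (ENNReal.tendsto_toReal (ENNReal.natCast_ne_top c)).comp h
  rw [ENNReal.toReal_natCast] at h1
  refine h1.congr fun n => ?_
  rw [Function.comp_apply, ENNReal.toReal_div, ENNReal.toReal_natCast, ENNReal.toReal_natCast]

/-- The hypotheses of the law. -/
structure Pair (S T : Sys W) : Prop where
  le : ∀ X, S.C X ≤ T.C X
  nondeg : ∀ Z, Nondeg T Z
  lam : ∀ Z, Nontrivial (W.H Z) → ∃ l ∈ S.C Z, W.tr Z l = 1

lemma Pair.reg (h : Pair S T) (X : 𝒱.Obj) [hX : Nontrivial (W.H X)] : Reg T X := by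
  obtain ⟨l, hl, hl1⟩ := h.lam X hX
  exact reg_of_nondeg h.nondeg ⟨l, h.le _ hl, hl1⟩

lemma nontrivial_pw (X : 𝒱.Obj) [Nontrivial (W.H X)] (n : ℕ) : Nontrivial (W.H (pw X n)) := by
  apply Module.nontrivial_of_finrank_pos (R := W.K)
  rw [finrank_pw]
  exact pow_pos Module.finrank_pos _

lemma nontrivial_prod (X Z : 𝒱.Obj) [Nontrivial (W.H X)] [Nontrivial (W.H Z)] :
    Nontrivial (W.H (Z.prod X)) := by
  apply Module.nontrivial_of_finrank_pos (R := W.K)
  rw [Pool.Agent.Y133.Half.finrank_prod]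
  exact Nat.mul_pos Module.finrank_pos Module.finrank_pos

lemma Pair.pos (h : Pair S T) (Z : 𝒱.Obj) [hZ : Nontrivial (W.H Z)] : 0 < S.a Z := by
  obtain ⟨l, hl, hl1⟩ := h.lam Z hZ
  exact S.a_pos hl hl1

lemma Pair.posT (h : Pair S T) (Z : 𝒱.Obj) [hZ : Nontrivial (W.H Z)] :
    0 < finrank W.K (T.C Z) := by
  obtain ⟨l, hl, hl1⟩ := h.lam Z hZ
  rw [← a_eq (h.nondeg Z)]
  exact T.a_pos (h.le _ hl) hl1

lemma Pair.eq_of_ratio (h : Pair S T) (Z : 𝒱.Obj) [Nontrivial (W.H Z)]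
    (he : S.C Z = T.C Z) : (finrank W.K (T.C Z) : ℝ≥0∞) / S.a Z = 1 := by
  have h1 : S.Num Z = ⊥ := by
    rw [eq_bot_iff]
    intro x hx
    refine h.nondeg Z x (h.le _ hx.1) fun y hy => ?_
    rw [← he] at hy
    exact hx.2 y hy
  have h2 := S.a_add_num Z
  rw [h1, finrank_bot, add_zero, he] at h2
  rw [h2]
  exact ENNReal.div_self (by exact_mod_cast (h.posT Z).ne') (ENNReal.natCast_ne_top _)

/-- Not all classes of `T` are in `S`: at most half of them are, in the case of a negligible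
rank. -/
lemma Pair.half_of_top (h : Pair S T) {A : ℕ → 𝒱.Obj} (hA : ∀ n, Nontrivial (W.H (A n)))
    (hlim : Tendsto (fun n => (finrank W.K (T.C (A n)) : ℝ≥0∞) / S.a (A n)) atTop (𝓝 ⊤)) :
    ∀ ε : ℝ, 0 < ε → ∃ n₀ : ℕ, ∀ n ≥ n₀,
      (finrank W.K (S.C (A n)) : ℝ) ≤ (1 / 2 + ε) * finrank W.K (T.C (A n)) := by
  intro ε hε
  rw [ENNReal.tendsto_nhds_top_iff_nat] at hlim
  obtain ⟨m, hm⟩ := exists_nat_gt (1 / (2 * ε))
  obtain ⟨n₀, hn₀⟩ := eventually_atTop.1 (hlim m)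
  refine ⟨n₀, fun n hn => finrank_le_of h.le (h.nondeg _) ?_⟩
  have h1 := hn₀ n hn
  have := hA n
  have h2 := h.pos (A n)
  have h3 : (m : ℝ≥0∞) * S.a (A n) ≤ finrank W.K (T.C (A n)) := by
    have h4 := h1.le
    rwa [ENNReal.le_div_iff_mul_le (Or.inl (by exact_mod_cast h2.ne'))
      (Or.inl (ENNReal.natCast_ne_top _))] at h4
  have h5 : (m : ℝ) * S.a (A n) ≤ finrank W.K (T.C (A n)) := by exact_mod_cast h3
  have h6 : (0 : ℝ) ≤ S.a (A n) := Nat.cast_nonneg _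
  have h7 : (1 / (2 * ε)) * (S.a (A n) : ℝ) ≤ finrank W.K (T.C (A n)) :=
    (mul_le_mul_of_nonneg_right hm.le h6).trans h5
  calc (S.a (A n) : ℝ) = 2 * ε * ((1 / (2 * ε)) * S.a (A n)) := by field_simp
    _ ≤ 2 * ε * finrank W.K (T.C (A n)) := mul_le_mul_of_nonneg_left h7 (by positivity)

/-- If the index of the powers is infinite, so is that of the products. -/
lemma Pair.top (h : Pair S T) (X Z : 𝒱.Obj) [hX : Nontrivial (W.H X)] [hZ : Nontrivial (W.H Z)]
    (hlim : Tendsto (fun n => (finrank W.K (T.C (pw X n)) : ℝ≥0∞) / S.a (pw X n)) atTop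
      (𝓝 ⊤)) :
    Tendsto (fun n => (finrank W.K (T.C (Z.prod (pw X n))) : ℝ≥0∞) / S.a (Z.prod (pw X n)))
      atTop (𝓝 ⊤) := by
  obtain ⟨l, hl, hl1⟩ := h.lam X hX
  set C := finrank W.K (W.H Z) * finrank W.K (W.H X) ^ 2 with hC
  have hC0 : 0 < C := Nat.mul_pos Module.finrank_pos (pow_pos Module.finrank_pos _)
  rw [ENNReal.tendsto_nhds_top_iff_nat] at hlim ⊢
  intro m
  filter_upwards [hlim (m * C), eventually_ge_atTop 2] with n hn hn2
  have := nontrivial_pw (W := W) X n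
  have := nontrivial_prod (W := W) (pw X n) Z
  have h2 := h.pos (pw X n)
  have h3 := h.pos (Z.prod (pw X n))
  rw [ENNReal.lt_div_iff_mul_lt (Or.inl (by exact_mod_cast h2.ne'))
      (Or.inl (ENNReal.natCast_ne_top _))] at hn
  rw [ENNReal.lt_div_iff_mul_lt (Or.inl (by exact_mod_cast h3.ne'))
      (Or.inl (ENNReal.natCast_ne_top _))]
  have h4 : m * C * S.a (pw X n) < finrank W.K (T.C (pw X n)) := by exact_mod_cast hn
  have h5 := a_bound hl hl1 Z hn2
  have h6 : finrank W.K (T.C (pw X n)) ≤ finrank W.K (T.C (Z.prod (pw X n))) := by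
    apply T.finrank_C_le (snd Z (pw X n))
    intro x y hxy
    have h7 : xp W (1 : W.H Z) (x - y) = 0 := by
      rw [xp, map_one, one_mul, map_sub, hxy, sub_self]
    exact sub_eq_zero.1 (xp_eq_zero_left one_ne_zero h7)
  have h8 : m * S.a (Z.prod (pw X n)) < finrank W.K (T.C (Z.prod (pw X n))) := by
    calc m * S.a (Z.prod (pw X n)) ≤ m * (C * S.a (pw X n)) := Nat.mul_le_mul_left _ h5
      _ = m * C * S.a (pw X n) := by ring
      _ < _ := h4
      _ ≤ _ := h6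
  exact_mod_cast h8

/-- A finite index implies regularity. -/
lemma Pair.reg_of_ne_top (h : Pair S T) (X : 𝒱.Obj) [hX : Nontrivial (W.H X)] {N : ℕ∞}
    (hN : Tendsto (fun n => (finrank W.K (T.C (pw X n)) : ℝ≥0∞) / S.a (pw X n)) atTop
      (𝓝 (N : ℝ≥0∞))) (hN' : N ≠ ⊤) : Reg S X := by
  obtain ⟨l, hl, hl1⟩ := h.lam X hX
  refine ⟨⟨l, hl, hl1⟩, ?_⟩
  have hb : 0 < finrank W.K (W.H X) := Module.finrank_pos
  have hpos : ∀ n, 0 < S.al X n := by
    intro n
    obtain ⟨m, hm, hm1⟩ := S.exists_lam hl hl1 n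
    refine S.a_pos (xp_mem_C S hm hm) ?_
    rw [tr_xp, hm1, mul_one]
  rcases ratio_dichotomy hpos (S.al_convex X) ((finrank W.K (W.H X) : ℝ) ^ 2) with
    ⟨c, hc, hcB, hle⟩ | hB
  · exfalso
    apply hN'
    have h1 : Tendsto (fun n => (finrank W.K (T.C (pw X n)) : ℝ≥0∞) / S.a (pw X n)) atTop
        (𝓝 ⊤) := by
      rw [ENNReal.tendsto_nhds_top_iff_nat]
      intro m
      have hm0 : (0 : ℝ) < m + 1 := by positivity
      obtain ⟨n₀, hn₀⟩ := small_of (T := T) hc hcB hle hb (ε := 1 / (m + 1)) (by positivity)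
      filter_upwards [eventually_ge_atTop n₀] with n hn
      have := nontrivial_pw (W := W) X n
      have h2 := h.pos (pw X n)
      rw [ENNReal.lt_div_iff_mul_lt (Or.inl (by exact_mod_cast h2.ne'))
        (Or.inl (ENNReal.natCast_ne_top _))]
      have h3 := hn₀ n hn
      have h4 : ((m : ℝ) + 1) * S.a (pw X n) ≤ finrank W.K (T.C (pw X n)) := by
        calc ((m : ℝ) + 1) * S.a (pw X n) ≤ ((m : ℝ) + 1) *
              (1 / (m + 1) * finrank W.K (T.C (pw X n))) := mul_le_mul_of_nonneg_left h3 hm0.le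
          _ = _ := by field_simp
      have h5 : (m + 1) * S.a (pw X n) ≤ finrank W.K (T.C (pw X n)) := by exact_mod_cast h4
      have h6 : m * S.a (pw X n) < finrank W.K (T.C (pw X n)) := by
        have : m * S.a (pw X n) + S.a (pw X n) ≤ finrank W.K (T.C (pw X n)) := by
          rw [← Nat.succ_mul]; exact h5
        omega
      exact_mod_cast h6
    have h2 := tendsto_nhds_unique hN h1
    exact ENat.toENNReal_eq_top.1 h2
  · rw [Metric.tendsto_atTop]
    intro δ hδ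
    have hB2 : (0 : ℝ) < (finrank W.K (W.H X) : ℝ) ^ 2 := by positivity
    obtain ⟨c, hc0, hcB, hc⟩ := exists_close hB2 1 hδ
    rw [pow_one, pow_one] at hc
    obtain ⟨n₀, hn₀⟩ := hB c hc0 hcB
    refine ⟨n₀, fun n hn => ?_⟩
    have h1 : (0 : ℝ) < S.al X n := by exact_mod_cast hpos n
    have h2 : c ≤ (S.al X (n + 1) : ℝ) / S.al X n := (le_div_iff₀ h1).2 (hn₀ n hn)
    have h3 : (S.al X (n + 1) : ℝ) / S.al X n ≤ (finrank W.K (W.H X) : ℝ) ^ 2 := by
      rw [div_le_iff₀ h1]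
      exact_mod_cast S.al_succ_le X n
    rw [Real.dist_eq, abs_lt]
    constructor <;> linarith

/-- The invariants of the product of `Z` with the powers of `X`. -/
theorem Pair.inv (h : Pair S T) (X Z : 𝒱.Obj) [hX : Nontrivial (W.H X)]
    [hZ : Nontrivial (W.H Z)] (hS : Reg S X) :
    ∃ (e : Module.End W.K (W.H Z)) (p q : ℕ), Fac S X Z e ∧ 1 ≤ q ∧ q ≤ p ∧
      p ≤ finrank W.K (W.H Z) ∧
      Tendsto (fun n => (finrank W.K (T.C (Z.prod (pw X n))) : ℝ) / finrank W.K (T.C (pw X n)))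
        atTop (𝓝 (p : ℝ)) ∧
      Tendsto (fun n => (S.a (Z.prod (pw X n)) : ℝ) / S.a (pw X n)) atTop (𝓝 (q : ℝ)) ∧
      Tendsto (fun n => (T.r Z e (pw X n) : ℝ) / finrank W.K (T.C (pw X n))) atTop
        (𝓝 (q : ℝ)) ∧
      (p = q → ∀ n, T.r Z (1 - e) (pw X n) = 0) := by
  obtain ⟨e, he, hmax⟩ := exists_max S X Z
  obtain ⟨f, hf, hmaxf⟩ := exists_max T X Z
  have hT := h.reg X
  obtain ⟨l, hl, hl1⟩ := h.lam X hX
  obtain ⟨l', hl', hl1'⟩ := h.lam Z hZ
  obtain ⟨g, hg, hg1⟩ := exists_fac_one hl hl1 hl' hl1'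
  have heT : Fac T X Z e := he.mono h.le
  refine ⟨e, finrank W.K (LinearMap.range f), finrank W.K (LinearMap.range e), he,
    hg1.trans (hmax g hg), hmaxf e heT, Submodule.finrank_le _, ?_, hS.max_tendsto he hmax, ?_,
    fun hpq n => ?_⟩
  · refine (hT.max_tendsto hf hmaxf).congr fun n => ?_
    rw [a_eq (h.nondeg _), a_eq (h.nondeg _)]
  · refine (hT.fac_tendsto heT).congr fun n => ?_
    rw [a_eq (h.nondeg _)]
  · exact r_compl_eq_zero T heT (fun h' hh' => (hmaxf h' hh').trans hpq.le) n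

/-- The case of a finite index. -/
theorem Pair.finite (h : Pair S T) (X Z : 𝒱.Obj) [hX : Nontrivial (W.H X)]
    [hZ : Nontrivial (W.H Z)] {N : ℕ} (hN1 : 1 ≤ N)
    (hN : Tendsto (fun n => (finrank W.K (T.C (pw X n)) : ℝ) / S.a (pw X n)) atTop
      (𝓝 (N : ℝ))) (hS : Reg S X) (hnum : ∀ n, S.Num (pw X n) = ⊥)
    (hone : N = 1 → ∀ n, S.C (pw X n) = T.C (pw X n)) :
    ∃ p q : ℕ, 1 ≤ q ∧ q ≤ p ∧ p ≤ finrank W.K (W.H Z) ∧
      Tendsto (fun n => (finrank W.K (T.C (Z.prod (pw X n))) : ℝ) / finrank W.K (T.C (pw X n)))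
        atTop (𝓝 (p : ℝ)) ∧
      Tendsto (fun n => (S.a (Z.prod (pw X n)) : ℝ) / S.a (pw X n)) atTop (𝓝 (q : ℝ)) ∧
      (N = 1 ∧ p = q → ∀ n, S.C (Z.prod (pw X n)) = T.C (Z.prod (pw X n))) ∧
      ∀ ε : ℝ, 0 < ε → ∃ n₀ : ℕ, ∀ n ≥ n₀, (finrank W.K (S.C (Z.prod (pw X n))) : ℝ) ≤
        (1 / 2 + (q : ℝ) / p * (1 / N - 1 / 2) + ε) * finrank W.K (T.C (Z.prod (pw X n))) := by
  obtain ⟨e, p, q, he, hq, hqp, hp, h1, h2, h3, h4⟩ := h.inv X Z hS
  refine ⟨p, q, hq, hqp, hp, h1, h2, ?_, ?_⟩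
  · rintro ⟨hN1', hpq⟩ n
    have hP := hone hN1'
    exact eq_of_r_eq_zero h.le he (fun m => op_le hP n m) (h.nondeg _) (h4 hpq n)
  · have hpw := fun n => nontrivial_pw (W := W) X n
    have hzpw := fun n => (have := hpw n; nontrivial_prod (W := W) (pw X n) Z)
    have hp0 : (0 : ℝ) < p := by exact_mod_cast (hq.trans hqp)
    have hq0 : (0 : ℝ) < q := by exact_mod_cast hq
    have hN0 : (0 : ℝ) < N := by exact_mod_cast hN1
    have ht' : ∀ n, (0 : ℝ) < finrank W.K (T.C (pw X n)) := fun n => by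
      have := hpw n
      exact_mod_cast h.posT (pw X n)
    have ha : ∀ n, (0 : ℝ) < S.a (pw X n) := fun n => by
      have := hpw n
      exact_mod_cast h.pos (pw X n)
    have ht : ∀ n, (0 : ℝ) < finrank W.K (T.C (Z.prod (pw X n))) := fun n => by
      have := hzpw n
      exact_mod_cast h.posT (Z.prod (pw X n))
    have k1 : Tendsto (fun n => (S.a (Z.prod (pw X n)) : ℝ) /
        finrank W.K (T.C (Z.prod (pw X n)))) atTop (𝓝 ((q : ℝ) / (N * p))) := by
      have k2 := h2.div (hN.mul h1) (by positivity)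
      refine k2.congr fun n => ?_
      have e1 := (ht' n).ne'
      have e2 := (ha n).ne'
      have e3 := (ht n).ne'
      simp only [Pi.div_apply]
      field_simp
    have k2 : Tendsto (fun n => (T.r Z e (pw X n) : ℝ) /
        finrank W.K (T.C (Z.prod (pw X n)))) atTop (𝓝 ((q : ℝ) / p)) := by
      have k3 := h3.div h1 hp0.ne'
      refine k3.congr fun n => ?_
      have e1 := (ht' n).ne'
      have e3 := (ht n).ne'
      simp only [Pi.div_apply]
      field_simp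
    have k3 := (k1.sub (k2.const_mul (1 / 2))).const_add (1 / 2)
    have e0 : (1 / 2 : ℝ) + (q / (N * p) - 1 / 2 * (q / p)) =
        1 / 2 + (q : ℝ) / p * (1 / N - 1 / 2) := by
      field_simp
    rw [e0] at k3
    intro ε hε
    obtain ⟨n₀, hn₀⟩ := eventually_atTop.1 (k3.eventually (gt_mem_nhds
      (show 1 / 2 + (q : ℝ) / p * (1 / N - 1 / 2) < 1 / 2 + (q : ℝ) / p * (1 / N - 1 / 2) + ε by
        linarith)))
    refine ⟨n₀, fun n hn => ?_⟩
    have k4 := hn₀ n hn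
    have k5 := two_num_le h.le he (fun m => nop_bot hnum n m) (fun m => nop_bot hnum m n)
      (h.nondeg (Z.prod (pw X n)))
    have k6 := r_compl T (he.mono h.le).mem he.idem (pw X n)
    rw [a_eq (h.nondeg _)] at k6
    have k7 := S.a_add_num (Z.prod (pw X n))
    have k5' : 2 * (finrank W.K (S.Num (Z.prod (pw X n))) : ℝ) ≤ T.r Z (1 - e) (pw X n) := by
      exact_mod_cast k5
    have k6' : (T.r Z e (pw X n) : ℝ) + T.r Z (1 - e) (pw X n) =
        finrank W.K (T.C (Z.prod (pw X n))) := by exact_mod_cast k6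
    have k7' : (S.a (Z.prod (pw X n)) : ℝ) + finrank W.K (S.Num (Z.prod (pw X n))) =
        finrank W.K (S.C (Z.prod (pw X n))) := by exact_mod_cast k7
    have k8 : (1 / 2 + ((S.a (Z.prod (pw X n)) : ℝ) / finrank W.K (T.C (Z.prod (pw X n))) -
        1 / 2 * ((T.r Z e (pw X n) : ℝ) / finrank W.K (T.C (Z.prod (pw X n)))))) *
        finrank W.K (T.C (Z.prod (pw X n))) =
        (finrank W.K (T.C (Z.prod (pw X n))) : ℝ) / 2 + S.a (Z.prod (pw X n)) -
          (T.r Z e (pw X n) : ℝ) / 2 := by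
      have e3 := (ht n).ne'
      field_simp
      ring
    have k9 := mul_le_mul_of_nonneg_right k4.le (ht n).le
    rw [k8] at k9
    refine le_trans ?_ k9
    linarith

end Pool.Agent.V1142.XZ
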