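import Mathlib

/-!
# The asymptotic share of a sequence in another one: definition
-/

namespace Pool.Agent.V1142.XZ

/-- For every `ε > 0` we have `a n ≤ (r + ε) t n` for all sufficiently large `n`. -/
def AtMost (r : ℝ) (a t : ℕ → ℕ) : Prop :=
  ∀ ε : ℝ, 0 < ε → ∃ n₀ : ℕ, ∀ n ≥ n₀, (a n : ℝ) ≤ (r + ε) * t n

end Pool.Agent.V1142.XZ
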