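import Pool.Agent.H914R2.Weil
import Pool.Agent.Y133.Half.PwDefs
import Pool.Agent.V1142.XZ.ShareDefs

/-!
# The index law on the products `Z × X^n`: definition
-/

open CategoryTheory AlgebraicGeometry Filter Topology

open scoped ENNReal

universe u

namespace Pool.Agent.V1142.XZ

open Pool.Agent.H914 Pool.Agent.H914.VarClass Pool.Agent.H914.VarClass.Obj
open Pool.Agent.Y133.Half (pw)

variable {k : Type u} [Field k] {𝒱 : VarClass k}

/-- The quotients `t n / s n` converge to the element `L` of `[0, ∞]`. -/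
def QuotLim (t s : ℕ → ℕ) (L : ℝ≥0∞) : Prop :=
  Tendsto (fun n => (t n : ℝ≥0∞) / s n) atTop (𝓝 L)

/-- The index law for two functions `t` and `m` on varieties, with bounds given by the function `b`
and with the property `Good` of varieties, on the products `Z × X^n`, where `pw X n` is the product
of `n + 1` copies of `X`: there is `N` in `{1, 2, …, ∞}` such that `t(X^n) / m(X^n)` tends to `N`,
and `N = 1` if and only if all powers of `X` are `Good`; and for every `Z` with `b(Z) ≠ 0` there are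
`P` in `{1, 2, …, ∞}` and an integer `0 ≤ q ≤ b(Z)` with `N ≤ P` and `N q ≤ P` such that
`t(Z × X^n) / m(X^n)` tends to `P`, `m(Z × X^n) / m(X^n)` tends to `q` if `N` is finite,
`t(Z × X^n) / m(Z × X^n)` tends to `P / q`, and `P = q` if and only if all `Z × X^n` are `Good`;
otherwise `m(Z × X^n)` is asymptotically at most `b(Z) / (b(Z) + 1)` times `t(Z × X^n)`, and if
`N ≠ 1` at most half of `t(Z × X^n)`. -/
def IndexLaw (t m b : 𝒱.Obj → ℕ) (Good : 𝒱.Obj → Prop) (X : 𝒱.Obj) : Prop :=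
  ∃ N : ℕ∞, 1 ≤ N ∧ QuotLim (fun n => t (pw X n)) (fun n => m (pw X n)) N ∧
    (N = 1 ↔ ∀ n, Good (pw X n)) ∧
    ∀ Z : 𝒱.Obj, b Z ≠ 0 → ∃ (P : ℕ∞) (q : ℕ), N ≤ P ∧ N * q ≤ P ∧ q ≤ b Z ∧
      QuotLim (fun n => t (Z.prod (pw X n))) (fun n => m (pw X n)) P ∧
      (N ≠ ⊤ → QuotLim (fun n => m (Z.prod (pw X n))) (fun n => m (pw X n)) q) ∧
      QuotLim (fun n => t (Z.prod (pw X n))) (fun n => m (Z.prod (pw X n)))
        ((P : ℝ≥0∞) / q) ∧
      (P = q ↔ ∀ n, Good (Z.prod (pw X n))) ∧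
      (P ≠ q → AtMost ((b Z : ℝ) / (b Z + 1)) (fun n => m (Z.prod (pw X n)))
        (fun n => t (Z.prod (pw X n)))) ∧
      (N ≠ 1 → AtMost (1 / 2) (fun n => m (Z.prod (pw X n)))
        (fun n => t (Z.prod (pw X n))))

end Pool.Agent.V1142.XZ
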