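import Pool.Agent.V1142.XZ.Mot
import Pool.Agent.V1142.XZ.LawDefs

/-!
# The index law for two systems of classes
-/

open CategoryTheory AlgebraicGeometry Filter Topology

open scoped ENNReal

universe u v

set_option linter.unusedSectionVars false

namespace Pool.Agent.V1142.XZ

open Module
open Pool.Agent.H914 Pool.Agent.H914.VarClass Pool.Agent.H914.VarClass.Obj
  Pool.Agent.H914.WeilCohomology Pool.Agent.Y133.Half Pool.Agent.Y133.Half.Sys

variable {k : Type u} [Field k] {𝒱 : VarClass k} {ops : CycleOps 𝒱}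
  {W : WeilCohomology.{u, v} ops} {S T : Sys W}

/-- **The index law for two systems of classes.** -/
theorem indexLaw (hST : ∀ X, S.C X ≤ T.C X) {t m : 𝒱.Obj → ℕ} {Good : 𝒱.Obj → Prop}
    (ht : ∀ Y, t Y = finrank W.K (T.C Y)) (hm : ∀ Y, m Y = S.a Y)
    (hG : ∀ Y, (S.C Y = T.C Y ∧ S.Num Y = ⊥) ↔ Good Y) (X : 𝒱.Obj) [Nontrivial (W.H X)] :
    IndexLaw t m (fun Z => finrank W.K (W.H Z)) Good X := by
  obtain ⟨N, h1, h2, h3, h4⟩ := full_law hST X
  have e1 : t = fun Y => finrank W.K (T.C Y) := funext ht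
  have e2 : m = fun Y => S.a Y := funext hm
  subst e1 e2
  refine ⟨N, h1, h2, ?_, fun Z hZ => ?_⟩
  · rw [h3]
    exact forall_congr' fun n => hG _
  · haveI : Nontrivial (W.H Z) := Module.nontrivial_of_finrank_pos (R := W.K)
      (Nat.pos_of_ne_zero hZ)
    obtain ⟨P, q, k1, k2, k3, k4, k5, k6, k7⟩ := h4 Z inferInstance
    refine ⟨P, q, k1, k2, k3, k4, fun hN => ?_, k6, ?_, fun hne => ?_, fun hN => ?_⟩
    · have h5 := (k5 hN)
      unfold QuotLim
      exact h5
    · rw [k7]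
      exact forall_congr' fun n => hG _
    · exact atMost_of_tendsto (h1.trans k1) k3 (q_le_P h1 k2) hne k6
    · refine atMost_half_of_tendsto (h1.trans k1) ?_ k6
      refine le_trans ?_ k2
      have h6 := Order.add_one_le_of_lt (lt_of_le_of_ne h1 (Ne.symm hN))
      rw [one_add_one_eq_two] at h6
      push_cast
      exact mul_le_mul_left h6 _

/-- **The index law for two classes of cohomology classes.** -/
theorem indexLaw_pred (Q R : ClassPred W) (hQR : ∀ Y j c, Q.P Y j c → R.P Y j c)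
    {t m : 𝒱.Obj → ℕ} {Good : 𝒱.Obj → Prop}
    (ht : ∀ Y, t Y = dimOf W {c | ∃ j, R.P Y j c}) (hm : ∀ Y, m Y = Q.sys.a Y)
    (hG : ∀ Y, ((∀ j c, R.P Y j c → Q.P Y j c) ∧ Q.sys.Num Y = ⊥) ↔ Good Y) (X : 𝒱.Obj)
    [Nontrivial (W.H X)] : IndexLaw t m (fun Z => finrank W.K (W.H Z)) Good X := by
  have hle : ∀ Y, Q.sys.C Y ≤ R.sys.C Y := by
    intro Y
    refine Submodule.span_le.2 ?_
    rintro c ⟨j, hc⟩
    exact ClassPred.sp_of (Q := R) (hQR Y j c hc)
  refine indexLaw hle ht hm (fun Y => ?_) X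
  rw [← hG]
  refine and_congr ?_ Iff.rfl
  constructor
  · intro h1 j c hc
    have h2 : c ∈ Q.sys.C Y := by
      rw [h1]
      exact ClassPred.sp_of (Q := R) hc
    have h3 := ClassPred.sp_proj (Q := Q) h2 j
    rw [proj_same _ (R.gr hc)] at h3
    exact h3
  · intro h1
    apply le_antisymm (hle Y)
    refine Submodule.span_le.2 ?_
    rintro c ⟨j, hc⟩
    exact ClassPred.sp_of (Q := Q) (h1 j c hc)

end Pool.Agent.V1142.XZ
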