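import Pool.Agent.V1142.XZ.Fac

/-!
# Asymptotics of the ranks of intersection forms on the products of a variety with powers
-/

open CategoryTheory AlgebraicGeometry Filter Topology

universe u v

set_option linter.unusedSectionVars false

namespace Pool.Agent.V1142.XZ

open Module
open Pool.Agent.H914 Pool.Agent.H914.VarClass Pool.Agent.H914.VarClass.Obj
  Pool.Agent.H914.WeilCohomology Pool.Agent.Y133.Half Pool.Agent.Y133.Half.Sys

variable {k : Type u} [Field k] {𝒱 : VarClass k} {ops : CycleOps 𝒱}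
  {W : WeilCohomology.{u, v} ops} {X Y Z Z' P Q M N : 𝒱.Obj} {S : Sys W}

/-- Push-forwards are operators of the system. -/
lemma Op_push (f : X ⟶ Y) : W.push f ∈ S.Op X Y := by
  have h : W.corr (W.push (Obj.lift (𝟙 X) f) (1 : W.H X)) = W.push f := by
    apply LinearMap.ext
    intro a
    rw [corr_apply, ← W.push_mul, one_mul, ← W.map_comp, ← W.push_comp, Obj.lift_fst,
      Obj.lift_snd, W.map_id]
  rw [← h]
  exact Op.corr (S.push _ (S.one X))

/-- Products with classes of the system are operators of the system. -/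
lemma Op_mulL {c : W.H Z} (hc : c ∈ S.C Z) : LinearMap.mulLeft W.K c ∈ S.Op Z Z := by
  have h : W.corr (W.push (diag Z) c) = LinearMap.mulLeft W.K c := by
    apply LinearMap.ext
    intro a
    rw [W.corr_diag]
    rfl
  rw [← h]
  exact Op.corr (S.push _ hc)

/-- The operator `x ↦ tr (l x) 1`. -/
noncomputable def rk1 (W : WeilCohomology.{u, v} ops) {Z : 𝒱.Obj} (l : W.H Z) (Q : 𝒱.Obj) :
    W.H Z →ₗ[W.K] W.H Q :=
  (W.tr Z ∘ₗ LinearMap.mulLeft W.K l).smulRight 1

lemma rk1_apply (l : W.H Z) (x : W.H Z) : rk1 W l Q x = W.tr Z (l * x) • 1 := rfl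

lemma rk1_mem {l : W.H Z} (hl : l ∈ S.C Z) : rk1 W l Q ∈ S.Op Z Q := by
  have e : rk1 W l Q = W.push (snd Z Q) ∘ₗ (W.map (fst Z Q)).toLinearMap ∘ₗ
      LinearMap.mulLeft W.K l := by
    apply LinearMap.ext
    intro x
    rw [rk1_apply]
    exact (W.push_snd' (l * x)).symm
  rw [e]
  exact Op.comp (Op_push _) (Op.comp (Op.map _) (Op_mulL hl))

lemma rk1_comp {l : W.H Z} {l' : W.H Q} (h' : W.tr Q l' = 1) :
    rk1 W l' P ∘ₗ rk1 W l Q = rk1 W l P := by
  apply LinearMap.ext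
  intro x
  rw [LinearMap.comp_apply, rk1_apply l, map_smul, rk1_apply, mul_one, h', one_smul, rk1_apply]

lemma rk1_ne {l : W.H Z} (h : W.tr Z l = 1) (hQ : (1 : W.H Q) ≠ 0) : rk1 W l Q ≠ 0 := by
  intro h0
  have h1 := congrArg (fun f : W.H Z →ₗ[W.K] W.H Q => f 1) h0
  simp only [rk1_apply, mul_one, h, one_smul, LinearMap.zero_apply] at h1
  exact hQ h1

/-- The part of `X × Q` cut out by an idempotent of rank one. -/
lemma r_rk1_le {l : W.H X} (hl : l ∈ S.C X) (hl1 : W.tr X l = 1) (N Z : 𝒱.Obj) :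
    S.r X (rk1 W l X) (N.prod Z) ≤ S.a (N.prod Z) := by
  let u : W.H N →ₗ[W.K] W.H (X.prod N) := (W.map (snd X N)).toLinearMap
  let w : W.H (X.prod N) →ₗ[W.K] W.H N := W.push (snd X N) ∘ₗ
    LinearMap.mulLeft W.K (W.map (fst X N) l)
  have hu : u ∈ S.Op N (X.prod N) := Op.map _
  have hw : w ∈ S.Op (X.prod N) N := Op.comp (Op_push _) (Op_mulL (S.map _ hl))
  have hwu : w ∘ₗ u = LinearMap.id := by
    apply LinearMap.ext
    intro y
    have h1 : w (u y) = W.push (snd X N) (W.map (fst X N) l * W.map (snd X N) y) := rfl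
    rw [LinearMap.comp_apply, h1, WeilCohomology.push_snd, hl1, one_smul]
    rfl
  have huw : u ∘ₗ w = extOp W (rk1 W l X) (1 : Module.End W.K (W.H N)) := by
    apply xp_ext
    intro i j x _ y _
    have h1 : (u ∘ₗ w) (xp W x y) = W.map (snd X N) (W.push (snd X N) (W.map (fst X N) l *
      (W.map (fst X N) x * W.map (snd X N) y))) := rfl
    rw [h1, ← mul_assoc, ← map_mul, WeilCohomology.push_snd, extOp_xp, rk1_apply, xp_smul_left,
      map_smul, Module.End.one_apply, xp_def, map_one, one_mul]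
  have h := r_factor S hu hw (by rw [hwu]; rfl) Z
  rw [hwu, huw, r_assoc] at h
  exact h.trans (S.r_one (P := N) (Z := Z)).le

/-- The products which are used for the asymptotics. -/
noncomputable def BB (X : 𝒱.Obj) (q l : ℕ) : 𝒱.Obj := (pw X q).prod ((pw X l).prod (pw X l))

lemma r_up {g : Module.End W.K (W.H Z)} (hg : g ∈ S.Op Z Z) (hgg : g ∘ₗ g = g) (X : 𝒱.Obj)
    (q l : ℕ) : S.r Z g (BB X q l) ≤
      finrank W.K (LinearMap.range g) * finrank W.K (W.H X) ^ (q + 1) * S.al X l := by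
  rw [BB, ← S.r_assoc]
  have hee : extOp W g (1 : Module.End W.K (W.H (pw X q))) ∘ₗ extOp W g 1 = extOp W g 1 := by
    have := extOp_mul (W := W) g g (1 : Module.End W.K (W.H (pw X q))) 1
    change extOp W g 1 * extOp W g 1 = _
    rw [this, mul_one]
    change extOp W (g ∘ₗ g) 1 = _
    rw [hgg]
  have hm : extOp W g (1 : Module.End W.K (W.H (pw X q))) ∈
      S.Op (Z.prod (pw X q)) (Z.prod (pw X q)) := Op.ext hg Op.id
  have h := S.r_le_rank (P := Z.prod (pw X q)) hm hee (pw X l)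
  have h11 : (1 : Module.End W.K (W.H (pw X q))) ∘ₗ 1 = 1 := rfl
  rw [finrank_extOp hgg h11, rank_one, finrank_pw] at h
  exact h

/-- The regularity condition for the growth of the ranks of the intersection forms on the powers
of `X`. -/
structure Reg (S : Sys W) (X : 𝒱.Obj) : Prop where
  lam : ∃ l ∈ S.C X, W.tr X l = 1
  lim : Tendsto (fun l => (S.al X (l + 1) : ℝ) / S.al X l) atTop
    (𝓝 ((finrank W.K (W.H X) : ℝ) ^ 2))

lemma Reg.one_ne (h : Reg S X) : (1 : W.H X) ≠ 0 := by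
  obtain ⟨l, _, hl⟩ := h.lam
  exact one_ne_zero_of (ne_zero_of_tr hl)

lemma Reg.bpos (h : Reg S X) : 0 < finrank W.K (W.H X) := by
  have : Nontrivial (W.H X) := ⟨⟨1, 0, h.one_ne⟩⟩
  exact Module.finrank_pos

lemma Reg.pos (h : Reg S X) (n : ℕ) : 0 < S.al X n := by
  obtain ⟨l, hl, hl1⟩ := h.lam
  obtain ⟨m, hm, hm1⟩ := S.exists_lam hl hl1 n
  refine S.a_pos (xp_mem_C S hm hm) ?_
  rw [tr_xp, hm1, mul_one]

lemma Reg.pos' (h : Reg S X) (n : ℕ) : (0 : ℝ) < S.al X n := by exact_mod_cast h.pos n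

lemma Reg.lim_add (h : Reg S X) (j : ℕ) :
    Tendsto (fun l => (S.al X (l + j) : ℝ) / S.al X l) atTop
      (𝓝 ((finrank W.K (W.H X) : ℝ) ^ (2 * j))) := by
  have h1 := Pool.Agent.Y129.tendsto_quot_add (α := fun l => S.al X l)
    (q := finrank W.K (W.H X) ^ 2) h.pos (by
      have := h.lim
      push_cast
      exact this) j
  push_cast at h1
  rw [← pow_mul] at h1
  exact h1

lemma Reg.odd (h : Reg S X) (j : ℕ) :
    Tendsto (fun l => (S.a (BB X (2 * j + 1) l) : ℝ) / S.al X l) atTop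
      (𝓝 ((finrank W.K (W.H X) : ℝ) ^ (2 * j + 1 + 1))) := by
  have h1 := h.lim_add (j + 1)
  have e : 2 * (j + 1) = 2 * j + 1 + 1 := by ring
  rw [e] at h1
  refine h1.congr ?_
  intro l
  rw [BB, S.a_pw X (m := 2 * j + 1) (l := l) (n := l + (j + 1)) (by ring)]

lemma sq_const {c : ℝ} {α : ℕ → ℕ} (hα : ∀ l, (0 : ℝ) < α l) {f : ℕ → ℕ} {g : ℕ → ℝ}
    (hg : Tendsto g atTop (𝓝 c)) (h1 : ∀ l, g l * α l ≤ f l) (h2 : ∀ l, (f l : ℝ) ≤ c * α l) :
    Tendsto (fun l => (f l : ℝ) / α l) atTop (𝓝 c) := by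
  refine tendsto_of_tendsto_of_tendsto_of_le_of_le hg tendsto_const_nhds ?_ ?_
  · intro l
    exact (le_div_iff₀ (hα l)).2 (h1 l)
  · intro l
    exact (div_le_iff₀ (hα l)).2 (h2 l)

lemma a_up (S : Sys W) (X : 𝒱.Obj) (q l : ℕ) :
    S.a (BB X q l) ≤ finrank W.K (W.H X) ^ (q + 1) * S.al X l := by
  rw [← finrank_pw]
  exact S.a_le _ _

lemma Reg.even (h : Reg S X) (j : ℕ) :
    Tendsto (fun l => (S.a (BB X (2 * j) l) : ℝ) / S.al X l) atTop
      (𝓝 ((finrank W.K (W.H X) : ℝ) ^ (2 * j + 1))) := by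
  set b := finrank W.K (W.H X) with hb
  obtain ⟨l₀, hl₀, hl1⟩ := h.lam
  set g := rk1 W l₀ X with hg
  have hgm : g ∈ S.Op X X := rk1_mem hl₀
  have hgg : g ∘ₗ g = g := rk1_comp hl1
  have hg0 : g ≠ 0 := rk1_ne hl1 h.one_ne
  have h1 := h.lim_add (j + 1)
  have h2 : Tendsto (fun l => (S.al X (l + (j + 1)) : ℝ) / S.al X l + ((b : ℝ) ^ (2 * j + 1) -
      b * (b : ℝ) ^ (2 * j + 1))) atTop (𝓝 ((b : ℝ) ^ (2 * j + 1))) := by
    have h3 := h1.add_const ((b : ℝ) ^ (2 * j + 1) - b * (b : ℝ) ^ (2 * j + 1))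
    have e : (b : ℝ) ^ (2 * (j + 1)) + ((b : ℝ) ^ (2 * j + 1) - b * (b : ℝ) ^ (2 * j + 1)) =
        (b : ℝ) ^ (2 * j + 1) := by ring
    rw [← hb, e] at h3
    exact h3
  refine sq_const h.pos' h2 ?_ ?_
  · intro l
    have h4 := S.r_lower (P := X) (P₀ := pw X (2 * j)) hgm hgg hg0 (pw X l)
    have h5 := r_rk1_le (S := S) hl₀ hl1 (pw X (2 * j)) ((pw X l).prod (pw X l))
    have h6 : S.a ((X.prod (pw X (2 * j))).prod ((pw X l).prod (pw X l))) =
        S.al X (l + (j + 1)) := by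
      rw [S.a_iso (prodCongr (prodComm X (pw X (2 * j))) (Iso.refl _))]
      exact S.a_pw X (m := 2 * j + 1) (l := l) (n := l + (j + 1)) (by ring)
    rw [h6, finrank_pw, ← hb] at h4
    have h7 : S.al X (l + (j + 1)) + b ^ (2 * j + 1) * S.al X l ≤
        S.a (BB X (2 * j) l) + b * b ^ (2 * j + 1) * S.al X l := by
      refine h4.trans (Nat.add_le_add_right h5 _)
    have h8 : (S.al X (l + (j + 1)) : ℝ) + (b : ℝ) ^ (2 * j + 1) * S.al X l ≤
        S.a (BB X (2 * j) l) + b * (b : ℝ) ^ (2 * j + 1) * S.al X l := by exact_mod_cast h7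
    have h9 := h.pos' l
    have e2 : ((S.al X (l + (j + 1)) : ℝ) / S.al X l + ((b : ℝ) ^ (2 * j + 1) -
      b * (b : ℝ) ^ (2 * j + 1))) * S.al X l = S.al X (l + (j + 1)) +
        ((b : ℝ) ^ (2 * j + 1) - b * (b : ℝ) ^ (2 * j + 1)) * S.al X l := by
      rw [add_mul, div_mul_cancel₀ _ h9.ne']
    rw [e2]
    linarith
  · intro l
    exact_mod_cast a_up S X (2 * j) l

/-- The ranks of the intersection forms on the powers. -/
theorem Reg.a_lim (h : Reg S X) (q : ℕ) :
    Tendsto (fun l => (S.a (BB X q l) : ℝ) / S.al X l) atTop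
      (𝓝 ((finrank W.K (W.H X) : ℝ) ^ (q + 1))) := by
  rcases Nat.even_or_odd' q with ⟨j, rfl | rfl⟩
  · exact h.even j
  · exact h.odd j

lemma finrank_compl' {g : Module.End W.K (W.H P)} (hg : g * g = g) :
    (1 - g) * (1 - g) = 1 - g ∧
    finrank W.K (LinearMap.range (1 - g)) + finrank W.K (LinearMap.range g) =
      finrank W.K (W.H P) := finrank_compl hg

/-- The part of a power cut out by an idempotent. -/
theorem Reg.r_lim (h : Reg S X) {m : ℕ} {e : Module.End W.K (W.H (pw X m))}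
    (he : e ∈ S.Op (pw X m) (pw X m)) (hee : e * e = e) (q : ℕ) :
    Tendsto (fun l => (S.r (pw X m) e (BB X q l) : ℝ) / S.al X l) atTop
      (𝓝 (finrank W.K (LinearMap.range e) * (finrank W.K (W.H X) : ℝ) ^ (q + 1))) := by
  set b := finrank W.K (W.H X) with hb
  obtain ⟨he1, he2⟩ := finrank_compl' hee
  rw [finrank_pw, ← hb] at he2
  have h1 := h.a_lim (m + q + 1)
  set c : ℝ := finrank W.K (LinearMap.range (1 - e)) * (b : ℝ) ^ (q + 1) with hc
  have h2 : Tendsto (fun l => (S.a (BB X (m + q + 1) l) : ℝ) / S.al X l - c) atTop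
      (𝓝 (finrank W.K (LinearMap.range e) * (b : ℝ) ^ (q + 1))) := by
    have h3 := h1.sub_const c
    have e0 : (b : ℝ) ^ (m + q + 1 + 1) - c =
        finrank W.K (LinearMap.range e) * (b : ℝ) ^ (q + 1) := by
      have e1 : (finrank W.K (LinearMap.range (1 - e)) : ℝ) + finrank W.K (LinearMap.range e) =
          (b : ℝ) ^ (m + 1) := by exact_mod_cast he2
      have e2 : (b : ℝ) ^ (m + q + 1 + 1) = (b : ℝ) ^ (m + 1) * (b : ℝ) ^ (q + 1) := by
        rw [← pow_add]; congr 1; ring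
      rw [e2, ← e1, hc]
      ring
    rw [← hb, e0] at h3
    exact h3
  refine sq_const h.pos' h2 ?_ ?_
  · intro l
    have h4 := r_compl S he hee (BB X q l)
    have h5 := r_up (S := S) (Submodule.sub_mem _ Op.id he : 1 - e ∈ S.Op (pw X m) (pw X m))
      he1 X q l
    have h6 : S.a ((pw X m).prod (BB X q l)) = S.a (BB X (m + q + 1) l) :=
      S.a_iso ((θ₃ (pw X m) (pw X q) ((pw X l).prod (pw X l))).symm ≪≫
        prodCongr (pwAdd X m q) (Iso.refl _))
    rw [h6] at h4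
    have h4' : (S.r (pw X m) e (BB X q l) : ℝ) + S.r (pw X m) (1 - e) (BB X q l) =
        S.a (BB X (m + q + 1) l) := by exact_mod_cast h4
    have h5' : (S.r (pw X m) (1 - e) (BB X q l) : ℝ) ≤ c * S.al X l := by
      rw [hc]; exact_mod_cast h5
    rw [sub_mul, div_mul_cancel₀ _ (h.pos' l).ne']
    linarith
  · intro l
    exact_mod_cast r_up (S := S) he hee X q l

/-- The part cut out by an idempotent which factors through the powers of `X`. -/
theorem Reg.fac_lim (h : Reg S X) {e : Module.End W.K (W.H Z)} (he : Fac S X Z e) (q : ℕ) :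
    Tendsto (fun l => (S.r Z e (BB X q l) : ℝ) / S.al X l) atTop
      (𝓝 (finrank W.K (LinearMap.range e) * (finrank W.K (W.H X) : ℝ) ^ (q + 1))) := by
  have hfin := he
  induction he with
  | zero =>
    have e0 : ∀ l, S.r Z 0 (BB X q l) = 0 := by
      intro l
      have := S.r_add_le (P := Z) (Z := BB X q l) 0 0
      have h2 := r_up (S := S) (Z := Z) (g := 0) (Submodule.zero_mem _)
        (LinearMap.zero_comp _) X q l
      rw [LinearMap.range_zero, finrank_bot, zero_mul, zero_mul] at h2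
      exact Nat.le_zero.1 h2
    have hz : finrank W.K (LinearMap.range (0 : Module.End W.K (W.H Z))) = 0 := by
      rw [LinearMap.range_zero, finrank_bot]
    have h0 : Tendsto (fun _ : ℕ => (0 : ℝ)) atTop (𝓝 0) := tendsto_const_nhds
    rw [hz, Nat.cast_zero, zero_mul]
    refine h0.congr fun l => ?_
    rw [e0, Nat.cast_zero, zero_div]
  | @add e he m u w hu hw h1 h2 h3 h4 ih =>
    have ih' := ih he
    have hwu : (w ∘ₗ u : Module.End W.K (W.H (pw X m))) * (w ∘ₗ u) = w ∘ₗ u := by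
      have : (w ∘ₗ u : Module.End W.K (W.H (pw X m))) * (w ∘ₗ u) = w ∘ₗ (u ∘ₗ w ∘ₗ u) := rfl
      rw [this, h1]
    have huw : (u ∘ₗ w : Module.End W.K (W.H Z)) * (u ∘ₗ w) = u ∘ₗ w := by
      have : (u ∘ₗ w : Module.End W.K (W.H Z)) * (u ∘ₗ w) = (u ∘ₗ w ∘ₗ u) ∘ₗ w := rfl
      rw [this, h1]
    have e1 : e * (u ∘ₗ w) = 0 := by
      have : e * (u ∘ₗ w) = (e ∘ₗ u) ∘ₗ w := rfl
      rw [this, h3, LinearMap.zero_comp]
    have e2 : (u ∘ₗ w : Module.End W.K (W.H Z)) * e = 0 := by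
      have : (u ∘ₗ w : Module.End W.K (W.H Z)) * e = u ∘ₗ (w ∘ₗ e) := rfl
      rw [this, h4, LinearMap.comp_zero]
    have key := h.r_lim (Op.comp hw hu) hwu q
    have hr : ∀ l, S.r Z (u ∘ₗ w) (BB X q l) = S.r (pw X m) (w ∘ₗ u) (BB X q l) := fun l =>
      r_factor_eq S hu hw h1 h2 _
    have hrk := finrank_factor (K := W.K) h1
    have hadd := finrank_add_idem he.idem huw e1 e2
    have hsum := ih'.add key
    refine sq_const h.pos' (g := fun l => (S.r Z e (BB X q l) : ℝ) / S.al X l +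
      (S.r (pw X m) (w ∘ₗ u) (BB X q l) : ℝ) / S.al X l) ?_ ?_ ?_
    · have e3 : (finrank W.K (LinearMap.range e) : ℝ) *
          (finrank W.K (W.H X) : ℝ) ^ (q + 1) + (finrank W.K (LinearMap.range (w ∘ₗ u)) : ℝ) *
          (finrank W.K (W.H X) : ℝ) ^ (q + 1) =
          (finrank W.K (LinearMap.range (e + u ∘ₗ w)) : ℝ) *
          (finrank W.K (W.H X) : ℝ) ^ (q + 1) := by
        rw [hadd, hrk]
        push_cast
        ring
      rw [← e3]
      exact hsum
    · intro l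
      have h5 := r_add_ge S he.mem (Op.comp hu hw) he.idem huw e1 e2 (BB X q l)
      rw [hr] at h5
      have h5' : (S.r Z e (BB X q l) : ℝ) + S.r (pw X m) (w ∘ₗ u) (BB X q l) ≤
          S.r Z (e + u ∘ₗ w) (BB X q l) := by exact_mod_cast h5
      rw [add_mul, div_mul_cancel₀ _ (h.pos' l).ne', div_mul_cancel₀ _ (h.pos' l).ne']
      exact h5'
    · intro l
      exact_mod_cast r_up (S := S) hfin.mem hfin.idem X q l

/-- `X^(q+1) × X^(l+1) × X^(l+1)` as a power. -/
noncomputable def BBiso (X : 𝒱.Obj) {q l n : ℕ} (hn : q + (l + l + 1) + 1 = n) :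
    BB X q l ≅ pw X n :=
  prodCongr (Iso.refl _) (pwAdd X l l) ≪≫ pwAdd X q (l + l + 1) ≪≫
    eqToIso (congrArg (pw X) hn)

lemma tendsto_pw {f g : 𝒱.Obj → ℕ} {X : 𝒱.Obj} {F : Filter ℝ}
    (hf : ∀ q l n, q + (l + l + 1) + 1 = n → f (pw X n) = f (BB X q l))
    (hg : ∀ q l n, q + (l + l + 1) + 1 = n → g (pw X n) = g (BB X q l))
    (h0 : Tendsto (fun l => (f (BB X 0 l) : ℝ) / g (BB X 0 l)) atTop F)
    (h1 : Tendsto (fun l => (f (BB X 1 l) : ℝ) / g (BB X 1 l)) atTop F) :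
    Tendsto (fun n => (f (pw X n) : ℝ) / g (pw X n)) atTop F := by
  rw [← tendsto_add_atTop_iff_nat 2]
  apply Pool.Agent.Y129.tendsto_of_even_odd
  · refine h0.congr fun l => ?_
    rw [hf 0 l (2 * l + 2) (by ring), hg 0 l (2 * l + 2) (by ring)]
  · refine h1.congr fun l => ?_
    rw [hf 1 l (2 * l + 1 + 2) (by ring), hg 1 l (2 * l + 1 + 2) (by ring)]

/-- **The asymptotics of the part cut out by an idempotent which factors through powers.** -/
theorem Reg.fac_tendsto (h : Reg S X) {e : Module.End W.K (W.H Z)} (he : Fac S X Z e) :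
    Tendsto (fun n => (S.r Z e (pw X n) : ℝ) / S.a (pw X n)) atTop
      (𝓝 (finrank W.K (LinearMap.range e))) := by
  have hb : (0 : ℝ) < finrank W.K (W.H X) := by exact_mod_cast h.bpos
  have key : ∀ q, Tendsto (fun l => (S.r Z e (BB X q l) : ℝ) / S.a (BB X q l)) atTop
      (𝓝 (finrank W.K (LinearMap.range e))) := by
    intro q
    have h1 := (h.fac_lim he q).div (h.a_lim q) (by positivity)
    rw [mul_div_assoc, div_self (by positivity), mul_one] at h1
    refine h1.congr fun l => ?_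
    rw [Pi.div_apply, div_div_div_cancel_right₀ (h.pos' l).ne']
  exact tendsto_pw (f := fun Q => S.r Z e Q) (g := fun Q => S.a Q)
    (fun q l n hn => (S.r_iso e (BBiso X hn)).symm)
    (fun q l n hn => (S.a_iso (BBiso X hn)).symm) (key 0) (key 1)

/-- **The asymptotics of the rank of the intersection form on `Z × X^n`.** -/
theorem Reg.max_tendsto (h : Reg S X) {e : Module.End W.K (W.H Z)} (he : Fac S X Z e)
    (hmax : ∀ h', Fac S X Z h' →
      finrank W.K (LinearMap.range h') ≤ finrank W.K (LinearMap.range e)) :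
    Tendsto (fun n => (S.a (Z.prod (pw X n)) : ℝ) / S.a (pw X n)) atTop
      (𝓝 (finrank W.K (LinearMap.range e))) := by
  refine (h.fac_tendsto he).congr fun n => ?_
  rw [← r_compl S he.mem he.idem (pw X n), r_compl_eq_zero S he hmax n, add_zero]

end Pool.Agent.V1142.XZ
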