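import Pool.Agent.V1142.XZ.Lim
import Pool.Agent.H914R2.GBasic

/-!
# Nondegenerate systems on the products of a variety with powers
-/

open CategoryTheory AlgebraicGeometry Filter Topology

open scoped ENNReal

universe u v

set_option linter.unusedSectionVars false

namespace Pool.Agent.V1142.XZ

open Module
open Pool.Agent.H914 Pool.Agent.H914.VarClass Pool.Agent.H914.VarClass.Obj
  Pool.Agent.H914.WeilCohomology Pool.Agent.Y133.Half Pool.Agent.Y133.Half.Sys

variable {k : Type u} [Field k] {𝒱 : VarClass k} {ops : CycleOps 𝒱}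
  {W : WeilCohomology.{u, v} ops} {X Y Z Z' P Q M N : 𝒱.Obj} {S T : Sys W}

section LinAlg

variable {K A : Type*} [Field K] [AddCommGroup A] [Module K A] [FiniteDimensional K A]

/-- The rank of a form with an isotropic subspace which meets neither radical. -/
lemma two_mul_le_rk (β : A →ₗ[K] A →ₗ[K] K) (N : Submodule K A)
    (h0 : ∀ x ∈ N, ∀ y ∈ N, β x y = 0) (h1 : ∀ x ∈ N, (∀ y, β x y = 0) → x = 0)
    (h2 : ∀ y ∈ N, (∀ x, β x y = 0) → y = 0) : 2 * finrank K N ≤ rk β := by
  let ρR : LinearMap.range β →ₗ[K] Module.Dual K N :=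
    N.subtype.dualMap.domRestrict (LinearMap.range β)
  -- surjectivity
  have hsurj : Function.Surjective ρR := by
    have e1 : Function.Injective (β.flip ∘ₗ N.subtype) := by
      rw [← LinearMap.ker_eq_bot, LinearMap.ker_eq_bot']
      intro y hy
      apply Subtype.ext
      exact h2 y y.2 fun x => congrArg (fun f : A →ₗ[K] K => f x) hy
    have e2 : Function.Surjective (β.flip ∘ₗ N.subtype).dualMap :=
      LinearMap.dualMap_surjective_of_injective e1
    intro φ
    obtain ⟨Φ, hΦ⟩ := e2 φ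
    obtain ⟨a, ha⟩ := (Module.evalEquiv K A).surjective Φ
    refine ⟨⟨β a, ⟨a, rfl⟩⟩, ?_⟩
    rw [← hΦ, ← ha]
    apply LinearMap.ext
    intro y
    rfl
  have hker : finrank K N ≤ finrank K (LinearMap.ker ρR) := by
    let τ : N →ₗ[K] LinearMap.ker ρR :=
      { toFun := fun x => ⟨⟨β (x : A), ⟨(x : A), rfl⟩⟩, by
          rw [LinearMap.mem_ker]
          apply LinearMap.ext
          intro y
          exact h0 x x.2 y y.2⟩
        map_add' := fun x y => by
          apply Subtype.ext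
          apply Subtype.ext
          exact map_add β (x : A) (y : A)
        map_smul' := fun c x => by
          apply Subtype.ext
          apply Subtype.ext
          exact map_smul β c (x : A) }
    apply LinearMap.finrank_le_finrank_of_injective (f := τ)
    rw [injective_iff_map_eq_zero]
    intro x hx
    apply Subtype.ext
    refine h1 x x.2 fun y => ?_
    have e1 : β (x : A) = 0 := congrArg Subtype.val (congrArg Subtype.val hx)
    rw [e1, LinearMap.zero_apply]
  have h3 := LinearMap.finrank_range_add_finrank_ker (K := K) (V := LinearMap.range β)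
    (V₂ := Module.Dual K N) ρR
  rw [LinearMap.range_eq_top.2 hsurj, finrank_top] at h3
  have h4 : finrank K (Module.Dual K N) = finrank K N := Subspace.dual_finrank_eq
  rw [h4] at h3
  rw [rk]
  omega

end LinAlg

/-- Adjoints are unique. -/
lemma adj_unique {u : W.H X →ₗ[W.K] W.H Y} {u' u'' : W.H Y →ₗ[W.K] W.H X}
    (h : Adj W u u') (h' : Adj W u u'') : u' = u'' := by
  apply LinearMap.ext
  intro b
  rw [← sub_eq_zero]
  apply nondeg_right
  intro a
  rw [mul_sub, map_sub, ← h, ← h', sub_self]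

lemma adj_comp {u : W.H Y →ₗ[W.K] W.H Z} {u' : W.H Z →ₗ[W.K] W.H Y}
    {w : W.H X →ₗ[W.K] W.H Y} {w' : W.H Y →ₗ[W.K] W.H X} (h : Adj W u u') (h' : Adj W w w') :
    Adj W (u ∘ₗ w) (w' ∘ₗ u') := by
  intro a b
  rw [LinearMap.comp_apply, LinearMap.comp_apply, h, h']

lemma adj_zero_left {u' : W.H Y →ₗ[W.K] W.H X} (h : Adj W 0 u') : u' = 0 := by
  refine adj_unique h fun a b => ?_
  simp

lemma adj_zero_right {u : W.H X →ₗ[W.K] W.H Y} (h : Adj W u 0) : u = 0 := by
  apply LinearMap.ext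
  intro a
  apply W.nondeg
  intro b
  rw [h, LinearMap.zero_apply, mul_zero, map_zero]

lemma adj_one {h h' : Module.End W.K (W.H Z)} (hadj : Adj W h h') :
    Adj W (1 - h) (1 - h') := Adj.one.sub hadj

lemma mem_C_of_corr {c : W.H (X.prod Y)} (hc : W.corr c ∈ S.Op X Y) : c ∈ S.C (X.prod Y) := by
  obtain ⟨d, hd, e⟩ := mem_Op.1 hc
  have h1 : c - d = 0 := by
    apply corr_inj
    have h2 : W.corr (c - d) + W.corr d = W.corr c := by
      rw [← corr_add, sub_add_cancel]
    rw [e] at h2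
    exact right_eq_add.1 h2.symm
  rw [sub_eq_zero.1 h1]
  exact hd

lemma adj_corr {c : W.H (X.prod Y)} (hc : c ∈ PH W (X.prod Y) 0) :
    Adj W (W.corr c) (W.corr (W.map (swap Y X) c)) := tr_corr' hc

/-- The part of a class cut out by an operator on the first factor. -/
lemma corr_ext_one {h h' : Module.End W.K (W.H Z)} (hadj : Adj W h h') (he' : Ev W h')
    (c : W.H (Z.prod Q)) :
    W.corr (extOp W h (1 : Module.End W.K (W.H Q)) c) = W.corr c ∘ₗ h' := by
  have h1 := corr_extOp hadj he' (b := (1 : Module.End W.K (W.H Q))) Ev.id c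
  rw [h1]
  rfl

/-- The numerically trivial classes on a product, if none of them is on the powers of `X`. -/
lemma Fac.ext_num {h : Module.End W.K (W.H Z)} (hh : Fac S X Z h)
    (hQ : ∀ m, S.NOp Q (pw X m) = ⊥) (hQ' : ∀ m, S.NOp (pw X m) Q = ⊥)
    {x : W.H (Z.prod Q)} (hx : x ∈ S.Num (Z.prod Q)) :
    extOp W h (1 : Module.End W.K (W.H Q)) x = 0 ∧
      ∀ h', Adj W h h' → Ev W h' → extOp W h' (1 : Module.End W.K (W.H Q)) x = 0 := by
  have hev := Op.ev hh.mem
  obtain ⟨h', hh', hadj⟩ := Op.exists_adj hh.mem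
  have key : ∀ h', Adj W h h' → Ev W h' → W.corr x ∘ₗ h' = 0 := by
    intro h' hadj he'
    have e1 : h ∘ₗ W.corr (W.map (swap Q Z) x) = 0 :=
      Fac.comp_eq_zero hh hQ (NOp.corr (Num.map _ hx))
    have e2 : Adj W (h ∘ₗ W.corr (W.map (swap Q Z) x)) (W.corr x ∘ₗ h') := by
      refine adj_comp hadj ?_
      have h3 := adj_corr (W := W) (c := W.map (swap Q Z) x) (PH.map _ (S.even hx.1))
      rwa [swap_swap] at h3
    rw [e1] at e2
    exact adj_zero_left e2
  have key2 : W.corr x ∘ₗ h = 0 := by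
    have hxo : W.corr x ∈ S.NOp Z Q := NOp.corr hx
    clear key hadj hh' hev
    induction hh with
    | zero => exact LinearMap.comp_zero _
    | @add h _ m u w hu hw _ _ _ _ ih =>
      have e : W.corr x ∘ₗ (h + u ∘ₗ w) = W.corr x ∘ₗ h + (W.corr x ∘ₗ u) ∘ₗ w := by
        rw [LinearMap.comp_add]; rfl
      have e2 := NOp.comp_right hxo hu
      rw [hQ' m, Submodule.mem_bot] at e2
      rw [e, ih, e2, LinearMap.zero_comp, add_zero]
  constructor
  · apply corr_inj
    rw [corr_ext_one hadj (Op.ev hh')]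
    exact key h' hadj (Op.ev hh')
  · intro h'' hadj'' he''
    apply corr_inj
    rw [corr_ext_one (hadj''.symm hev he'') hev]
    exact key2

lemma extOp_sub_one {h : Module.End W.K (W.H Z)} (x : W.H (Z.prod Q)) :
    extOp W (1 - h) (1 : Module.End W.K (W.H Q)) x = x - extOp W h 1 x := by
  have h1 := extOp_add_left (W := W) (1 - h) h (1 : Module.End W.K (W.H Q))
  rw [sub_add_cancel, extOp_one] at h1
  have h2 := congrArg (fun f : Module.End W.K (W.H (Z.prod Q)) => f x) h1
  simp only [Module.End.one_apply, LinearMap.add_apply] at h2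
  rw [eq_sub_iff_add_eq]
  exact h2.symm

/-- The numerically trivial classes are at most half of the part of the classes of a nondegenerate
system which is cut out by the complementary idempotent. -/
theorem two_num_le (hST : ∀ X, S.C X ≤ T.C X) {h : Module.End W.K (W.H Z)} (hh : Fac S X Z h)
    (hQ : ∀ m, S.NOp Q (pw X m) = ⊥) (hQ' : ∀ m, S.NOp (pw X m) Q = ⊥)
    (hT : Nondeg T (Z.prod Q)) :
    2 * finrank W.K (S.Num (Z.prod Q)) ≤ T.r Z (1 - h) Q := by
  obtain ⟨h', hh', hadj⟩ := Op.exists_adj hh.mem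
  have hev := Op.ev hh.mem
  have hev' := Op.ev hh'
  let N : Submodule W.K (T.C (Z.prod Q)) := (S.Num (Z.prod Q)).submoduleOf (T.C (Z.prod Q))
  have hN : finrank W.K N = finrank W.K (S.Num (Z.prod Q)) :=
    (Submodule.submoduleOfEquivOfLe
      (show S.Num (Z.prod Q) ≤ T.C (Z.prod Q) from fun x hx => hST _ (Num.mem hx))).finrank_eq
  rw [← hN]
  have hadj2 : Adj W (extOp W (1 - h) (1 : Module.End W.K (W.H Q)))
      (extOp W (1 - h') (1 : Module.End W.K (W.H Q))) := by
    refine Adj.extOp (adj_one hadj) Adj.one ?_ Ev.id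
    intro b x hx
    exact Submodule.sub_mem _ hx (hev' b x hx)
  have hx1 : ∀ x : T.C (Z.prod Q), x ∈ N → ∀ y : T.C (Z.prod Q),
      T.F (Z.prod Q) (extOp W (1 - h) 1) x y = W.tr _ ((x : W.H (Z.prod Q)) * (y : W.H (Z.prod Q))) := by
    intro x hx y
    have hx' : (x : W.H (Z.prod Q)) ∈ S.Num (Z.prod Q) := hx
    rw [F_apply, extOp_sub_one, (Fac.ext_num hh hQ hQ' hx').1, sub_zero]
  have hx2 : ∀ y : T.C (Z.prod Q), y ∈ N → ∀ x : T.C (Z.prod Q),
      T.F (Z.prod Q) (extOp W (1 - h) 1) x y = W.tr _ ((x : W.H (Z.prod Q)) * (y : W.H (Z.prod Q))) := by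
    intro y hy x
    have hy' : (y : W.H (Z.prod Q)) ∈ S.Num (Z.prod Q) := hy
    rw [F_apply, hadj2, extOp_sub_one, (Fac.ext_num hh hQ hQ' hy').2 h' hadj hev', sub_zero]
  refine two_mul_le_rk _ N ?_ ?_ ?_
  · intro x hx y hy
    rw [hx1 x hx y]
    have hx' : (x : W.H (Z.prod Q)) ∈ S.Num (Z.prod Q) := hx
    have hy' : (y : W.H (Z.prod Q)) ∈ S.Num (Z.prod Q) := hy
    exact hx'.2 _ hy'.1
  · intro x hx h1
    apply Subtype.ext
    refine hT x x.2 fun y hy => ?_
    rw [← hx1 x hx ⟨y, hy⟩]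
    exact h1 _
  · intro y hy h1
    apply Subtype.ext
    refine hT y y.2 fun x hx => ?_
    rw [PH.even_comm (T.even y.2), ← hx2 y hy ⟨x, hx⟩]
    exact h1 _

/-- If the idempotent `h` captures everything, and the classes of the two systems on the powers
agree, the classes on the products with powers agree. -/
theorem eq_of_r_eq_zero (hST : ∀ X, S.C X ≤ T.C X) {h : Module.End W.K (W.H Z)}
    (hh : Fac S X Z h) (hQ : ∀ m, T.Op Q (pw X m) ≤ S.Op Q (pw X m))
    (hT : Nondeg T (Z.prod Q)) (h0 : T.r Z (1 - h) Q = 0) :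
    S.C (Z.prod Q) = T.C (Z.prod Q) := by
  apply le_antisymm (hST _)
  intro t ht
  obtain ⟨h', hh', hadj⟩ := Op.exists_adj hh.mem
  have hhT : h ∈ T.Op Z Z := Op.mono hST hh.mem
  have hF : T.F (Z.prod Q) (extOp W (1 - h) 1) = 0 :=
    LinearMap.range_eq_bot.1 (Submodule.finrank_eq_zero.1 h0)
  have hm : extOp W (1 - h) (1 : Module.End W.K (W.H Q)) ∈
      T.Op (Z.prod Q) (Z.prod Q) := Op.ext (Submodule.sub_mem _ Op.id hhT) Op.id
  have h1 : extOp W (1 - h) (1 : Module.End W.K (W.H Q)) t = 0 := by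
    refine hT _ (Op.apply (T := T) (fun _ => le_rfl) hm ht) fun y hy => ?_
    exact congrArg (fun f : T.C (Z.prod Q) →ₗ[W.K] T.C (Z.prod Q) →ₗ[W.K] W.K =>
      f ⟨t, ht⟩ ⟨y, hy⟩) hF
  rw [extOp_sub_one, sub_eq_zero] at h1
  apply mem_C_of_corr
  have h2 : W.corr t = W.corr t ∘ₗ h' := by
    conv_lhs => rw [h1]
    exact corr_ext_one hadj (Op.ev hh') t
  rw [h2]
  have h3 : h ∘ₗ W.corr (W.map (swap Q Z) t) ∈ S.Op Q Z :=
    Fac.comp_mem hST hh hQ (Op.corr (T.map _ ht))
  obtain ⟨s, hs, hs'⟩ := Op.exists_adj h3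
  have h4 : Adj W (h ∘ₗ W.corr (W.map (swap Q Z) t)) (W.corr t ∘ₗ h') := by
    refine adj_comp hadj ?_
    have h5 := adj_corr (W := W) (c := W.map (swap Q Z) t) (PH.map _ (T.even ht))
    rwa [swap_swap] at h5
  rw [adj_unique h4 hs']
  exact hs

end Pool.Agent.V1142.XZ
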