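import Pool.Agent.H914R2.StdDefs

/-!
# Motivated classes for a Weil cohomology theory: definition
-/

open CategoryTheory AlgebraicGeometry

universe u v

namespace Pool.Agent.V1142.XZ

open Pool.Agent.H914 Pool.Agent.H914.VarClass Pool.Agent.H914.VarClass.Obj
  Pool.Agent.H914.WeilCohomology

variable {k : Type u} [Field k] {𝒱 : VarClass k} {ops : CycleOps 𝒱}

/-- `IsMot W Y j c`: the class `c` is a motivated class of codimension `j` on `Y` (with
coefficients in the coefficient field of `W`). The motivated classes are the smallest family of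
classes which contains the classes of algebraic cycles and is closed under sums, multiples,
products, pull-backs, push-forwards and the inverses of the Lefschetz isomorphisms
`ξ ^ (dim Y - 2 j) : H^(2j)(Y) → H^(2 dim Y - 2j)(Y)` for the classes `ξ` of the divisors with hard
Lefschetz. -/
inductive IsMot (W : WeilCohomology.{u, v} ops) : ∀ Y : 𝒱.Obj, ℕ → W.H Y → Prop
  | cl {Y : 𝒱.Obj} {j : ℕ} {z : Y.Cycles} : Y.IsCyc j z → IsMot W Y j (W.cl Y z)
  | add {Y : 𝒱.Obj} {j : ℕ} {a b : W.H Y} : IsMot W Y j a → IsMot W Y j b →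
      IsMot W Y j (a + b)
  | smul {Y : 𝒱.Obj} {j : ℕ} (r : W.K) {a : W.H Y} : IsMot W Y j a → IsMot W Y j (r • a)
  | mul {Y : 𝒱.Obj} {i j : ℕ} {a b : W.H Y} : IsMot W Y i a → IsMot W Y j b →
      IsMot W Y (i + j) (a * b)
  | map {Y Z : 𝒱.Obj} (f : Y ⟶ Z) {j : ℕ} {a : W.H Z} : IsMot W Z j a → IsMot W Y j (W.map f a)
  | push {Y Z : 𝒱.Obj} (f : Y ⟶ Z) {j l : ℕ} : l + Y.dim = j + Z.dim → ∀ {a : W.H Y},
      IsMot W Y j a → IsMot W Z l (W.push f a)
  | lef {Y : 𝒱.Obj} {D : Y.Cycles} {j : ℕ} : Y.IsCyc 1 D → HardLefschetz W Y D →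
      2 * j ≤ Y.dim → ∀ {a : W.H Y}, a ∈ W.gr Y (2 * j) →
      IsMot W Y (Y.dim - j) (W.cl Y D ^ (Y.dim - 2 * j) * a) → IsMot W Y j a

end Pool.Agent.V1142.XZ
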