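import Pool.Agent.V1142.XZ.HrTimes
import Pool.Agent.V1142.XZ.MotDefs
import Pool.Agent.H447R3.AoC
import Pool.Agent.TH132.A.HLf

/-!
# Motivated classes and the conjecture B
-/

open CategoryTheory AlgebraicGeometry Filter Topology

open scoped ENNReal

universe u v

set_option linter.unusedSectionVars false

namespace Pool.Agent.V1142.XZ

open Module
open Pool.Agent.H914 Pool.Agent.H914.VarClass Pool.Agent.H914.VarClass.Obj
  Pool.Agent.H914.WeilCohomology Pool.Agent.Y133.Half Pool.Agent.Y133.Half.Sys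
  Pool.Agent.H281R3.HT Pool.Agent.H447

variable {k : Type u} [Field k] {𝒱 : VarClass k} {ops : CycleOps 𝒱}
  {W : WeilCohomology.{u, v} ops} {X Y Z : 𝒱.Obj}

lemma IsMot.gr {Y : 𝒱.Obj} {j : ℕ} {c : W.H Y} (h : IsMot W Y j c) : c ∈ W.gr Y (2 * j) := by
  induction h with
  | cl h => exact W.cl_mem h
  | add _ _ ha hb => exact Submodule.add_mem _ ha hb
  | smul r _ ha => exact Submodule.smul_mem _ _ ha
  | mul _ _ ha hb =>
    have := W.mul_mem ha hb
    rwa [← mul_add] at this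
  | map f _ ha => exact W.map_mem f ha
  | @push Y Z f j l hl a _ ha =>
    have h1 := W.push_mem f ha
    have e : ((2 * j : ℕ) : ℤ) + 2 * ((Z.dim : ℤ) - Y.dim) = ((2 * l : ℕ) : ℤ) := by
      push_cast; omega
    rwa [e, grZ_natCast] at h1
  | lef _ _ _ ha _ _ => exact ha

/-- The motivated classes. -/
def motPred (W : WeilCohomology.{u, v} ops) : ClassPred W where
  P := IsMot W
  gr := IsMot.gr
  zero {X j} := by
    have h := IsMot.cl (W := W) (SmVar.IsCyc.zero X.V j)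
    rwa [map_zero] at h
  add := IsMot.add
  smul := IsMot.smul
  cl := IsMot.cl
  mul := IsMot.mul
  map := IsMot.map
  push := IsMot.push

/-- The operators of degree `2 d` given by the classes of `Q`. -/
def MOp (Q : ClassPred W) (X : 𝒱.Obj) (d : ℤ) (y : Module.End W.K (W.H X)) : Prop :=
  (∃ p : ℕ, (p : ℤ) = X.dim + d ∧ ∃ c, Q.P (X.prod X) p c ∧ W.corr c = y) ∨
    ((X.dim : ℤ) + d < 0 ∧ y = 0)

variable {Q : ClassPred W}

lemma MOp_zero (d : ℤ) : MOp Q X d 0 := by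
  by_cases h : (X.dim : ℤ) + d < 0
  · exact Or.inr ⟨h, rfl⟩
  · obtain ⟨p, hp⟩ := Int.eq_ofNat_of_zero_le (not_lt.1 h)
    exact Or.inl ⟨p, hp.symm, 0, Q.zero, corr_zero W⟩

lemma mop_opAlg : OpAlg (W.gr X) (MOp Q X) where
  one := by
    refine Or.inl ⟨X.dim, by simp, W.push (diag X) 1, ?_, corr_diag_one⟩
    exact Q.push (diag X) (j := 0) (by rw [dim_prod]; omega) (ClassPred.one X)
  zero := MOp_zero
  add := by
    rintro d _ _ (⟨p, hp, c, hc, rfl⟩ | ⟨h, rfl⟩) (⟨q, hq, c', hc', rfl⟩ | ⟨h', rfl⟩)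
    · obtain rfl : p = q := by omega
      exact Or.inl ⟨p, hp, c + c', Q.add hc hc', corr_add W _ _⟩
    · omega
    · omega
    · exact Or.inr ⟨h, add_zero _⟩
  smul := by
    rintro r d _ (⟨p, hp, c, hc, rfl⟩ | ⟨h, rfl⟩)
    · exact Or.inl ⟨p, hp, _, Q.smul _ hc, corr_smul W _ _⟩
    · exact Or.inr ⟨h, smul_zero _⟩
  mul := by
    rintro d e _ _ (⟨p, hp, c, hc, rfl⟩ | ⟨h, rfl⟩) (⟨q, hq, c', hc', rfl⟩ | ⟨h', rfl⟩)
    · have h1 : W.corr c * W.corr c' = W.corr (W.push (p13 X X X)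
          (W.map (p12 X X X) c' * W.map (p23 X X X) c)) := by
        rw [corr_comp' c' (Q.sys.even (ClassPred.sp_of hc))]
        rfl
      rw [h1]
      have h2 := Q.mul (Q.map (p12 X X X) hc') (Q.map (p23 X X X) hc)
      by_cases hd : X.dim ≤ q + p
      · refine Or.inl ⟨q + p - X.dim, by omega, _, Q.push _ ?_ h2, rfl⟩
        rw [dim_prod, dim_prod]
        omega
      · refine Or.inr ⟨by omega, ?_⟩
        have h3 := W.push_mem (p13 X X X) (Q.gr h2)
        have e1 : (X.prod X).dim = X.dim + X.dim := dim_prod _ _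
        have e2 : (X.prod (X.prod X)).dim = X.dim + (X.prod X).dim := dim_prod _ _
        rw [grZ_of_neg (by rw [e2, e1]; push_cast; omega), Submodule.mem_bot] at h3
        rw [h3, corr_zero]
    · rw [mul_zero]
      exact MOp_zero _
    · rw [zero_mul]
      exact MOp_zero _
    · rw [zero_mul]
      exact MOp_zero _
  hom := by
    rintro d _ (⟨p, hp, c, hc, rfl⟩ | ⟨h, rfl⟩)
    · have := W.corr_isHom (Q.gr hc)
      rwa [show ((p : ℤ) - X.dim) = d by omega] at this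
    · intro i a ha
      exact Submodule.zero_mem _

lemma rop_mop {d : ℤ} {y : Module.End W.K (W.H X)} (h : ROp W X d y) : MOp Q X d y := by
  obtain ⟨Y, ⟨q, hq, z, hz, hY⟩ | ⟨hd, hY⟩, rfl⟩ := h
  · exact Or.inl ⟨q, hq, _, Q.cl hz, (hY W).symm⟩
  · rw [hY]; exact MOp_zero _

lemma mulLeft_pow_apply {Y : 𝒱.Obj} (x : W.H Y) (m : ℕ) (a : W.H Y) :
    (LinearMap.mulLeft W.K x ^ m) a = x ^ m * a := by
  induction m with
  | zero => rw [pow_zero, pow_zero, one_mul]; rfl
  | succ m ih => rw [pow_succ', Module.End.mul_apply, ih, LinearMap.mulLeft_apply, pow_succ',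
      mul_assoc]

/-- **The lowering operator is motivated.** -/
lemma mot_lower {D : X.Cycles} (hD : X.IsCyc 1 D) (hHL : HardLefschetz W X D)
    {f : Module.End W.K (W.H X)}
    (t : Sl2 (wt (W.isInternal X) X.dim) (LinearMap.mulLeft W.K (W.cl X D)) f)
    (hf : IsHom (W.gr X) (-2) f) (hn : X.dim ≠ 0) : MOp (motPred W) X (-1) f := by
  apply lower_mem_of_surj mop_opAlg (W.isInternal X) W_hbd (rop_mop (rop_mulLeft hD)) hHL t hf
  rintro y (⟨p, hp, c, hc, rfl⟩ | ⟨h, -⟩)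
  swap
  · omega
  have hHL2 : HardLefschetz W (X.prod X) (boxSum ops D) := by
    have tt := TH132.A.low_prod hD t t
    refine TH132.A.hardLefschetz_of_inj (boxSum_mem hD) fun i hi a ha h0 => ?_
    by_contra ha0
    refine Sl2.e_pow_inj tt (x := a) (M := (X.prod X).dim - i) ?_ ha0 le_rfl h0
    rw [wt, scal_apply _ _ ha, node]
    congr 1
    rw [Nat.cast_sub hi]
    push_cast
    ring
  have hdim : (X.prod X).dim = X.dim + X.dim := dim_prod _ _
  obtain ⟨a, ha, hac⟩ := (hHL2 (2 * (X.dim - 1)) (by omega)).2 c (by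
    have := IsMot.gr hc
    rwa [show 2 * (X.prod X).dim - 2 * (X.dim - 1) = 2 * p by omega])
  have hpow : (LinearMap.mulLeft W.K (W.cl (X.prod X) (boxSum ops D)) ^
      ((X.prod X).dim - 2 * (X.dim - 1))) a =
      W.cl (X.prod X) (boxSum ops D) ^ ((X.prod X).dim - 2 * (X.dim - 1)) * a :=
    mulLeft_pow_apply _ _ _
  refine ⟨W.corr a, Or.inl ⟨X.dim - 1, by omega, a, ?_, rfl⟩, ?_⟩
  · refine IsMot.lef (boxSum_mem hD) hHL2 (by omega) ha ?_
    rw [← hpow, hac]
    rwa [show (X.prod X).dim - (X.dim - 1) = p by omega]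
  · rw [← corr_boxSum_pow hD, ← hac]
    congr 3
    omega

/-- **The conjecture B from the algebraicity of the motivated classes on the square.** -/
theorem B_of_mot {D : X.Cycles} (hD : X.IsCyc 1 D) (hHL : HardLefschetz W X D)
    (hA : ∀ j c, IsMot W (X.prod X) j c → c ∈ spanCycles W (X.prod X) j) :
    LefschetzB W X D := by
  have h := W.isInternal X
  have hLh : IsHom (W.gr X) 2 (LinearMap.mulLeft W.K (W.cl X D)) := by
    simpa using rop_opAlg.hom (rop_mulLeft (W := W) hD)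
  obtain ⟨f, t, hf, hfv⟩ := exists_sl2 h hLh W_hbd hHL
  have hfK : f ∈ KOp W X X (-1) := by
    by_cases hn : X.dim = 0
    · have : f = 0 := by
        apply H914.gr_ext h
        intro i a ha
        rw [LinearMap.zero_apply]
        by_cases hi : i = 0
        · have h1 := hf i a (by rw [grZ_natCast]; exact ha)
          rw [grZ_of_neg (by omega)] at h1
          exact (Submodule.mem_bot _).1 h1
        · rw [W.gr_eq_bot X i (by omega)] at ha
          rw [(Submodule.mem_bot _).1 ha, map_zero]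
      rw [this]
      exact Submodule.zero_mem _
    · rcases mot_lower hD hHL t hf hn with ⟨p, hp, c, hc, hcf⟩ | ⟨h0, -⟩
      · refine mem_KOp_iff.2 ⟨c, ?_, hcf⟩
        rw [← hp]
        exact hA p c hc
      · omega
  apply lefschetzB_of_inj hD hHL
  intro c _
  refine ⟨f ^ c, ?_, ?_⟩
  · rw [← mem_KS_iff] at hfK ⊢
    exact rop_opAlg.kspan.cast (rop_opAlg.kspan.pow hfK c) (by ring)
  · intro a ha h0
    apply f_pow_inj t _ h0
    rw [wt, scal_apply _ _ ha]
    congr 1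
    rw [node]
    push_cast; ring

lemma mot_iso {V V' : 𝒱.Obj} (θ : V ≅ V')
    (hA : ∀ j c, IsMot W V' j c → c ∈ spanCycles W V' j) :
    ∀ j c, IsMot W V j c → c ∈ spanCycles W V j := by
  have h1 := (ClassPred.sp_eq_iff (Q := motPred W) V').2 hA
  intro j c hc
  have h2 : W.map θ.inv c ∈ algSpan W V' := by
    have h3 : W.map θ.inv c ∈ (motPred W).sys.C V' := ClassPred.sp_of (IsMot.map θ.inv hc)
    rw [h1] at h3
    exact h3
  have h4 : W.map θ.hom (W.map θ.inv c) ∈ algSpan W V := (algSys W).map θ.hom h2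
  rw [← W.map_comp, θ.hom_inv_id, W.map_id] at h4
  exact spanCycles_of_algSpan h4 (IsMot.gr hc)

/-- The share, from the limit of the quotients, if `P` is at least `2 q`. -/
lemma atMost_half_of_tendsto {t a : ℕ → ℕ} {P : ℕ∞} {q : ℕ} (hP : 1 ≤ P)
    (hle : ((2 * q : ℕ) : ℕ∞) ≤ P)
    (h : Tendsto (fun n => (t n : ℝ≥0∞) / a n) atTop (𝓝 ((P : ℝ≥0∞) / q))) :
    AtMost (1 / 2) a t := by
  intro ε hε
  set x : ℝ := 1 / 2 + ε with hx
  have hx0 : 0 < x := by positivity
  have hlt2 : ENNReal.ofReal (1 / x) < (P : ℝ≥0∞) / q := by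
    rcases Nat.eq_zero_or_pos q with rfl | hq
    · have hP0 : (P : ℝ≥0∞) ≠ 0 := by
        intro h0
        have h4 : ((1 : ℕ∞) : ℝ≥0∞) ≤ (P : ℝ≥0∞) := ENat.toENNReal_le.2 hP
        rw [h0, ENat.toENNReal_one] at h4
        exact absurd h4 (by simp)
      rw [Nat.cast_zero, ENNReal.div_zero hP0]
      exact ENNReal.ofReal_lt_top
    · have hq0 : (0 : ℝ) < q := by exact_mod_cast hq
      have h2 : ((2 * q : ℕ) : ℝ≥0∞) / q ≤ (P : ℝ≥0∞) / q := by
        apply ENNReal.div_le_div_right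
        have h3 : (((2 * q : ℕ) : ℕ∞) : ℝ≥0∞) ≤ (P : ℝ≥0∞) := ENat.toENNReal_le.2 hle
        rwa [ENat.toENNReal_coe] at h3
      refine lt_of_lt_of_le ?_ h2
      have h3 : ((2 * q : ℕ) : ℝ≥0∞) / q = ENNReal.ofReal ((2 * q : ℕ) / q) := by
        rw [ENNReal.ofReal_div_of_pos hq0, ENNReal.ofReal_natCast, ENNReal.ofReal_natCast]
      rw [h3]
      refine (ENNReal.ofReal_lt_ofReal_iff (by positivity)).2 ?_
      rw [div_lt_div_iff₀ hx0 hq0]
      push_cast
      nlinarith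
  obtain ⟨n₀, hn₀⟩ := eventually_atTop.1 (h.eventually (lt_mem_nhds hlt2))
  refine ⟨n₀, fun n hn => ?_⟩
  have h5 := hn₀ n hn
  rcases Nat.eq_zero_or_pos (a n) with h6 | h6
  · rw [h6, Nat.cast_zero]
    positivity
  · have h7 : ENNReal.ofReal (1 / x) * (a n : ℝ≥0∞) ≤ t n := by
      rw [← ENNReal.le_div_iff_mul_le (Or.inl (by exact_mod_cast h6.ne'))
        (Or.inl (ENNReal.natCast_ne_top _))]
      exact h5.le
    have h8 : (1 / x) * (a n : ℝ) ≤ t n := by
      have h9 : ENNReal.ofReal ((1 / x) * (a n : ℝ)) ≤ ENNReal.ofReal (t n : ℝ) := by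
        rw [ENNReal.ofReal_mul (by positivity), ENNReal.ofReal_natCast, ENNReal.ofReal_natCast]
        exact h7
      exact (ENNReal.ofReal_le_ofReal_iff (Nat.cast_nonneg _)).1 h9
    calc (a n : ℝ) = x * ((1 / x) * a n) := by field_simp
      _ ≤ x * t n := mul_le_mul_of_nonneg_left h8 hx0.le

/-- **The index law for the motivated classes on the products `Z × X^n`.** -/
theorem mot_times (W : WeilCohomology.{u, v} ops) (X : 𝒱.Obj) [Nontrivial (W.H X)] :
    ∃ N : ℕ∞, 1 ≤ N ∧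
      HasIndex (fun n => dimBy W (IsMot W) (pw X n)) (fun n => cycRank ops (pw X n)) N ∧
      (N = 1 ↔ ∀ n, (∀ j c, IsMot W (pw X n) j c → c ∈ spanCycles W (pw X n) j) ∧
        HomEqNum W (pw X n)) ∧
      ((∃ (m : ℕ) (D : (pw X m).Cycles), (pw X m).IsCyc 1 D ∧ HardLefschetz W (pw X m) D ∧
        ¬ LefschetzB W (pw X m) D) → 2 ≤ N) ∧
      ∀ Z : 𝒱.Obj, Nontrivial (W.H Z) → ∃ (P : ℕ∞) (q : ℕ), N ≤ P ∧ N * q ≤ P ∧
        q ≤ finrank W.K (W.H Z) ∧
        HasIndex (fun n => dimBy W (IsMot W) (Z.prod (pw X n)))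
          (fun n => cycRank ops (pw X n)) P ∧
        (N ≠ ⊤ → HasIndex (fun n => cycRank ops (Z.prod (pw X n)))
          (fun n => cycRank ops (pw X n)) q) ∧
        Tendsto (fun n => (dimBy W (IsMot W) (Z.prod (pw X n)) : ℝ≥0∞) /
          cycRank ops (Z.prod (pw X n))) atTop (𝓝 ((P : ℝ≥0∞) / q)) ∧
        (P = q ↔ ∀ n, (∀ j c, IsMot W (Z.prod (pw X n)) j c →
          c ∈ spanCycles W (Z.prod (pw X n)) j) ∧ HomEqNum W (Z.prod (pw X n))) ∧
        (P ≠ q → AtMost (finrank W.K (W.H Z) / (finrank W.K (W.H Z) + 1))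
          (fun n => cycRank ops (Z.prod (pw X n)))
          (fun n => dimBy W (IsMot W) (Z.prod (pw X n)))) ∧
        (2 ≤ N → AtMost (1 / 2) (fun n => cycRank ops (Z.prod (pw X n)))
          (fun n => dimBy W (IsMot W) (Z.prod (pw X n)))) ∧
        ((∃ (Y : 𝒱.Obj) (m : ℕ) (D : (Y.prod (pw X m)).Cycles), Nonempty (Z ≅ Y.prod Y) ∧
          (Y.prod (pw X m)).IsCyc 1 D ∧ HardLefschetz W (Y.prod (pw X m)) D ∧
          ¬ LefschetzB W (Y.prod (pw X m)) D) → P ≠ q) := by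
  obtain ⟨N, h1, h2, h3, h4⟩ := times (motPred W) X
  refine ⟨N, h1, h2, h3, ?_, fun Z hZ => ?_⟩
  · rintro ⟨m, D, hD, hHL, hB⟩
    by_contra hN
    have hN1 : N = 1 := by
      refine le_antisymm ?_ h1
      by_contra hlt
      apply hN
      have := Order.add_one_le_of_lt (not_le.1 hlt)
      rwa [one_add_one_eq_two] at this
    exact hB (B_of_mot hD hHL (mot_iso (pwAdd X m m) (h3.1 hN1 _).1))
  · obtain ⟨P, q, k1, k2, k3, k4, k5, k6, k7, k8⟩ := h4 Z hZ
    refine ⟨P, q, k1, k2, k3, k4, k5, k6, k7, k8, ?_, ?_⟩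
    · intro hN
      refine atMost_half_of_tendsto (h1.trans k1) ?_ k6
      refine le_trans ?_ k2
      push_cast
      exact mul_le_mul_left hN _
    · rintro ⟨Y, m, D, ⟨θ⟩, hD, hHL, hB⟩ hPq
      refine hB (B_of_mot hD hHL (mot_iso ?_ (k7.1 hPq (m + m + 1)).1))
      exact θ₂ Y (pw X m) Y (pw X m) ≪≫ prodCongr θ.symm (pwAdd X m m)

end Pool.Agent.V1142.XZ
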