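import Pool.Agent.V1142.XZ.MotDefs
import Pool.Agent.V1142.XZ.GalBundle

/-!
# Motivated classes and Tate classes: definitions
-/

open CategoryTheory AlgebraicGeometry

universe u v w

namespace Pool.Agent.V1142.XZ

open Pool.Agent.H914 Pool.Agent.H914.VarClass Pool.Agent.H914.VarClass.Obj
  Pool.Agent.H914.WeilCohomology
open Pool.Agent.Y133.Half (dimOf)

variable {k : Type u} [Field k] {𝒱 : VarClass k} {ops : CycleOps 𝒱}

/-- The element `c` of the span of the motivated classes of all codimensions on `Y` is numerically
trivial: its products with all motivated classes have trace zero. -/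
def MotTriv (W : WeilCohomology.{u, v} ops) (Y : 𝒱.Obj) (c : W.H Y) : Prop :=
  c ∈ Submodule.span W.K {a | ∃ j, IsMot W Y j a} ∧ ∀ j d, IsMot W Y j d → W.tr Y (c * d) = 0

/-- The rank of the motivated classes on `Y` modulo numerical equivalence. -/
noncomputable def motRank (W : WeilCohomology.{u, v} ops) (Y : 𝒱.Obj) : ℕ :=
  dimOf W {c | ∃ j, IsMot W Y j c} - dimOf W {c | MotTriv W Y c}

/-- All Tate classes on `Y` are motivated, and no nonzero element of the span of the motivated
classes is numerically trivial. -/
def TateMot {W : WeilCohomology.{u, v} ops} {Γ : Type w} [Group Γ] (G : GalTheory W Γ)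
    (Y : 𝒱.Obj) : Prop :=
  (∀ j c, G.Tate Y j c → IsMot W Y j c) ∧ ∀ c, MotTriv W Y c → c = 0

end Pool.Agent.V1142.XZ
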