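import Pool.Agent.V1142.XZ.LawGen
import Pool.Agent.V1142.XZ.GalOld
import Pool.Agent.V1142.XZ.MotGalDefs

/-!
# The index law for the Tate classes and the motivated classes
-/

open CategoryTheory AlgebraicGeometry Filter Topology

open scoped ENNReal

universe u v w

set_option linter.unusedSectionVars false

namespace Pool.Agent.V1142.XZ

open Module
open Pool.Agent.H914 Pool.Agent.H914.VarClass Pool.Agent.H914.VarClass.Obj
  Pool.Agent.H914.WeilCohomology Pool.Agent.Y133.Half Pool.Agent.Y133.Half.Sys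
  Pool.Agent.H281R3.HT Pool.Agent.H447

variable {k : Type u} [Field k] {𝒱 : VarClass k} {ops : CycleOps 𝒱}
  {W : WeilCohomology.{u, v} ops} {X Y Z : 𝒱.Obj} {Γ : Type w} [Group Γ]

/-- Motivated classes are Tate classes. -/
lemma IsMot.tate (G : GalTheory W Γ) {Y : 𝒱.Obj} {j : ℕ}
    {c : W.H Y} (hc : IsMot W Y j c) : G.Tate Y j c := by
  induction hc with
  | cl hz => exact G.pred.cl hz
  | add _ _ ha hb => exact G.pred.add ha hb
  | smul r _ ha => exact G.pred.smul r ha
  | mul _ _ ha hb => exact G.pred.mul ha hb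
  | map f _ ha => exact G.pred.map f ha
  | push f hl _ ha => exact G.pred.push f hl ha
  | @lef Y D j hD hHL hj a ha _ h2 =>
    refine ⟨ha, fun g => ?_⟩
    have h3 := h2.2 g
    have hpow : G.act Y g (W.cl Y D ^ (Y.dim - 2 * j)) =
        (G.chi g) ^ (Y.dim - 2 * j) • W.cl Y D ^ (Y.dim - 2 * j) := by
      change G.actE Y g _ = _
      rw [map_pow]
      change (G.act Y g _) ^ _ = _
      rw [G.act_cl Y g 1 D hD, pow_one, smul_pow]
    rw [(G.isAction Y).mul, hpow, smul_mul_assoc] at h3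
    have h4 : (LinearMap.mulLeft W.K (W.cl Y D) ^ (Y.dim - 2 * j))
        (G.act Y g a - (G.chi g) ^ j • a) = 0 := by
      rw [mulLeft_pow_apply, mul_sub, sub_eq_zero, mul_smul_comm]
      have h5 : (G.chi g ^ (Y.dim - 2 * j)) ≠ 0 := pow_ne_zero _ (G.chiU g).ne_zero
      apply smul_right_injective _ h5
      change (G.chi g) ^ (Y.dim - 2 * j) • _ = (G.chi g) ^ (Y.dim - 2 * j) • _
      rw [h3, smul_smul, ← pow_add]
      congr 2
      omega
    have h6 := (hHL (2 * j) hj).1 (G.act Y g a - (G.chi g) ^ j • a)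
      (Submodule.sub_mem _ ((G.isGal Y).gr g _ a ha) (Submodule.smul_mem _ _ ha)) h4
    exact sub_eq_zero.1 h6

lemma mem_motNum {Y : 𝒱.Obj} {c : W.H Y} : c ∈ (motPred W).sys.Num Y ↔ MotTriv W Y c := by
  constructor
  · rintro ⟨h1, h2⟩
    exact ⟨h1, fun j d hd => h2 d (ClassPred.sp_of hd)⟩
  · rintro ⟨h1, h2⟩
    refine ⟨h1, fun d hd => ?_⟩
    refine ClassPred.sp_ind (Q := motPred W) (q := fun d => W.tr Y (c * d) = 0) h2 ?_ ?_ hd
    · rw [mul_zero, map_zero]
    · intro a b ha hb
      rw [mul_add, map_add, ha, hb, add_zero]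

lemma motRank_eq (Y : 𝒱.Obj) : motRank W Y = (motPred W).sys.a Y := by
  have h := (motPred W).sys.a_add_num Y
  have h1 : dimOf W {c | MotTriv W Y c} = finrank W.K ((motPred W).sys.Num Y) := by
    have e : {c | MotTriv W Y c} = ((motPred W).sys.Num Y : Set (W.H Y)) :=
      Set.ext fun c => mem_motNum.symm
    rw [dimOf, e, Set.finrank, Submodule.span_eq]
  have h2 : finrank W.K ((motPred W).sys.C Y) = dimOf W {c | ∃ j, IsMot W Y j c} := rfl
  rw [motRank]
  omega

lemma motNum_eq_bot (Y : 𝒱.Obj) : (motPred W).sys.Num Y = ⊥ ↔ ∀ c, MotTriv W Y c → c = 0 := by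
  rw [Submodule.eq_bot_iff]
  exact forall_congr' fun c => by rw [mem_motNum]

/-- **The index law for the Tate classes and the motivated classes.** -/
theorem motGal_law (G : GalTheory W Γ) (X : 𝒱.Obj) [Nontrivial (W.H X)] :
    IndexLaw G.tateNum (motRank W) (fun Z => finrank W.K (W.H Z)) (TateMot G) X :=
  indexLaw_pred (motPred W) G.pred (fun _ _ _ hc => IsMot.tate G hc) (fun _ => rfl)
    motRank_eq (fun Y => and_congr Iff.rfl (motNum_eq_bot Y)) X

end Pool.Agent.V1142.XZ
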