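import Pool.Agent.V1142.XZ.Times
import Pool.Agent.Y133.Half.PairPred

/-!
# The index law for two nondegenerate classes of cohomology classes
-/

open CategoryTheory AlgebraicGeometry Filter Topology

open scoped ENNReal

universe u v

set_option linter.unusedSectionVars false

namespace Pool.Agent.V1142.XZ

open Module
open Pool.Agent.H914 Pool.Agent.H914.VarClass Pool.Agent.H914.VarClass.Obj
  Pool.Agent.H914.WeilCohomology Pool.Agent.Y133.Half Pool.Agent.Y133.Half.Sys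

variable {k : Type u} [Field k] {𝒱 : VarClass k} {ops : CycleOps 𝒱}
  {W : WeilCohomology.{u, v} ops} {X Y Z : 𝒱.Obj} {S T : Sys W}

lemma nd_pair (hST : ∀ X, S.C X ≤ T.C X) (hS : ∀ Z, Nondeg S Z) (hT : ∀ Z, Nondeg T Z) :
    Pair S T where
  le := hST
  nondeg := hT
  lam Z _ := exists_tr_one (hS Z)

/-- **The index law for two nondegenerate systems.** -/
theorem nd_law (hST : ∀ X, S.C X ≤ T.C X) (hS : ∀ Z, Nondeg S Z) (hT : ∀ Z, Nondeg T Z)
    (X Z : 𝒱.Obj) [hX : Nontrivial (W.H X)] [hZ : Nontrivial (W.H Z)] {N : ℕ∞} (hN1 : 1 ≤ N)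
    (hN : Tendsto (fun n => (finrank W.K (T.C (pw X n)) : ℝ≥0∞) / finrank W.K (S.C (pw X n)))
      atTop (𝓝 (N : ℝ≥0∞)))
    (hone : N = 1 → ∀ n, S.C (pw X n) = T.C (pw X n)) :
    ∃ p q : ℕ, 1 ≤ q ∧ q ≤ p ∧ p ≤ finrank W.K (W.H Z) ∧
      HasIndex (fun n => finrank W.K (T.C (Z.prod (pw X n))))
        (fun n => finrank W.K (T.C (pw X n))) p ∧
      HasIndex (fun n => finrank W.K (S.C (Z.prod (pw X n))))
        (fun n => finrank W.K (S.C (pw X n))) q ∧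
      Tendsto (fun n => (finrank W.K (T.C (Z.prod (pw X n))) : ℝ≥0∞) /
        finrank W.K (S.C (Z.prod (pw X n)))) atTop (𝓝 ((N : ℝ≥0∞) * ((p : ℝ≥0∞) / q))) ∧
      ((N = 1 ∧ p = q) ↔ ∀ n, S.C (Z.prod (pw X n)) = T.C (Z.prod (pw X n))) := by
  have h := nd_pair hST hS hT
  obtain ⟨l, hl, hl1⟩ := h.lam X hX
  have hreg : Reg S X := reg_of_nondeg hS ⟨l, hl, hl1⟩
  obtain ⟨e, p, q, he, hq, hqp, hp, h1, h2, h3, h4⟩ := h.inv X Z hreg
  have hpw := fun n => nontrivial_pw (W := W) X n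
  have hzpw := fun n => (have := hpw n; nontrivial_prod (W := W) (pw X n) Z)
  have hTp : ∀ n, 0 < finrank W.K (T.C (pw X n)) := fun n => (have := hpw n; posC T _)
  have hSp : ∀ n, 0 < finrank W.K (S.C (pw X n)) := fun n => (have := hpw n; posC S _)
  have hSz : ∀ n, 0 < finrank W.K (S.C (Z.prod (pw X n))) := fun n =>
    (have := hzpw n; posC S _)
  have k1 : HasIndex (fun n => finrank W.K (T.C (Z.prod (pw X n))))
      (fun n => finrank W.K (T.C (pw X n))) p := by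
    unfold HasIndex
    rw [ENat.toENNReal_coe]
    exact tendsto_ofReal hTp h1
  have k2 : HasIndex (fun n => finrank W.K (S.C (Z.prod (pw X n))))
      (fun n => finrank W.K (S.C (pw X n))) q := by
    unfold HasIndex
    rw [ENat.toENNReal_coe]
    refine tendsto_ofReal hSp (h2.congr fun n => ?_)
    rw [a_eq (hS _), a_eq (hS _)]
  have hq0 : (q : ℝ≥0∞) ≠ 0 := by exact_mod_cast (show q ≠ 0 by omega)
  have hp0 : (p : ℝ≥0∞) ≠ 0 := by exact_mod_cast (show p ≠ 0 by omega)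
  have hN0 : (N : ℝ≥0∞) ≠ 0 := by
    intro h0
    have h4 : ((1 : ℕ∞) : ℝ≥0∞) ≤ (N : ℝ≥0∞) := ENat.toENNReal_le.2 hN1
    rw [h0, ENat.toENNReal_one] at h4
    exact absurd h4 (by simp)
  have k3 : Tendsto (fun n => (finrank W.K (T.C (Z.prod (pw X n))) : ℝ≥0∞) /
      finrank W.K (S.C (Z.prod (pw X n)))) atTop (𝓝 ((N : ℝ≥0∞) * ((p : ℝ≥0∞) / q))) := by
    have e1 := k1
    have e2 := k2
    unfold HasIndex at e1 e2
    rw [ENat.toENNReal_coe] at e1 e2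
    have e3 : Tendsto (fun n => (finrank W.K (T.C (Z.prod (pw X n))) : ℝ≥0∞) /
        finrank W.K (S.C (pw X n))) atTop (𝓝 ((p : ℝ≥0∞) * (N : ℝ≥0∞))) := by
      refine (ENNReal.Tendsto.mul e1 (Or.inl hp0) hN (Or.inl hN0)).congr fun n => ?_
      have f1 : (finrank W.K (T.C (pw X n)) : ℝ≥0∞) ≠ 0 := by exact_mod_cast (hTp n).ne'
      have f2 : (finrank W.K (T.C (pw X n)) : ℝ≥0∞) ≠ ⊤ := ENNReal.natCast_ne_top _
      rw [div_eq_mul_inv, div_eq_mul_inv, div_eq_mul_inv, mul_assoc,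
        ← mul_assoc ((finrank W.K (T.C (pw X n)) : ℝ≥0∞)⁻¹), ENNReal.inv_mul_cancel f1 f2,
        one_mul]
    have e4 := tendsto_quot_E hSp (mul_ne_zero hp0 hN0) (ENNReal.natCast_ne_top q) e3 e2
    have e5 : (p : ℝ≥0∞) * (N : ℝ≥0∞) / q = (N : ℝ≥0∞) * ((p : ℝ≥0∞) / q) := by
      rw [mul_comm, mul_div_assoc]
    rw [e5] at e4
    exact e4
  refine ⟨p, q, hq, hqp, hp, k1, k2, k3, ?_, ?_⟩
  · rintro ⟨hN', hpq⟩ n
    exact eq_of_r_eq_zero h.le he (fun m => op_le (hone hN') n m) (hT _) (h4 hpq n)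
  · intro h0
    have h5 : ∀ n, (finrank W.K (T.C (Z.prod (pw X n))) : ℝ≥0∞) /
        finrank W.K (S.C (Z.prod (pw X n))) = 1 := by
      intro n
      rw [h0 n]
      exact ENNReal.div_self (by rw [← h0 n]; exact_mod_cast (hSz n).ne')
        (ENNReal.natCast_ne_top _)
    simp only [h5] at k3
    have h6 : (1 : ℝ≥0∞) = (N : ℝ≥0∞) * ((p : ℝ≥0∞) / q) :=
      tendsto_nhds_unique tendsto_const_nhds k3
    have h7 : (q : ℝ≥0∞) = (N : ℝ≥0∞) * p := by
      have h8 : (q : ℝ≥0∞) * ((N : ℝ≥0∞) * ((p : ℝ≥0∞) / q)) = (N : ℝ≥0∞) * p := by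
        rw [← mul_assoc, mul_comm (q : ℝ≥0∞), mul_assoc,
          ENNReal.mul_div_cancel hq0 (ENNReal.natCast_ne_top _)]
      rw [← h8, ← h6, mul_one]
    have h8 : ((q : ℕ∞) : ℝ≥0∞) = ((N * (p : ℕ∞) : ℕ∞) : ℝ≥0∞) := by
      rw [ENat.toENNReal_mul, ENat.toENNReal_coe, ENat.toENNReal_coe]
      exact h7
    have h9 : (q : ℕ∞) = N * p := ENat.toENNReal_inj.1 h8
    have hNt : N ≠ ⊤ := by
      rintro rfl
      rw [ENat.top_mul (by exact_mod_cast (show p ≠ 0 by omega))] at h9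
      exact absurd h9 (by simp)
    obtain ⟨M, rfl⟩ := ENat.ne_top_iff_exists.1 hNt
    have h10 : q = M * p := by exact_mod_cast h9
    have h11 : 1 ≤ M := by exact_mod_cast hN1
    have h12 : M = 1 := by
      by_contra hne
      have : 2 ≤ M := by omega
      have : 2 * p ≤ M * p := Nat.mul_le_mul_right _ this
      omega
    subst h12
    refine ⟨rfl, ?_⟩
    omega

/-- **The index law for two nondegenerate classes of cohomology classes**, one contained in the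
other. -/
theorem nd_times {Q R : ClassPred W}
    (hQR : ∀ {Z : 𝒱.Obj} {j : ℕ} {c : W.H Z}, Q.P Z j c → R.P Z j c)
    (hQ : ∀ Z, Q.sys.Nondeg Z) (hR : ∀ Z, R.sys.Nondeg Z) (X : 𝒱.Obj) [Nontrivial (W.H X)] :
    ∃ N : ℕ∞, 1 ≤ N ∧
      HasIndex (fun n => dimBy W R.P (pw X n)) (fun n => dimBy W Q.P (pw X n)) N ∧
      (N = 1 ↔ ∀ n j c, R.P (pw X n) j c → Q.P (pw X n) j c) ∧
      ∀ Z : 𝒱.Obj, Nontrivial (W.H Z) → ∃ p q : ℕ, 1 ≤ q ∧ q ≤ p ∧
        p ≤ finrank W.K (W.H Z) ∧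
        HasIndex (fun n => dimBy W R.P (Z.prod (pw X n))) (fun n => dimBy W R.P (pw X n)) p ∧
        HasIndex (fun n => dimBy W Q.P (Z.prod (pw X n))) (fun n => dimBy W Q.P (pw X n)) q ∧
        Tendsto (fun n => (dimBy W R.P (Z.prod (pw X n)) : ℝ≥0∞) /
          dimBy W Q.P (Z.prod (pw X n))) atTop (𝓝 ((N : ℝ≥0∞) * ((p : ℝ≥0∞) / q))) ∧
        ((N = 1 ∧ p = q) ↔ ∀ n j c, R.P (Z.prod (pw X n)) j c →
          Q.P (Z.prod (pw X n)) j c) := by
  have hle : ∀ Z, Q.sys.C Z ≤ R.sys.C Z := fun Z => ClassPred.sys_le hQR Z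
  have hst := Sys.stab_of_le (S := Q.sys) (T := R.sys) hle (X := X)
  obtain ⟨N, h1, h2, -, h4⟩ := Sys.stab_index (fun n => hQ _) hst fun n => hle _
  refine ⟨N, h1, h2, ?_, fun Z hZ => ?_⟩
  · rw [h4]
    exact forall_congr' fun n => ClassPred.sys_eq_iff hQR _
  · obtain ⟨p, q, hq, hqp, hp, k1, k2, k3, k4⟩ := nd_law hle hQ hR X Z h1 h2
      fun hN n => (h4.1 hN n).symm
    refine ⟨p, q, hq, hqp, hp, k1, k2, k3, ?_⟩
    rw [k4]
    refine forall_congr' fun n => ?_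
    rw [← ClassPred.sys_eq_iff hQR]
    exact eq_comm

end Pool.Agent.V1142.XZ
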