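import Pool.Agent.V1142.XZ.DegLaw
import Pool.Agent.V1142.XZ.ShareDefs
import Pool.Agent.Y133.Half.PairDefs
import Pool.Agent.Y133.Half.PredSys
import Pool.Agent.V1142.XZ.Hodge

/-!
# The index law for a class of cohomology classes on the products `Z × X^n`
-/

open CategoryTheory AlgebraicGeometry Filter Topology

open scoped ENNReal

universe u v

set_option linter.unusedSectionVars false

namespace Pool.Agent.V1142.XZ

open Module
open Pool.Agent.H914 Pool.Agent.H914.VarClass Pool.Agent.H914.VarClass.Obj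
  Pool.Agent.H914.WeilCohomology Pool.Agent.Y133.Half Pool.Agent.Y133.Half.Sys
  Pool.Agent.W536.RR Pool.Agent.H281R3.HT

variable {k : Type u} [Field k] {𝒱 : VarClass k} {ops : CycleOps 𝒱}
  {W : WeilCohomology.{u, v} ops} {X Y Z Z' P Q M N : 𝒱.Obj} {S T : Sys W}

/-- The share, from the limit of the quotients. -/
lemma atMost_of_tendsto {t a : ℕ → ℕ} {P : ℕ∞} {q b : ℕ} (hP : 1 ≤ P) (hqb : q ≤ b)
    (hle : (q : ℕ∞) ≤ P) (hne : P ≠ q)
    (h : Tendsto (fun n => (t n : ℝ≥0∞) / a n) atTop (𝓝 ((P : ℝ≥0∞) / q))) :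
    AtMost (b / (b + 1)) a t := by
  intro ε hε
  have hlt : (q : ℕ∞) < P := lt_of_le_of_ne hle (Ne.symm hne)
  have h1 : ((q + 1 : ℕ) : ℕ∞) ≤ P := by
    have := Order.add_one_le_of_lt hlt
    exact_mod_cast this
  -- the number `c` with `1 / (b/(b+1) + ε) < c < P / q`
  set x : ℝ := b / (b + 1) + ε with hx
  have hx0 : 0 < x := by positivity
  have hb1 : (0 : ℝ) < b + 1 := by positivity
  have hlt2 : ENNReal.ofReal (1 / x) < (P : ℝ≥0∞) / q := by
    rcases Nat.eq_zero_or_pos q with rfl | hq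
    · have hP0 : (P : ℝ≥0∞) ≠ 0 := by
        intro h0
        have h4 : ((1 : ℕ∞) : ℝ≥0∞) ≤ (P : ℝ≥0∞) := ENat.toENNReal_le.2 hP
        rw [h0, ENat.toENNReal_one] at h4
        exact absurd h4 (by simp)
      rw [Nat.cast_zero, ENNReal.div_zero hP0]
      exact ENNReal.ofReal_lt_top
    · have hq0 : (0 : ℝ) < q := by exact_mod_cast hq
      have h2 : ((q + 1 : ℕ) : ℝ≥0∞) / q ≤ (P : ℝ≥0∞) / q := by
        apply ENNReal.div_le_div_right
        have h3 : (((q + 1 : ℕ) : ℕ∞) : ℝ≥0∞) ≤ (P : ℝ≥0∞) := ENat.toENNReal_le.2 h1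
        rwa [ENat.toENNReal_coe] at h3
      refine lt_of_lt_of_le ?_ h2
      have h3 : ((q + 1 : ℕ) : ℝ≥0∞) / q = ENNReal.ofReal ((q + 1 : ℕ) / q) := by
        rw [ENNReal.ofReal_div_of_pos hq0, ENNReal.ofReal_natCast, ENNReal.ofReal_natCast]
      rw [h3]
      refine (ENNReal.ofReal_lt_ofReal_iff (by positivity)).2 ?_
      rw [div_lt_div_iff₀ hx0 hq0]
      have h4 : (q : ℝ) ≤ b := by exact_mod_cast hqb
      have h5 : (q : ℝ) / (q + 1) ≤ b / (b + 1) := by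
        rw [div_le_div_iff₀ (by positivity) hb1]
        nlinarith
      have h6 : (q : ℝ) / (q + 1) < x := by linarith
      rw [div_lt_iff₀ (by positivity)] at h6
      push_cast
      linarith
  obtain ⟨n₀, hn₀⟩ := eventually_atTop.1 (h.eventually (lt_mem_nhds hlt2))
  refine ⟨n₀, fun n hn => ?_⟩
  have h5 := hn₀ n hn
  rcases Nat.eq_zero_or_pos (a n) with h6 | h6
  · rw [h6, Nat.cast_zero]
    positivity
  · have h7 : ENNReal.ofReal (1 / x) * (a n : ℝ≥0∞) ≤ t n := by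
      rw [← ENNReal.le_div_iff_mul_le (Or.inl (by exact_mod_cast h6.ne'))
        (Or.inl (ENNReal.natCast_ne_top _))]
      exact h5.le
    have h8 : (1 / x) * (a n : ℝ) ≤ t n := by
      have h9 : ENNReal.ofReal ((1 / x) * (a n : ℝ)) ≤ ENNReal.ofReal (t n : ℝ) := by
        rw [ENNReal.ofReal_mul (by positivity), ENNReal.ofReal_natCast, ENNReal.ofReal_natCast]
        exact h7
      exact (ENNReal.ofReal_le_ofReal_iff (Nat.cast_nonneg _)).1 h9
    calc (a n : ℝ) = x * ((1 / x) * a n) := by field_simp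
      _ ≤ x * t n := mul_le_mul_of_nonneg_left h8 hx0.le

lemma q_le_P {N P : ℕ∞} {q : ℕ} (h1 : 1 ≤ N) (h2 : N * q ≤ P) : (q : ℕ∞) ≤ P := by
  refine le_trans ?_ h2
  calc (q : ℕ∞) = 1 * q := (one_mul _).symm
    _ ≤ N * q := mul_le_mul_left h1 _

lemma alg_iff (Q : ClassPred W) (Z : 𝒱.Obj) :
    ((algSys W).C Z = Q.sys.C Z ∧ (algSys W).Num Z = ⊥) ↔
      (∀ j c, Q.P Z j c → c ∈ spanCycles W Z j) ∧ HomEqNum W Z := by
  rw [← homEqNum_iff, ← ClassPred.sp_eq_iff (Q := Q) Z]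
  exact and_congr_left' eq_comm

/-- **The index law for a class of cohomology classes on the products `Z × X^n`.** -/
theorem times (Q : ClassPred W) (X : 𝒱.Obj) [Nontrivial (W.H X)] :
    ∃ N : ℕ∞, 1 ≤ N ∧
      HasIndex (fun n => dimBy W Q.P (pw X n)) (fun n => cycRank ops (pw X n)) N ∧
      (N = 1 ↔ ∀ n, (∀ j c, Q.P (pw X n) j c → c ∈ spanCycles W (pw X n) j) ∧
        HomEqNum W (pw X n)) ∧
      ∀ Z : 𝒱.Obj, Nontrivial (W.H Z) → ∃ (P : ℕ∞) (q : ℕ), N ≤ P ∧ N * q ≤ P ∧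
        q ≤ finrank W.K (W.H Z) ∧
        HasIndex (fun n => dimBy W Q.P (Z.prod (pw X n))) (fun n => cycRank ops (pw X n)) P ∧
        (N ≠ ⊤ → HasIndex (fun n => cycRank ops (Z.prod (pw X n)))
          (fun n => cycRank ops (pw X n)) q) ∧
        Tendsto (fun n => (dimBy W Q.P (Z.prod (pw X n)) : ℝ≥0∞) /
          cycRank ops (Z.prod (pw X n))) atTop (𝓝 ((P : ℝ≥0∞) / q)) ∧
        (P = q ↔ ∀ n, (∀ j c, Q.P (Z.prod (pw X n)) j c →
          c ∈ spanCycles W (Z.prod (pw X n)) j) ∧ HomEqNum W (Z.prod (pw X n))) ∧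
        (P ≠ q → AtMost (finrank W.K (W.H Z) / (finrank W.K (W.H Z) + 1))
          (fun n => cycRank ops (Z.prod (pw X n))) (fun n => dimBy W Q.P (Z.prod (pw X n)))) := by
  obtain ⟨N, h1, h2, h3, h4⟩ := full_law (S := algSys W) (T := Q.sys)
    (fun _ => ClassPred.alg_le) X
  refine ⟨N, h1, ?_, ?_, fun Z hZ => ?_⟩
  · refine h2.congr fun n => ?_
    rw [a_alg]; rfl
  · rw [h3]
    exact forall_congr' fun n => alg_iff Q _
  · obtain ⟨P, q, k1, k2, k3, k4, k5, k6, k7⟩ := h4 Z hZ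
    have hlim : Tendsto (fun n => (dimBy W Q.P (Z.prod (pw X n)) : ℝ≥0∞) /
        cycRank ops (Z.prod (pw X n))) atTop (𝓝 ((P : ℝ≥0∞) / q)) := by
      refine k6.congr fun n => ?_
      rw [a_alg]; rfl
    refine ⟨P, q, k1, k2, k3, ?_, fun hN => ?_, hlim, ?_, fun hne => ?_⟩
    · refine k4.congr fun n => ?_
      rw [a_alg]; rfl
    · have h5 := (k5 hN)
      unfold HasIndex
      rw [ENat.toENNReal_coe]
      refine h5.congr fun n => ?_
      rw [a_alg, a_alg]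
    · rw [k7]
      exact forall_congr' fun n => alg_iff Q _
    · exact atMost_of_tendsto (h1.trans k1) k3 (q_le_P h1 k2) hne hlim

end Pool.Agent.V1142.XZ
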